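import Pool.Agent.NH34.CT.Stm2

/-!
Project CT: assembly.
-/

set_option autoImplicit false
set_option linter.all false

open Polynomial Finset

namespace Pool.Agent.NH34.CT

open Pool.Agent.TH180.RT Pool.Agent.NH4.SB

open Classical

section gen

variable {k : Type} [Field k]

/-- order of vanishing -/
def Ords (a b : RatFunc k) (r : ℕ) : Prop :=
  ∃ (d : ℕ) (A B : k[X]), MinEq a b d A B ∧
    ∃ (N : ℕ) (β : Fin N → ℂ), Spec d A B β ∧ r = (univ.filter fun i => β i = 1).card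

/-- odd conductor -/
def OddC (a b : RatFunc k) : Prop :=
  ∃ (d : ℕ) (A B : k[X]), MinEq a b d A B ∧ Odd (cdeg d A B)

end gen

theorem asm_unique (h1 : U1) (h2 : U2) (h3 : U3) (k : Type) [Field k] [Fintype k] [DecidableEq k]
    (h6 : (6 : k) ≠ 0) (a b : RatFunc k) (r r' : ℕ) (h : Ords a b r) (h' : Ords a b r') : r = r' := by
  obtain ⟨d, A, B, m, N, β, s, rfl⟩ := h
  obtain ⟨d', A', B', m', N', β', s', rfl⟩ := h'
  obtain ⟨rfl, c, hc, rfl, rfl⟩ := h1 k a b d d' A B A' B' m m'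
  refine h3 N N' β β' s.2.1 s'.2.1 fun j hj => ?_
  have e1 := s.2.2 j hj
  have e2 := s'.2.2 j hj
  rw [h2 k h6 c hc d A B j hj] at e2
  rw [e1] at e2
  have hq : ((Nat.card k : ℂ)) ^ j ≠ 0 := by
    apply pow_ne_zero
    exact_mod_cast (Nat.card_pos (α := k)).ne'
  have e3 := neg_injective e2
  exact mul_left_cancel₀ hq e3

theorem asm_cdeg (h1 : U1) (h6' : W6) (k : Type) [Field k] (h6 : (6 : k) ≠ 0) {a b : RatFunc k}
    {d d' : ℕ} {A B A' B' : k[X]} (m : MinEq a b d A B) (m' : MinEq a b d' A' B') :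
    cdeg d A B = cdeg d' A' B' := by
  obtain ⟨rfl, c, hc, rfl, rfl⟩ := h1 k a b d d' A B A' B' m m'
  have h := h6' k h6 (c ^ 2) (pow_ne_zero 2 hc) d A B
  have e1 : (C (c ^ 2) : k[X]) ^ 2 = C c ^ 4 := by rw [← C_pow, ← C_pow]; congr 1; ring
  have e2 : (C (c ^ 2) : k[X]) ^ 3 = C c ^ 6 := by rw [← C_pow, ← C_pow]; congr 1; ring
  rw [e1, e2] at h
  exact h.symm

theorem asm_set (h1 : U1) (h6' : W6) (k : Type) [Field k] [Fintype k] [DecidableEq k]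
    (h6 : (6 : k) ≠ 0) (n ε : ℕ) :
    ((Sn k n).filter fun x => ∃ (d : ℕ) (A B : k[X]), MinEq x.1 x.2 d A B ∧ Odd (cdeg d A B) ∧
      ∃ (N : ℕ) (β : Fin N → ℂ), Spec d A B β ∧ (univ.filter fun i => β i = 1).card % 2 = ε) =
    (Sn k n).filter fun x => OddC x.1 x.2 ∧ ∃ r, r % 2 = ε ∧ Ords x.1 x.2 r := by
  ext x
  rw [mem_filter, mem_filter]
  constructor
  · rintro ⟨h, d, A, B, m, o, N, β, s, e⟩
    exact ⟨h, ⟨d, A, B, m, o⟩, _, e, d, A, B, m, N, β, s, rfl⟩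
  · rintro ⟨h, ⟨d, A, B, m, o⟩, r, e, d', A', B', m', N, β, s, rfl⟩
    refine ⟨h, d', A', B', m', ?_, N, β, s, e⟩
    rw [← asm_cdeg h1 h6' k h6 m m']
    exact o

/-- equidistribution for odd conductors -/
theorem asm_eq (h1 : U1) (w6 : W6) (F : ∀ (k : Type) [Field k] [Fintype k] [DecidableEq k],
      (6 : k) ≠ 0 → ∀ n : ℕ, ∀ ε : ℕ, ε < 2 →
      ((Sn k n).filter fun x => ∃ (d : ℕ) (A B : k[X]), MinEq x.1 x.2 d A B ∧ Odd (cdeg d A B) ∧
        ∃ (N : ℕ) (β : Fin N → ℂ), Spec d A B β ∧ (univ.filter fun i => β i = 1).card % 2 = ε).card ≤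
      ((Sn k n).filter fun x => ∃ (d : ℕ) (A B : k[X]), MinEq x.1 x.2 d A B ∧ Odd (cdeg d A B) ∧
        ∃ (N : ℕ) (β : Fin N → ℂ), Spec d A B β ∧
          (univ.filter fun i => β i = 1).card % 2 = 1 - ε).card)
    (k : Type) [Field k] [Fintype k] [DecidableEq k] (h6 : (6 : k) ≠ 0) (n : ℕ) :
    ((Sn k n).filter fun x => OddC x.1 x.2 ∧ ∃ r, r % 2 = 0 ∧ Ords x.1 x.2 r).card =
    ((Sn k n).filter fun x => OddC x.1 x.2 ∧ ∃ r, r % 2 = 1 ∧ Ords x.1 x.2 r).card := by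
  have a0 := F k h6 n 0 (by norm_num)
  have a1 := F k h6 n 1 (by norm_num)
  rw [asm_set h1 w6 k h6, asm_set h1 w6 k h6] at a0 a1
  exact le_antisymm a0 a1

/-- the difference between even and odd orders -/
theorem asm_diff (k : Type) [Field k] [Fintype k] [DecidableEq k] (n : ℕ) (δ : ℝ)
    (he : ((Sn k n).filter fun x => OddC x.1 x.2 ∧ ∃ r, r % 2 = 0 ∧ Ords x.1 x.2 r).card =
      ((Sn k n).filter fun x => OddC x.1 x.2 ∧ ∃ r, r % 2 = 1 ∧ Ords x.1 x.2 r).card)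
    (ho : (1 - δ) * ((Sn k n).card : ℝ) ≤ (((Sn k n).filter fun x => OddC x.1 x.2).card : ℝ)) :
    |(((Sn k n).filter fun x => ∃ r, r % 2 = 0 ∧ Ords x.1 x.2 r).card : ℝ) -
      (((Sn k n).filter fun x => ∃ r, r % 2 = 1 ∧ Ords x.1 x.2 r).card : ℝ)| ≤
      δ * ((Sn k n).card : ℝ) := by
  have hs : (((Sn k n).filter fun x => OddC x.1 x.2).card : ℝ) +
      (((Sn k n).filter fun x => ¬ OddC x.1 x.2).card : ℝ) = ((Sn k n).card : ℝ) := by
    exact_mod_cast card_filter_add_card_filter_not (s := Sn k n) (fun x => OddC x.1 x.2)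
  have hn : (((Sn k n).filter fun x => ¬ OddC x.1 x.2).card : ℝ) ≤ δ * ((Sn k n).card : ℝ) := by
    linarith
  have key : ∀ ε : ℕ, (((Sn k n).filter fun x => ∃ r, r % 2 = ε ∧ Ords x.1 x.2 r).card : ℝ) ≤
      (((Sn k n).filter fun x => OddC x.1 x.2 ∧ ∃ r, r % 2 = ε ∧ Ords x.1 x.2 r).card : ℝ) +
      (((Sn k n).filter fun x => ¬ OddC x.1 x.2).card : ℝ) := by
    intro ε
    have h : ((Sn k n).filter fun x => ∃ r, r % 2 = ε ∧ Ords x.1 x.2 r) ⊆
        ((Sn k n).filter fun x => OddC x.1 x.2 ∧ ∃ r, r % 2 = ε ∧ Ords x.1 x.2 r) ∪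
        ((Sn k n).filter fun x => ¬ OddC x.1 x.2) := by
      intro x hx
      rw [mem_filter] at hx
      rw [mem_union, mem_filter, mem_filter]
      by_cases h : OddC x.1 x.2
      · exact Or.inl ⟨hx.1, h, hx.2⟩
      · exact Or.inr ⟨hx.1, h⟩
    exact_mod_cast (card_le_card h).trans (card_union_le _ _)
  have sub : ∀ ε : ℕ, (((Sn k n).filter fun x => OddC x.1 x.2 ∧ ∃ r, r % 2 = ε ∧
      Ords x.1 x.2 r).card : ℝ) ≤
      (((Sn k n).filter fun x => ∃ r, r % 2 = ε ∧ Ords x.1 x.2 r).card : ℝ) := by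
    intro ε
    have h : ((Sn k n).filter fun x => OddC x.1 x.2 ∧ ∃ r, r % 2 = ε ∧ Ords x.1 x.2 r) ⊆
        ((Sn k n).filter fun x => ∃ r, r % 2 = ε ∧ Ords x.1 x.2 r) := by
      intro x hx
      rw [mem_filter] at hx ⊢
      exact ⟨hx.1, hx.2.2⟩
    exact_mod_cast card_le_card h
  have he' : (((Sn k n).filter fun x => OddC x.1 x.2 ∧ ∃ r, r % 2 = 0 ∧ Ords x.1 x.2 r).card : ℝ) =
      (((Sn k n).filter fun x => OddC x.1 x.2 ∧ ∃ r, r % 2 = 1 ∧ Ords x.1 x.2 r).card : ℝ) := by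
    exact_mod_cast he
  have k0 := key 0
  have k1 := key 1
  have s0 := sub 0
  have s1 := sub 1
  rw [abs_le]
  constructor <;> linarith

/-- many odd conductors -/
theorem asm_many (hG : ∀ (k : Type) [Field k] [Fintype k] [DecidableEq k], (6 : k) ≠ 0 →
      ∀ n : ℕ, 0 < n → (1 - 30 / (Nat.card k : ℝ)) * (Nat.card k : ℝ) ^ (4 * n + 2) ≤
      ((univ.filter fun ω : Bx k n => Gd n ω.1.1.1 (mo ω.1.2) ω.2.1.1 (mo ω.2.2)).card : ℝ))
    (g1 : G1) (g2 : G2) (g3 : G3)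
    (k : Type) [Field k] [Fintype k] [DecidableEq k] (h6 : (6 : k) ≠ 0) (n : ℕ) (hn : Odd n) :
    (1 - 30 / (Nat.card k : ℝ)) * ((Sn k n).card : ℝ) ≤
      (((Sn k n).filter fun x => OddC x.1 x.2).card : ℝ) := by
  by_cases h : 0 ≤ 1 - 30 / (Nat.card k : ℝ)
  · have a1 := hG k h6 n hn.pos
    have a2 := card_Sn_le (k := k) n
    have a3 : (((univ.filter fun ω : Bx k n =>
        Gd n ω.1.1.1 (mo ω.1.2) ω.2.1.1 (mo ω.2.2)).card : ℕ) : ℝ) ≤
        (((Sn k n).filter fun x => OddC x.1 x.2).card : ℝ) := by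
      exact_mod_cast g3 g1 g2 k h6 n hn
    exact ((mul_le_mul_of_nonneg_left a2 h).trans a1).trans a3
  · push Not at h
    have a1 : (1 - 30 / (Nat.card k : ℝ)) * ((Sn k n).card : ℝ) ≤ 0 :=
      mul_nonpos_of_nonpos_of_nonneg h.le (by positivity)
    exact a1.trans (by positivity)

end Pool.Agent.NH34.CT
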