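import Pool.Agent.NH34.CT.Stm

/-!
Project CT: common factors of `u` and of a monic polynomial.
-/

set_option autoImplicit false
set_option linter.all false

open Polynomial Finset

namespace Pool.Agent.NH34.CT

open Pool.Agent.TH180.RT Pool.Agent.NH4.SB

open Classical

section

variable {k : Type} [Field k] [Fintype k] [DecidableEq k]

/-- the polynomials of an affine space which are divisible by `Q` -/
lemma b1_aff {Q : k[X]} (hQ : Q.Monic) (w : k[X]) {D r : ℕ} (hr : Q.natDegree = r) (hD : r ≤ D) :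
    (univ.filter fun A : degreeLT k D => Q ∣ w + A.1).card ≤ Nat.card k ^ (D - r) := by
  by_cases hne : ∃ A₀ : degreeLT k D, Q ∣ w + A₀.1
  · obtain ⟨A₀, hA₀⟩ := hne
    refine le_trans ?_ (card_mult hQ hr hD)
    refine card_le_card_of_injOn (fun A => A - A₀) ?_ ?_
    · intro A hA
      rw [mem_coe, mem_filter] at hA ⊢
      refine ⟨mem_univ _, ?_⟩
      have h := dvd_sub hA.2 hA₀
      have e : w + A.1 - (w + A₀.1) = (A - A₀ : degreeLT k D).1 := by
        show w + A.1 - (w + A₀.1) = A.1 - A₀.1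
        ring
      rwa [e] at h
    · intro A _ A' _ h
      exact sub_left_injective h
  · have h0 : (univ.filter fun A : degreeLT k D => Q ∣ w + A.1) = ∅ := by
      rw [filter_eq_empty_iff]
      intro A _ h
      exact hne ⟨A, h⟩
    rw [h0, card_empty]
    exact Nat.zero_le _

lemma b1_mo_deg {n : ℕ} (v : degreeLT k n) : (mo v).Monic ∧ (mo v).natDegree = n := by
  have h := mem_degreeLT.1 v.2
  constructor
  · exact monic_X_pow_add h
  · unfold mo
    rw [add_comm, natDegree_add_eq_right_of_degree_lt, natDegree_X_pow]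
    rw [degree_X_pow]
    exact h

lemma b1_card_Pd {e : ℕ} (he : 1 ≤ e) : (Pd k e).card ≤ Nat.card k ^ e :=
  le_trans (Nat.le_mul_of_pos_right _ he) (card_Pd e)

lemma b1_geo (x : ℝ) (hx0 : 0 ≤ x) (hx : x ≤ 1 / 2) (n : ℕ) (hn : 1 ≤ n) :
    ∑ e ∈ Icc 1 n, x ^ e ≤ 2 * x - x ^ n := by
  induction n, hn using Nat.le_induction with
  | base =>
    simp
    linarith
  | succ n hn ih =>
    rw [Finset.sum_Icc_succ_top (by omega)]
    have h1 : x ^ (n + 1) = x ^ n * x := pow_succ x n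
    have h2 := pow_nonneg hx0 n
    nlinarith

/-- the sum over the degrees -/
lemma b1_sum (T N : ℕ) (hTN : T ≤ N) :
    ∑ e ∈ Icc 1 T, (Nat.card k : ℝ) ^ (N - e) ≤ 2 / (Nat.card k : ℝ) * (Nat.card k : ℝ) ^ N := by
  set q : ℝ := (Nat.card k : ℝ) with hq
  have hq2 : (2 : ℝ) ≤ q := q_two
  have hq0 : (0 : ℝ) < q := by linarith
  rcases Nat.eq_zero_or_pos T with h0 | h0
  · subst h0
    simp
    positivity
  have h1 : ∀ e ∈ Icc 1 T, q ^ (N - e) = q ^ N * (q⁻¹) ^ e := by
    intro e he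
    rw [mem_Icc] at he
    rw [pow_sub₀ q hq0.ne' (by omega), inv_pow]
  rw [sum_congr rfl h1, ← mul_sum]
  have h2 : q⁻¹ ≤ 1 / 2 := by
    rw [one_div]
    exact inv_anti₀ (by norm_num) hq2
  have h3 := b1_geo q⁻¹ (by positivity) h2 T h0
  have h4 : (0 : ℝ) ≤ (q⁻¹) ^ T := by positivity
  have h5 : ∑ e ∈ Icc 1 T, (q⁻¹) ^ e ≤ 2 / q := by
    rw [div_eq_mul_inv]
    linarith
  calc q ^ N * ∑ e ∈ Icc 1 T, (q⁻¹) ^ e ≤ q ^ N * (2 / q) := by gcongr
    _ = 2 / q * q ^ N := by ring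

end

theorem b1 : B1 := by
  intro k _ _ _ n hn
  set q : ℝ := (Nat.card k : ℝ) with hq
  have hcov : (univ.filter fun ω : degreeLT k (n + 1) × degreeLT k n => ¬ IsCoprime ω.1.1 (mo ω.2)) ⊆
      (Icc 1 n).biUnion fun e => (Pd k e).biUnion fun P =>
        (univ.filter fun A : degreeLT k (n + 1) => P ∣ A.1) ×ˢ
          (univ.filter fun B : degreeLT k n => P ∣ X ^ n + B.1) := by
    intro ω hω
    rw [mem_filter] at hω
    obtain ⟨hm, hd⟩ := b1_mo_deg ω.2
    obtain ⟨P, hP1, hP2, hP3, hP4⟩ : ∃ P : k[X], P.Monic ∧ Irreducible P ∧ P ∣ ω.1.1 ∧ P ∣ mo ω.2 := by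
      by_contra hcon
      push Not at hcon
      apply hω.2
      refine EuclideanDomain.isCoprime_of_dvd ?_ ?_
      · rintro ⟨-, h⟩
        exact hm.ne_zero h
      · intro z hz1 hz2 hz3 hz4
        obtain ⟨R, hR1, hR2⟩ := WfDvdMonoid.exists_irreducible_factor hz1 hz2
        have hR0 : R ≠ 0 := hR1.ne_zero
        have hu : IsUnit (C (R.leadingCoeff⁻¹)) :=
          isUnit_C.2 (isUnit_iff_ne_zero.2 (inv_ne_zero (leadingCoeff_ne_zero.2 hR0)))
        have hmo : (R * C (R.leadingCoeff⁻¹)).Monic := monic_mul_leadingCoeff_inv hR0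
        have hir : Irreducible (R * C (R.leadingCoeff⁻¹)) := (irreducible_mul_isUnit hu).2 hR1
        have hdv : R * C (R.leadingCoeff⁻¹) ∣ R := (hu.mul_right_dvd).2 dvd_rfl
        exact hcon _ hmo hir ((hdv.trans hR2).trans hz3) ((hdv.trans hR2).trans hz4)
    rw [mem_biUnion]
    have hle : P.natDegree ≤ n := by
      have := natDegree_le_of_dvd hP4 hm.ne_zero
      rwa [hd] at this
    refine ⟨P.natDegree, mem_Icc.2 ⟨hP2.natDegree_pos, hle⟩, ?_⟩
    rw [mem_biUnion]
    refine ⟨P, mem_Pd.2 ⟨hP1, hP2, rfl⟩, ?_⟩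
    rw [mem_product, mem_filter, mem_filter]
    exact ⟨⟨mem_univ _, hP3⟩, ⟨mem_univ _, hP4⟩⟩
  have h2 := (card_le_card hcov).trans card_biUnion_le
  have h3 : ∀ e ∈ Icc 1 n, ((Pd k e).biUnion fun P =>
        (univ.filter fun A : degreeLT k (n + 1) => P ∣ A.1) ×ˢ
          (univ.filter fun B : degreeLT k n => P ∣ X ^ n + B.1)).card ≤
      Nat.card k ^ (2 * n + 1 - e) := by
    intro e he
    rw [mem_Icc] at he
    have h4 : ((Pd k e).biUnion fun P =>
        (univ.filter fun A : degreeLT k (n + 1) => P ∣ A.1) ×ˢ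
          (univ.filter fun B : degreeLT k n => P ∣ X ^ n + B.1)).card ≤
        (Pd k e).card * Nat.card k ^ ((n + 1 - e) + (n - e)) := by
      refine card_biUnion_le.trans ?_
      rw [← smul_eq_mul, ← sum_const]
      refine sum_le_sum fun P hP => ?_
      obtain ⟨p1, p2, p3⟩ := mem_Pd.1 hP
      rw [card_product, pow_add]
      exact Nat.mul_le_mul (card_mult p1 p3 (by omega)) (b1_aff p1 _ p3 he.2)
    refine h4.trans ?_
    calc (Pd k e).card * Nat.card k ^ ((n + 1 - e) + (n - e)) ≤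
          Nat.card k ^ e * Nat.card k ^ ((n + 1 - e) + (n - e)) :=
          Nat.mul_le_mul_right _ (b1_card_Pd he.1)
      _ = Nat.card k ^ (2 * n + 1 - e) := by
          rw [← pow_add]
          congr 1
          omega
  have h5 := h2.trans (sum_le_sum h3)
  have h6 : ((univ.filter fun ω : degreeLT k (n + 1) × degreeLT k n => ¬ IsCoprime ω.1.1 (mo ω.2)).card : ℝ) ≤
      ∑ e ∈ Icc 1 n, (Nat.card k : ℝ) ^ (2 * n + 1 - e) := by
    exact_mod_cast h5
  exact h6.trans (b1_sum n (2 * n + 1) (by omega))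

end Pool.Agent.NH34.CT
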