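import Pool.Agent.NH34.CT.B6

/-!
CT-B2: common factors of two monic polynomials of the same degree.
-/

set_option autoImplicit false
set_option linter.all false

open Polynomial Finset

namespace Pool.Agent.NH34.CT

open Pool.Agent.TH180.RT Pool.Agent.NH4.SB

open Classical

theorem b2_nd {k : Type} [Field k] {n : ℕ} (v : degreeLT k n) : (mo v).natDegree = n := by
  unfold mo
  rw [natDegree_add_eq_left_of_degree_lt, natDegree_X_pow]
  rw [degree_X_pow]
  exact mem_degreeLT.1 v.2

theorem b2_monic {k : Type} [Field k] {n : ℕ} (v : degreeLT k n) : (mo v).Monic := by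
  unfold mo
  exact monic_X_pow_add (mem_degreeLT.1 v.2)

theorem b2_card {k : Type} [Field k] [Fintype k] [DecidableEq k] {n e : ℕ} {P : k[X]}
    (p1 : P.Monic) (p3 : P.natDegree = e) (he : e ≤ n) :
    (univ.filter fun v : degreeLT k n => P ∣ mo v).card ≤ Nat.card k ^ (n - e) := by
  by_cases hne : ∃ v₀ : degreeLT k n, P ∣ mo v₀
  · obtain ⟨v₀, hv₀⟩ := hne
    refine le_trans ?_ (card_mult (k := k) p1 p3 (D := n) he)
    refine card_le_card_of_injOn (fun v => v - v₀) ?_ ?_
    · intro v hv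
      rw [mem_coe, mem_filter] at hv ⊢
      refine ⟨mem_univ _, ?_⟩
      have h1 := dvd_sub hv.2 hv₀
      have h2 : mo v - mo v₀ = (v - v₀ : degreeLT k n).1 := by
        unfold mo
        rw [add_sub_add_left_eq_sub]
        rfl
      rwa [h2] at h1
    · intro v _ v' _ h
      exact sub_left_injective h
  · have h1 : (univ.filter fun v : degreeLT k n => P ∣ mo v) = ∅ := by
      apply filter_eq_empty_iff.2
      intro v _ hv
      exact hne ⟨v, hv⟩
    rw [h1, card_empty]
    exact Nat.zero_le _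

/-- common factors, monic of degree `n` -/
theorem b2 : B2 := by
  intro k _ _ _ n hn
  have hsub : (univ.filter fun ω : degreeLT k n × degreeLT k n => ¬ IsCoprime (mo ω.1) (mo ω.2)) ⊆
      (Icc 1 n).biUnion fun e => (Pd k e).biUnion fun P =>
        (univ.filter fun v : degreeLT k n => P ∣ mo v) ×ˢ
          (univ.filter fun v : degreeLT k n => P ∣ mo v) := by
    intro ω hω
    rw [mem_filter] at hω
    have hne : mo ω.1 ≠ 0 := (b2_monic ω.1).ne_zero
    obtain ⟨P, p1, p2, p4, p5⟩ := b6_prime (fun h => hne h.1) hω.2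
    have p3 : P.natDegree ≤ n := (natDegree_le_of_dvd p4 hne).trans (b2_nd ω.1).le
    rw [mem_biUnion]
    refine ⟨P.natDegree, mem_Icc.2 ⟨p2.natDegree_pos, p3⟩, ?_⟩
    rw [mem_biUnion]
    exact ⟨P, mem_Pd.2 ⟨p1, p2, rfl⟩, mem_product.2 ⟨mem_filter.2 ⟨mem_univ _, p4⟩,
      mem_filter.2 ⟨mem_univ _, p5⟩⟩⟩
  have hcard : (((univ.filter fun ω : degreeLT k n × degreeLT k n =>
      ¬ IsCoprime (mo ω.1) (mo ω.2)).card : ℕ) : ℝ) ≤ ∑ e ∈ Icc 1 n, ((Pd k e).card : ℝ) *
        ((Nat.card k : ℝ) ^ (n - e) * (Nat.card k : ℝ) ^ (n - e)) := by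
    refine (Nat.cast_le.2 ((card_le_card hsub).trans card_biUnion_le)).trans ?_
    rw [Nat.cast_sum]
    refine sum_le_sum fun e he => ?_
    rw [mem_Icc] at he
    refine (Nat.cast_le.2 card_biUnion_le).trans ?_
    rw [Nat.cast_sum, ← nsmul_eq_mul, ← sum_const]
    refine sum_le_sum fun P hP => ?_
    obtain ⟨p1, p2, p3⟩ := mem_Pd.1 hP
    have h1 := b2_card (k := k) p1 p3 he.2
    have h2 : (((univ.filter fun v : degreeLT k n => P ∣ mo v).card : ℕ) : ℝ) ≤
        (Nat.card k : ℝ) ^ (n - e) := by exact_mod_cast h1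
    rw [card_product, Nat.cast_mul]
    exact mul_le_mul h2 h2 (by positivity) (by positivity)
  exact hcard.trans (b6_sum n n le_rfl)

end Pool.Agent.NH34.CT
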