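import Pool.Agent.NH34.CT.Stm

/-!
Project CT, part B3: the polynomials `X ^ n + v` with a square factor (helper54).
-/

set_option autoImplicit false
set_option linter.all false
set_option maxHeartbeats 1000000

open Polynomial Finset

namespace Pool.Agent.NH34.CT

open Pool.Agent.TH180.RT Pool.Agent.NH4.SB

theorem b3_geo {x : ℝ} (h0 : 0 ≤ x) (h1 : 2 * x ≤ 1) (T : ℕ) :
    ∑ e ∈ Icc 1 T, x ^ e ≤ 2 * x - 2 * x ^ (T + 1) := by
  induction T with
  | zero => simp
  | succ T ih =>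
    rw [sum_Icc_succ_top (by omega)]
    have h2 : 0 ≤ x ^ (T + 1) := pow_nonneg h0 _
    have h3 : x ^ (T + 1 + 1) = x * x ^ (T + 1) := by rw [pow_succ]; ring
    rw [h3]
    nlinarith

variable {k : Type} [Field k] [Fintype k] [DecidableEq k]

theorem b3_two_le : 2 ≤ Nat.card k := by
  rw [Nat.card_eq_fintype_card]
  exact Fintype.one_lt_card

theorem b3_monic {n : ℕ} (v : degreeLT k n) : (mo v).Monic := by
  unfold mo
  exact monic_X_pow_add (mem_degreeLT.1 v.2)

theorem b3_natDegree {n : ℕ} (v : degreeLT k n) : (mo v).natDegree = n := by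
  unfold mo
  have h := mem_degreeLT.1 v.2
  rw [natDegree_add_eq_left_of_degree_lt]
  · exact natDegree_X_pow n
  · rw [degree_X_pow]; exact h

open Classical in
theorem b3_fibre {n : ℕ} {P : k[X]} (hP : P.Monic) {e : ℕ} (he : P.natDegree = e)
    (hn : 2 * e ≤ n) :
    (univ.filter fun v : degreeLT k n => P ^ 2 ∣ mo v).card ≤ Nat.card k ^ (n - 2 * e) := by
  rcases (univ.filter fun v : degreeLT k n => P ^ 2 ∣ mo v).eq_empty_or_nonempty with h | ⟨v0, h0⟩
  · rw [h]; simp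
  rw [mem_filter] at h0
  refine le_trans ?_ (card_mult (Q := P ^ 2) (hP.pow 2) (D := n) (r := 2 * e)
    (by rw [natDegree_pow, he]) hn)
  refine card_le_card_of_injOn (fun v => v - v0) ?_ ?_
  · intro v hv
    rw [mem_coe, mem_filter] at hv
    rw [mem_coe, mem_filter]
    refine ⟨mem_univ _, ?_⟩
    have h1 : (v - v0 : degreeLT k n).1 = mo v - mo v0 := by
      unfold mo
      rw [AddSubgroupClass.coe_sub]
      ring
    rw [h1]
    exact dvd_sub hv.2 h0.2
  · intro v hv v' hv' h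
    exact sub_left_injective h

open Classical in
theorem b3_main (n : ℕ) :
    ((univ.filter fun v : degreeLT k n => ¬ Squarefree (mo v)).card : ℝ) ≤
      2 / (Nat.card k : ℝ) * (Nat.card k : ℝ) ^ n := by
  have hq : (2 : ℝ) ≤ Nat.card k := by exact_mod_cast b3_two_le (k := k)
  have hq0 : (0 : ℝ) < Nat.card k := by linarith
  have h1 : (univ.filter fun v : degreeLT k n => ¬ Squarefree (mo v)) ⊆
      (Icc 1 (n / 2)).biUnion fun e => (Pd k e).biUnion fun P =>
        univ.filter fun v : degreeLT k n => P ^ 2 ∣ mo v := by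
    intro v hv
    rw [mem_filter] at hv
    obtain ⟨-, hv⟩ := hv
    have hm := b3_monic v
    rw [squarefree_iff_irreducible_sq_not_dvd_of_ne_zero hm.ne_zero] at hv
    push Not at hv
    obtain ⟨Q, hQ, hQd⟩ := hv
    have hlc : Q.leadingCoeff ≠ 0 := leadingCoeff_ne_zero.2 hQ.ne_zero
    have hu : IsUnit (C (Q.leadingCoeff⁻¹)) := isUnit_C.2 (isUnit_iff_ne_zero.2 (inv_ne_zero hlc))
    have hA : Associated Q (Q * C (Q.leadingCoeff⁻¹)) :=
      (associated_mul_unit_right Q _ hu)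
    set P := Q * C (Q.leadingCoeff⁻¹) with hPdef
    have hPm : P.Monic := monic_mul_leadingCoeff_inv hQ.ne_zero
    have hPi : Irreducible P := hA.irreducible hQ
    have hPd : P ^ 2 ∣ mo v := by
      rw [← pow_two] at hQd
      exact (hA.symm.pow_pow (n := 2)).dvd.trans hQd
    have hdeg := natDegree_le_of_dvd hPd hm.ne_zero
    rw [natDegree_pow, b3_natDegree] at hdeg
    rw [mem_biUnion]
    refine ⟨P.natDegree, mem_Icc.2 ⟨hPi.natDegree_pos, by omega⟩, ?_⟩
    rw [mem_biUnion]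
    exact ⟨P, mem_Pd.2 ⟨hPm, hPi, rfl⟩, mem_filter.2 ⟨mem_univ _, hPd⟩⟩
  have h2 := (card_le_card h1).trans card_biUnion_le
  have h3 : ∀ e ∈ Icc 1 (n / 2), ((Pd k e).biUnion fun P =>
        univ.filter fun v : degreeLT k n => P ^ 2 ∣ mo v).card ≤
      (Pd k e).card * Nat.card k ^ (n - 2 * e) := by
    intro e he
    rw [mem_Icc] at he
    refine card_biUnion_le.trans ?_
    rw [← smul_eq_mul, ← sum_const]
    refine sum_le_sum fun P hP => ?_
    obtain ⟨p1, p2, p3⟩ := mem_Pd.1 hP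
    exact b3_fibre p1 p3 (by omega)
  have h4 := h2.trans (sum_le_sum h3)
  have h5 : ((univ.filter fun v : degreeLT k n => ¬ Squarefree (mo v)).card : ℝ) ≤
      ∑ e ∈ Icc 1 (n / 2), ((Pd k e).card : ℝ) * (Nat.card k : ℝ) ^ (n - 2 * e) := by
    exact_mod_cast h4
  refine h5.trans ?_
  have h6 : ∀ e ∈ Icc 1 (n / 2), ((Pd k e).card : ℝ) * (Nat.card k : ℝ) ^ (n - 2 * e) ≤
      (Nat.card k : ℝ) ^ n * (1 / (Nat.card k : ℝ)) ^ e := by
    intro e he
    rw [mem_Icc] at he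
    have h7 := card_Pd_real (k := k) e
    have he1 : (1 : ℝ) ≤ e := by exact_mod_cast he.1
    have h8 : ((Pd k e).card : ℝ) ≤ (Nat.card k : ℝ) ^ e := by
      have : (0 : ℝ) ≤ (Pd k e).card := Nat.cast_nonneg _
      nlinarith
    have h9 : (Nat.card k : ℝ) ^ n = (Nat.card k : ℝ) ^ (n - 2 * e) * (Nat.card k : ℝ) ^ e *
        (Nat.card k : ℝ) ^ e := by
      rw [← pow_add, ← pow_add]
      congr 1
      omega
    rw [h9, mul_assoc ((Nat.card k : ℝ) ^ (n - 2 * e) * (Nat.card k : ℝ) ^ e), ← mul_pow,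
      mul_one_div_cancel hq0.ne', one_pow, mul_one, mul_comm]
    exact mul_le_mul_of_nonneg_left h8 (pow_nonneg hq0.le _)
  refine (sum_le_sum h6).trans ?_
  rw [← mul_sum]
  have hx0 : (0 : ℝ) ≤ 1 / (Nat.card k : ℝ) := by positivity
  have hx1 : 2 * (1 / (Nat.card k : ℝ)) ≤ 1 := by
    rw [mul_one_div, div_le_one hq0]
    exact hq
  have h10 := b3_geo hx0 hx1 (n / 2)
  have h11 : (0 : ℝ) ≤ (1 / (Nat.card k : ℝ)) ^ (n / 2 + 1) := pow_nonneg hx0 _
  have h12 : ∑ e ∈ Icc 1 (n / 2), (1 / (Nat.card k : ℝ)) ^ e ≤ 2 * (1 / (Nat.card k : ℝ)) := by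
    linarith
  calc (Nat.card k : ℝ) ^ n * ∑ e ∈ Icc 1 (n / 2), (1 / (Nat.card k : ℝ)) ^ e
      ≤ (Nat.card k : ℝ) ^ n * (2 * (1 / (Nat.card k : ℝ))) :=
        mul_le_mul_of_nonneg_left h12 (pow_nonneg hq0.le _)
    _ = 2 / (Nat.card k : ℝ) * (Nat.card k : ℝ) ^ n := by ring

theorem b3 : B3 := by
  intro k _ _ _ n hn
  exact b3_main n

end Pool.Agent.NH34.CT
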