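import Pool.Agent.NH34.CT.Stm

set_option autoImplicit false

open Polynomial Finset

namespace Pool.Agent.NH34.CT

open Pool.Agent.TH180.RT Pool.Agent.NH4.SB

section

variable {k : Type} [Field k]

theorem b4_coeff {m N : ℕ} (p : degreeLT k m) (h : m ≤ N) : p.1.coeff N = 0 := by
  refine coeff_eq_zero_of_degree_lt (lt_of_lt_of_le (mem_degreeLT.1 p.2) ?_)
  exact_mod_cast h

theorem b4_nd {m : ℕ} (p : degreeLT k (m + 1)) : p.1.natDegree ≤ m :=
  natDegree_le_iff_coeff_eq_zero.2 fun _ hN => b4_coeff p hN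

theorem b4_mo_nd {n : ℕ} (v : degreeLT k n) : (mo v).natDegree ≤ n := by
  refine natDegree_le_iff_coeff_eq_zero.2 fun N hN => ?_
  unfold mo
  rw [coeff_add, coeff_X_pow, if_neg (by omega), b4_coeff v (by omega), add_zero]

theorem b4_mo_coeff {n : ℕ} (v : degreeLT k n) : (mo v).coeff n = 1 := by
  unfold mo
  rw [coeff_add, coeff_X_pow, if_pos rfl, b4_coeff v le_rfl, add_zero]

theorem b4_27 (h6 : (6 : k) ≠ 0) : (27 : k) ≠ 0 := by
  intro h
  have h3 : (3 : k) = 0 := by
    have : (3 : k) ^ 3 = 0 := by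
      rw [← h]
      norm_num
    exact pow_eq_zero_iff (by norm_num) |>.1 this
  apply h6
  have : (6 : k) = 2 * 3 := by norm_num
  rw [this, h3, mul_zero]

open Classical in
theorem b4_two [Fintype k] (h6 : (6 : k) ≠ 0) (x : k) :
    (univ.filter fun y : k => 4 * x ^ 3 + 27 * y ^ 2 = 0).card ≤ 2 := by
  rcases (univ.filter fun y : k => 4 * x ^ 3 + 27 * y ^ 2 = 0).eq_empty_or_nonempty with h | ⟨y, hy⟩
  · rw [h, card_empty]
    exact Nat.zero_le _
  · refine le_trans (card_le_card (t := {y, -y}) ?_) card_le_two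
    intro z hz
    rw [mem_filter] at hy hz
    have h1 : (27 : k) * (z ^ 2 - y ^ 2) = 0 := by linear_combination hz.2 - hy.2
    have h2 : z ^ 2 - y ^ 2 = 0 := (mul_eq_zero.1 h1).resolve_left (b4_27 h6)
    have h3 : z ^ 2 = y ^ 2 := sub_eq_zero.1 h2
    rw [mem_insert, mem_singleton]
    exact sq_eq_sq_iff_eq_or_eq_neg.1 h3

end

open Classical in
theorem b4 : B4 := by
  intro k _ _ _ h6 n
  set S := univ.filter fun ω : degreeLT k (n + 1) × degreeLT k (n + 1) =>
      4 * ω.1.1.coeff n ^ 3 + 27 * ω.2.1.coeff n ^ 2 = 0 with hS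
  have hq : (Fintype.card k : ℝ) ≠ 0 := by
    exact_mod_cast Fintype.card_ne_zero
  have key : S.card ≤ 2 * Fintype.card k ^ n * Fintype.card k ^ (n + 1) := by
    refine (card_le_mul_card_image (f := Prod.fst) S (2 * Fintype.card k ^ n) ?_).trans ?_
    · intro u _
      have h1 : (S.filter fun x => x.1 = u).card ≤
          ((univ.filter fun y : k => 4 * u.1.coeff n ^ 3 + 27 * y ^ 2 = 0) ×ˢ
            (univ : Finset (Fin n → k))).card := by
        refine card_le_card_of_injOn (fun x => (x.2.1.coeff n, fun i : Fin n => x.2.1.coeff i)) ?_ ?_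
        · intro x hx
          rw [mem_coe, mem_filter, hS, mem_filter] at hx
          rw [mem_coe, mem_product, mem_filter]
          refine ⟨⟨mem_univ _, ?_⟩, mem_univ _⟩
          rw [← hx.2]
          exact hx.1.2
        · intro x hx y hy hxy
          rw [mem_coe, mem_filter] at hx hy
          simp only [Prod.mk.injEq] at hxy
          refine Prod.ext (hx.2.trans hy.2.symm) (Subtype.ext ?_)
          ext i
          rcases lt_trichotomy i n with h | h | h
          · exact congrFun hxy.2 ⟨i, h⟩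
          · rw [h]
            exact hxy.1
          · rw [b4_coeff x.2 h, b4_coeff y.2 h]
      refine h1.trans ?_
      rw [card_product, card_univ, Fintype.card_fun, Fintype.card_fin]
      refine Nat.mul_le_mul_right _ ?_
      convert b4_two h6 (u.1.coeff n)
    · refine Nat.mul_le_mul_left _ ((card_le_univ _).trans ?_)
      rw [card_LT]
  have key' : (S.card : ℝ) ≤ 2 * (Fintype.card k : ℝ) ^ n * (Fintype.card k : ℝ) ^ (n + 1) := by
    exact_mod_cast key
  rw [Nat.card_eq_fintype_card]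
  refine key'.trans (le_of_eq ?_)
  have e : (Fintype.card k : ℝ) ^ (2 * n + 2) =
      (Fintype.card k : ℝ) ^ n * (Fintype.card k : ℝ) ^ (n + 1) * Fintype.card k := by ring
  rw [e]
  field_simp

theorem b4' : B4' := by
  intro k _ n u s v t h
  refine natDegree_eq_of_le_of_coeff_ne_zero
    (fD_deg (b4_nd u) (b4_mo_nd v) (b4_nd s) (b4_mo_nd t)) ?_
  have e4 : (4 : k[X]) = C 4 := by rw [map_ofNat]
  have e27 : (27 : k[X]) = C 27 := by rw [map_ofNat]
  have h1 : (4 * u.1 ^ 3 * mo t ^ 2).coeff (5 * n) = 4 * u.1.coeff n ^ 3 := by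
    rw [e4, mul_assoc, coeff_C_mul, show 5 * n = 3 * n + 2 * n by ring,
      coeff_mul_add_eq_of_natDegree_le (natDegree_pow_le_of_le 3 (b4_nd u))
        (natDegree_pow_le_of_le 2 (b4_mo_nd t)),
      coeff_pow_of_natDegree_le (b4_nd u), coeff_pow_of_natDegree_le (b4_mo_nd t), b4_mo_coeff,
      one_pow, mul_one]
  have h2 : (27 * s.1 ^ 2 * mo v ^ 3).coeff (5 * n) = 27 * s.1.coeff n ^ 2 := by
    rw [e27, mul_assoc, coeff_C_mul, show 5 * n = 2 * n + 3 * n by ring,
      coeff_mul_add_eq_of_natDegree_le (natDegree_pow_le_of_le 2 (b4_nd s))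
        (natDegree_pow_le_of_le 3 (b4_mo_nd v)),
      coeff_pow_of_natDegree_le (b4_nd s), coeff_pow_of_natDegree_le (b4_mo_nd v), b4_mo_coeff,
      one_pow, mul_one]
  unfold fD
  rw [coeff_add, h1, h2]
  exact h

end Pool.Agent.NH34.CT
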