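import Pool.Agent.NH34.CT.Stm

/-!
Project CT, part B5: the number of `s` with a small square factor of the discriminant.
-/

set_option autoImplicit false
set_option linter.all false

open Polynomial Finset

namespace Pool.Agent.NH34.CT

open Pool.Agent.TH180.RT Pool.Agent.NH4.SB

open Classical

lemma b5_geom (q : ℝ) (n : ℕ) : (q - 1) * ∑ e ∈ Icc 1 n, q ^ e = q ^ (n + 1) - q := by
  induction n with
  | zero => simp
  | succ n ih =>
    rw [Finset.sum_Icc_succ_top (by omega), mul_add, ih]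
    ring

lemma b5_refl (q : ℝ) (n : ℕ) : ∑ e ∈ Icc 1 n, q ^ (n + 1 - e) = ∑ e ∈ Icc 1 n, q ^ e := by
  refine Finset.sum_nbij' (fun e => n + 1 - e) (fun e => n + 1 - e) ?_ ?_ ?_ ?_ ?_
  · intro e he
    rw [mem_Icc] at he ⊢
    omega
  · intro e he
    rw [mem_Icc] at he ⊢
    omega
  · intro e he
    rw [mem_Icc] at he
    show n + 1 - (n + 1 - e) = e
    omega
  · intro e he
    rw [mem_Icc] at he
    show n + 1 - (n + 1 - e) = e
    omega
  · intro e he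
    rfl

lemma b5_one (q n e c : ℕ) (hq : 1 ≤ q) (he : 1 ≤ e) (hc : c * e ≤ q ^ e) :
    c * (2 * (q ^ (n + 1 - 2 * e) + 1)) ≤ 2 * q ^ (n + 1 - e) + 4 * q ^ e := by
  have h1 : c ≤ q ^ e := (Nat.le_mul_of_pos_right c (by omega)).trans hc
  refine (Nat.mul_le_mul_right _ h1).trans ?_
  rcases le_total (2 * e) (n + 1) with h | h
  · have h2 : q ^ e * q ^ (n + 1 - 2 * e) = q ^ (n + 1 - e) := by
      rw [← pow_add]
      congr 1
      omega
    have h3 : q ^ e * (2 * (q ^ (n + 1 - 2 * e) + 1)) =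
        2 * (q ^ e * q ^ (n + 1 - 2 * e)) + 2 * q ^ e := by ring
    rw [h3, h2]
    omega
  · have h2 : n + 1 - 2 * e = 0 := by omega
    rw [h2, pow_zero]
    omega

lemma b5_mon {k : Type} [Field k] {P Q : k[X]} (hP : Irreducible P) (h : P ^ 2 ∣ Q) :
    ∃ R : k[X], R.Monic ∧ Irreducible R ∧ R.natDegree = P.natDegree ∧ R ^ 2 ∣ Q := by
  have hl : P.leadingCoeff⁻¹ ≠ 0 := inv_ne_zero (leadingCoeff_ne_zero.2 hP.ne_zero)
  refine ⟨P * C P.leadingCoeff⁻¹, monic_mul_leadingCoeff_inv hP.ne_zero,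
    irreducible_mul_leadingCoeff_inv.2 hP, natDegree_mul_leadingCoeff_inv P hP.ne_zero, ?_⟩
  rw [mul_pow]
  have hu : IsUnit (C P.leadingCoeff⁻¹ ^ 2 : k[X]) :=
    (isUnit_C.2 (isUnit_iff_ne_zero.2 hl)).pow 2
  exact (IsUnit.mul_right_dvd hu).2 h

/-- part B5 -/
theorem b5 : B5 := by
  intro hA k _ _ _ h6 n u v t huv hvt
  have hq5 : 5 ≤ Nat.card k := q_ge_five h6
  have hS : (univ.filter fun s : degreeLT k (n + 1) => IsCoprime u s.1 ∧ IsCoprime s.1 t ∧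
      ∃ P : k[X], Irreducible P ∧ P.natDegree ≤ n ∧ P ^ 2 ∣ fD u v s.1 t) ⊆
      (Icc 1 n).biUnion fun e => (Pd k e).biUnion fun P =>
        univ.filter fun s : degreeLT k (n + 1) => IsCoprime u s.1 ∧ IsCoprime s.1 t ∧
          P ^ 2 ∣ fD u v s.1 t := by
    intro s hs
    rw [mem_filter] at hs
    obtain ⟨-, s1, s2, P, p1, p2, p3⟩ := hs
    obtain ⟨R, r1, r2, r3, r4⟩ := b5_mon p1 p3
    rw [mem_biUnion]
    refine ⟨R.natDegree, mem_Icc.2 ⟨r2.natDegree_pos, by rw [r3]; exact p2⟩, ?_⟩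
    rw [mem_biUnion]
    refine ⟨R, mem_Pd.2 ⟨r1, r2, rfl⟩, ?_⟩
    rw [mem_filter]
    exact ⟨mem_univ _, s1, s2, r4⟩
  have h1 := (card_le_card hS).trans card_biUnion_le
  have h2 : ∀ e ∈ Icc 1 n, ((Pd k e).biUnion fun P =>
        univ.filter fun s : degreeLT k (n + 1) => IsCoprime u s.1 ∧ IsCoprime s.1 t ∧
          P ^ 2 ∣ fD u v s.1 t).card ≤ 2 * Nat.card k ^ (n + 1 - e) + 4 * Nat.card k ^ e := by
    intro e he
    rw [mem_Icc] at he
    refine le_trans ?_ (b5_one (Nat.card k) n e (Pd k e).card (by omega) he.1 (card_Pd e))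
    refine card_biUnion_le.trans ?_
    rw [← smul_eq_mul, ← sum_const]
    refine sum_le_sum fun P hP => ?_
    obtain ⟨p1, p2, p3⟩ := mem_Pd.1 hP
    have h := hA k h6 n u v t P huv hvt p1 p2 (by rw [p3]; exact he.2)
    rw [p3] at h
    exact h
  have h3 := h1.trans (sum_le_sum h2)
  have h4 : ((univ.filter fun s : degreeLT k (n + 1) => IsCoprime u s.1 ∧ IsCoprime s.1 t ∧
      ∃ P : k[X], Irreducible P ∧ P.natDegree ≤ n ∧ P ^ 2 ∣ fD u v s.1 t).card : ℝ) ≤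
      ∑ e ∈ Icc 1 n, (2 * (Nat.card k : ℝ) ^ (n + 1 - e) + 4 * (Nat.card k : ℝ) ^ e) := by
    exact_mod_cast h3
  refine h4.trans ?_
  rw [sum_add_distrib, ← mul_sum, ← mul_sum, b5_refl]
  have hg := b5_geom (Nat.card k : ℝ) n
  have hq : (5 : ℝ) ≤ (Nat.card k : ℝ) := by exact_mod_cast hq5
  have hS0 : 0 ≤ ∑ e ∈ Icc 1 n, (Nat.card k : ℝ) ^ e :=
    sum_nonneg fun e _ => by positivity
  have hB : (Nat.card k : ℝ) ^ (n + 1) =
      ((Nat.card k : ℝ) - 1) * ∑ e ∈ Icc 1 n, (Nat.card k : ℝ) ^ e + (Nat.card k : ℝ) := by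
    linarith
  rw [hB, div_mul_eq_mul_div, le_div_iff₀ (by linarith)]
  nlinarith [mul_nonneg hS0 (by linarith : (0 : ℝ) ≤ (Nat.card k : ℝ) - 4)]

end Pool.Agent.NH34.CT
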