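import Pool.Agent.NH34.CT.Stm

/-! Project CT, part B5a: the `s` with a square factor, one small prime (helper89). -/

set_option autoImplicit false

open Polynomial Finset

namespace Pool.Agent.NH34.CT

open Pool.Agent.TH180.RT Pool.Agent.NH4.SB

open Classical in
/-- the number of the polynomials in one class -/
theorem b5a_card {k : Type} [Field k] [Fintype k] [DecidableEq k] {D : ℕ} {Q : k[X]}
    (hQ : Q.Monic) (a : degreeLT k D) :
    (univ.filter fun s : degreeLT k D => Q ∣ s.1 - a.1).card ≤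
      Nat.card k ^ (D - Q.natDegree) + 1 := by
  have h1 : (univ.filter fun s : degreeLT k D => Q ∣ s.1 - a.1).card ≤
      (univ.filter fun s : degreeLT k D => Q ∣ s.1).card := by
    refine card_le_card_of_injOn (fun s => s - a) ?_ ?_
    · intro s hs
      rw [mem_coe, mem_filter] at hs ⊢
      exact ⟨mem_univ _, hs.2⟩
    · intro s _ s' _ h
      exact sub_left_injective h
  rcases le_total Q.natDegree D with h | h
  · exact h1.trans ((card_mult hQ rfl h).trans (Nat.le_succ _))
  · have h2 : (univ.filter fun s : degreeLT k D => Q ∣ s.1).card ≤ 1 := by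
      rw [card_le_one]
      intro x hx y hy
      rw [mem_filter] at hx hy
      exact Subtype.ext ((mult_zero h x hx.2).trans (mult_zero h y hy.2).symm)
    exact h1.trans (h2.trans (Nat.le_add_left _ _))

/-- two members -/
theorem b5a_alg {k : Type} [Field k] (h6 : (6 : k) ≠ 0) {u v t P s s' : k[X]}
    (huv : IsCoprime u v) (hvt : IsCoprime v t) (hP : Irreducible P) (hus : IsCoprime u s)
    (hst : IsCoprime s t) (h : P ^ 2 ∣ fD u v s t) (h' : P ^ 2 ∣ fD u v s' t) :
    P ^ 2 ∣ s' - s ∨ P ^ 2 ∣ s' - -s := by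
  have hp : Prime P := hP.prime
  have h2 : (2 : k) ≠ 0 := fun h => h6 (by
    have e : (6 : k) = 2 * 3 := by norm_num
    rw [e, h, zero_mul])
  have h3 : (3 : k) ≠ 0 := fun h => h6 (by
    have e : (6 : k) = 2 * 3 := by norm_num
    rw [e, h, mul_zero])
  have u4 : IsUnit (4 : k[X]) := by
    have e : (4 : k[X]) = C (2 * 2) := by
      rw [map_mul, map_ofNat]
      norm_num
    rw [e]
    exact isUnit_C.2 (IsUnit.mk0 _ (mul_ne_zero h2 h2))
  have u27 : IsUnit (27 : k[X]) := by
    have e : (27 : k[X]) = C (3 * 3 * 3) := by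
      rw [map_mul, map_mul, map_ofNat]
      norm_num
    rw [e]
    exact isUnit_C.2 (IsUnit.mk0 _ (mul_ne_zero (mul_ne_zero h3 h3) h3))
  have u2 : IsUnit (2 : k[X]) := by
    have e : (2 : k[X]) = C 2 := by rw [map_ofNat]
    rw [e]
    exact isUnit_C.2 (IsUnit.mk0 _ h2)
  have hPD : P ∣ fD u v s t := (dvd_pow_self P two_ne_zero).trans h
  have key : P ∣ 27 * s ^ 2 * v ^ 3 → P ∣ u ∨ P ∣ t := by
    intro h1
    unfold fD at hPD
    have h4 : P ∣ 4 * (u ^ 3 * t ^ 2) := by
      rw [← mul_assoc]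
      exact (dvd_add_left h1).1 hPD
    have h5 := (u4.dvd_mul_left).1 h4
    rcases hp.dvd_or_dvd h5 with h6' | h6'
    · exact Or.inl (hp.dvd_of_dvd_pow h6')
    · exact Or.inr (hp.dvd_of_dvd_pow h6')
  have hv : ¬ P ∣ v := by
    intro h1
    rcases key ((h1.trans (dvd_pow_self v three_ne_zero)).mul_left _) with h4 | h4
    · exact hP.not_isUnit (huv.isUnit_of_dvd' h4 h1)
    · exact hP.not_isUnit (hvt.isUnit_of_dvd' h1 h4)
  have hs : ¬ P ∣ s := by
    intro h1
    rcases key (((h1.trans (dvd_pow_self s two_ne_zero)).mul_left _).mul_right _) with h4 | h4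
    · exact hP.not_isUnit (hus.isUnit_of_dvd' h4 h1)
    · exact hP.not_isUnit (hst.isUnit_of_dvd' h1 h4)
  have h7 : P ^ 2 ∣ 27 * (v ^ 3 * ((s' - s) * (s' - -s))) := by
    have e : 27 * (v ^ 3 * ((s' - s) * (s' - -s))) = fD u v s' t - fD u v s t := by
      unfold fD
      ring
    rw [e]
    exact dvd_sub h' h
  have h8 := (u27.dvd_mul_left).1 h7
  have cv : IsCoprime (P ^ 2) (v ^ 3) := ((hP.coprime_iff_not_dvd).2 hv).pow
  have h9 : P ^ 2 ∣ (s' - s) * (s' - -s) := cv.dvd_of_dvd_mul_left h8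
  by_cases h10 : P ∣ s' - s
  · left
    have h11 : ¬ P ∣ s' - -s := by
      intro h12
      apply hs
      have h13 : P ∣ 2 * s := by
        have e : 2 * s = (s' - -s) - (s' - s) := by ring
        rw [e]
        exact dvd_sub h12 h10
      exact (u2.dvd_mul_left).1 h13
    exact (((hP.coprime_iff_not_dvd).2 h11).pow_left).dvd_of_dvd_mul_right h9
  · right
    exact (((hP.coprime_iff_not_dvd).2 h10).pow_left).dvd_of_dvd_mul_left h9

/-- part B5a -/
theorem b5a : B5a := by
  intro k _ _ _ h6 n u v t P huv hvt hPm hP hPn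
  classical
  rcases Finset.eq_empty_or_nonempty (univ.filter fun s : degreeLT k (n + 1) =>
    IsCoprime u s.1 ∧ IsCoprime s.1 t ∧ P ^ 2 ∣ fD u v s.1 t) with h0 | ⟨s0, hs0⟩
  · refine le_trans (le_of_eq ?_) (Nat.zero_le _)
    rw [Finset.card_eq_zero]
    rw [← h0]
  · rw [mem_filter] at hs0
    obtain ⟨-, hus0, hs0t, hD0⟩ := hs0
    have hd : (P ^ 2).natDegree = 2 * P.natDegree := by rw [natDegree_pow]
    have h1 := b5a_card (hPm.pow 2) s0
    have h2 := b5a_card (hPm.pow 2) (-s0)
    rw [hd] at h1 h2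
    have h3 : (univ.filter fun s : degreeLT k (n + 1) =>
        IsCoprime u s.1 ∧ IsCoprime s.1 t ∧ P ^ 2 ∣ fD u v s.1 t) ⊆
        (univ.filter fun s : degreeLT k (n + 1) => P ^ 2 ∣ s.1 - s0.1) ∪
        (univ.filter fun s : degreeLT k (n + 1) => P ^ 2 ∣ s.1 - (-s0 : degreeLT k (n + 1)).1) := by
      intro s hs
      rw [mem_filter] at hs
      rw [mem_union, mem_filter, mem_filter]
      rcases b5a_alg h6 huv hvt hP hus0 hs0t hD0 hs.2.2.2 with h4 | h4
      · exact Or.inl ⟨mem_univ _, h4⟩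
      · exact Or.inr ⟨mem_univ _, h4⟩
    have h5 := (card_le_card h3).trans (card_union_le _ _)
    refine le_trans (le_of_eq ?_) (h5.trans ?_)
    · congr 1
    · omega

end Pool.Agent.NH34.CT
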