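import Pool.Agent.NH34.CT.Stm

/-!
CT-B6: common factors of two polynomials of bounded degree.
-/

set_option autoImplicit false
set_option linter.all false

open Polynomial Finset

namespace Pool.Agent.NH34.CT

open Pool.Agent.TH180.RT Pool.Agent.NH4.SB

open Classical

theorem b6_prime {k : Type} [Field k] {a b : k[X]} (h0 : ¬ (a = 0 ∧ b = 0)) (h : ¬ IsCoprime a b) :
    ∃ P : k[X], P.Monic ∧ Irreducible P ∧ P ∣ a ∧ P ∣ b := by
  by_contra hno
  apply h
  refine isCoprime_of_irreducible_dvd h0 ?_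
  intro z hz hza hzb
  apply hno
  have hz0 : z ≠ 0 := hz.ne_zero
  have hu : IsUnit (C z.leadingCoeff⁻¹) := isUnit_C.2 (isUnit_iff_ne_zero.2
    (inv_ne_zero (leadingCoeff_ne_zero.2 hz0)))
  refine ⟨z * C z.leadingCoeff⁻¹, monic_mul_leadingCoeff_inv hz0,
    irreducible_mul_leadingCoeff_inv.2 hz, ?_, ?_⟩
  · exact hu.mul_right_dvd.2 hza
  · exact hu.mul_right_dvd.2 hzb

section

variable {k : Type} [Field k] [Fintype k] [DecidableEq k]

theorem b6_card_Pd (e : ℕ) (he : 1 ≤ e) : ((Pd k e).card : ℝ) ≤ (Nat.card k : ℝ) ^ e := by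
  have h := card_Pd (k := k) e
  have h2 : (Pd k e).card ≤ Nat.card k ^ e := (Nat.le_mul_of_pos_right _ he).trans h
  exact_mod_cast h2

theorem b6_sum (n N : ℕ) (h : n ≤ N) :
    ∑ e ∈ Icc 1 n, ((Pd k e).card : ℝ) *
      ((Nat.card k : ℝ) ^ (N - e) * (Nat.card k : ℝ) ^ (N - e)) ≤
      2 / (Nat.card k : ℝ) * (Nat.card k : ℝ) ^ (2 * N) := by
  have hq := q_two (k := k)
  have hcp := b6_card_Pd (k := k)
  obtain ⟨q, hqe⟩ : ∃ q : ℝ, q = (Nat.card k : ℝ) := ⟨_, rfl⟩
  rw [← hqe] at hq hcp ⊢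
  have hq0 : 0 < q := by linarith
  have h1 : ∀ e ∈ Icc 1 n, ((Pd k e).card : ℝ) * (q ^ (N - e) * q ^ (N - e)) ≤
      (2 / q * q ^ (2 * N)) * (1 / 2) ^ e := by
    intro e he
    rw [mem_Icc] at he
    have h2 := hcp e he.1
    have h3 : 1 ≤ 2 / q * (q ^ e * (1 / 2) ^ e) := by
      obtain ⟨e', rfl⟩ : ∃ e', e = e' + 1 := ⟨e - 1, by omega⟩
      have h4 : 2 / q * (q ^ (e' + 1) * (1 / 2) ^ (e' + 1)) = (q / 2) ^ e' := by
        rw [← mul_pow, pow_succ]
        have : q * (1 / 2) = q / 2 := by ring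
        rw [this]
        field_simp
      rw [h4]
      exact one_le_pow₀ (by linarith)
    have h5 : q ^ (2 * N) = q ^ e * (q ^ (N - e) * q ^ (N - e)) * q ^ e := by
      rw [← pow_add, ← pow_add, ← pow_add]
      congr 1
      omega
    calc ((Pd k e).card : ℝ) * (q ^ (N - e) * q ^ (N - e)) ≤ q ^ e * (q ^ (N - e) * q ^ (N - e)) :=
          mul_le_mul_of_nonneg_right h2 (by positivity)
      _ ≤ q ^ e * (q ^ (N - e) * q ^ (N - e)) * (2 / q * (q ^ e * (1 / 2) ^ e)) :=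
          le_mul_of_one_le_right (by positivity) h3
      _ = (2 / q * q ^ (2 * N)) * (1 / 2) ^ e := by rw [h5]; ring
  refine (sum_le_sum h1).trans ?_
  rw [← mul_sum]
  have h6 := half_sum n
  have h7 : 0 ≤ 2 / q * q ^ (2 * N) := by positivity
  exact mul_le_of_le_one_right h7 h6

end

/-- common factors, degree `≤ n` -/
theorem b6 : B6 := by
  intro k _ _ _ n
  have key : ∀ ω : degreeLT k (n + 1) × degreeLT k (n + 1), ¬ (ω.1.1 = 0 ∧ ω.2.1 = 0) →
      ¬ IsCoprime ω.1.1 ω.2.1 →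
      ∃ P : k[X], P.Monic ∧ Irreducible P ∧ P.natDegree ≤ n ∧ P ∣ ω.1.1 ∧ P ∣ ω.2.1 := by
    intro ω h0 hω
    obtain ⟨P, p1, p2, p3, p4⟩ := b6_prime h0 hω
    refine ⟨P, p1, p2, ?_, p3, p4⟩
    rcases not_and_or.1 h0 with h | h
    · exact (natDegree_le_of_dvd p3 h).trans (natDegree_of_mem ω.1.2)
    · exact (natDegree_le_of_dvd p4 h).trans (natDegree_of_mem ω.2.2)
  rcases Nat.eq_zero_or_pos n with rfl | hn
  · have hsub : (univ.filter fun ω : degreeLT k (0 + 1) × degreeLT k (0 + 1) =>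
        ¬ IsCoprime ω.1.1 ω.2.1) ⊆ {0} := by
      intro ω hω
      rw [mem_filter] at hω
      rw [mem_singleton]
      by_contra hne
      have h0 : ¬ (ω.1.1 = 0 ∧ ω.2.1 = 0) := by
        rintro ⟨a, b⟩
        exact hne (Prod.ext (Subtype.ext a) (Subtype.ext b))
      obtain ⟨P, p1, p2, p3, -, -⟩ := key ω h0 hω.2
      have := p2.natDegree_pos
      omega
    have hc : (((univ.filter fun ω : degreeLT k (0 + 1) × degreeLT k (0 + 1) =>
        ¬ IsCoprime ω.1.1 ω.2.1).card : ℕ) : ℝ) ≤ 1 := by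
      have h := card_le_card hsub
      rw [card_singleton] at h
      exact_mod_cast h
    refine hc.trans ?_
    have hq := q_two (k := k)
    have hq0 : (Nat.card k : ℝ) ≠ 0 := by linarith
    have e : 2 / (Nat.card k : ℝ) * (Nat.card k : ℝ) ^ (2 * 0 + 2) = 2 * (Nat.card k : ℝ) := by
      norm_num
      field_simp
    rw [e]
    linarith
  · have hsub : (univ.filter fun ω : degreeLT k (n + 1) × degreeLT k (n + 1) =>
        ¬ IsCoprime ω.1.1 ω.2.1) ⊆
        (Icc 1 n).biUnion fun e => (Pd k e).biUnion fun P =>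
          (univ.filter fun A : degreeLT k (n + 1) => P ∣ A.1) ×ˢ
            (univ.filter fun B : degreeLT k (n + 1) => P ∣ B.1) := by
      intro ω hω
      rw [mem_filter] at hω
      obtain ⟨P, p1, p2, p3, p4, p5⟩ : ∃ P : k[X], P.Monic ∧ Irreducible P ∧ P.natDegree ≤ n ∧
          P ∣ ω.1.1 ∧ P ∣ ω.2.1 := by
        by_cases h0 : ω.1.1 = 0 ∧ ω.2.1 = 0
        · exact ⟨X, monic_X, irreducible_X, by rw [natDegree_X]; omega,
            by rw [h0.1]; exact dvd_zero _, by rw [h0.2]; exact dvd_zero _⟩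
        · exact key ω h0 hω.2
      rw [mem_biUnion]
      refine ⟨P.natDegree, mem_Icc.2 ⟨p2.natDegree_pos, p3⟩, ?_⟩
      rw [mem_biUnion]
      exact ⟨P, mem_Pd.2 ⟨p1, p2, rfl⟩, mem_product.2 ⟨mem_filter.2 ⟨mem_univ _, p4⟩,
        mem_filter.2 ⟨mem_univ _, p5⟩⟩⟩
    have hcard : (((univ.filter fun ω : degreeLT k (n + 1) × degreeLT k (n + 1) =>
        ¬ IsCoprime ω.1.1 ω.2.1).card : ℕ) : ℝ) ≤ ∑ e ∈ Icc 1 n, ((Pd k e).card : ℝ) *
          ((Nat.card k : ℝ) ^ (n + 1 - e) * (Nat.card k : ℝ) ^ (n + 1 - e)) := by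
      refine (Nat.cast_le.2 ((card_le_card hsub).trans card_biUnion_le)).trans ?_
      rw [Nat.cast_sum]
      refine sum_le_sum fun e he => ?_
      rw [mem_Icc] at he
      refine (Nat.cast_le.2 card_biUnion_le).trans ?_
      rw [Nat.cast_sum, ← nsmul_eq_mul, ← sum_const]
      refine sum_le_sum fun P hP => ?_
      obtain ⟨p1, p2, p3⟩ := mem_Pd.1 hP
      have h1 := card_mult (k := k) p1 p3 (D := n + 1) (by omega)
      have h2 : (((univ.filter fun A : degreeLT k (n + 1) => P ∣ A.1).card : ℕ) : ℝ) ≤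
          (Nat.card k : ℝ) ^ (n + 1 - e) := by exact_mod_cast h1
      rw [card_product, Nat.cast_mul]
      exact mul_le_mul h2 h2 (by positivity) (by positivity)
    exact hcard.trans (b6_sum n (n + 1) (by omega))

end Pool.Agent.NH34.CT
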