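import Pool.Agent.NH34.CT.Stm

/-! B7: the number of constants with a large square factor -/

set_option autoImplicit false
set_option linter.all false

open Polynomial Finset

namespace Pool.Agent.NH34.CT

open Pool.Agent.TH180.RT Pool.Agent.NH4.SB

open Classical

theorem b7_m3 {k : Type} [Field k] {m n : ℕ} [m.AtLeastTwo] {x y z : k[X]} (hx : x.natDegree ≤ n)
    (hy : y.natDegree ≤ n) (hz : z.natDegree ≤ n) :
    ((OfNat.ofNat m : k[X]) * x * y * z).natDegree ≤ 3 * n := by
  have h := natDegree_mul_le_of_le (natDegree_mul_le_of_le (natDegree_mul_le_of_le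
    (natDegree_ofNat (R := k) m).le hx) hy) hz
  omega

theorem b7_deg {k : Type} [Field k] {n : ℕ} {u v s t : k[X]} (hu : u.natDegree ≤ n)
    (hv : v.natDegree ≤ n) (ht : t.natDegree ≤ n) (hs : s.natDegree ≤ n) :
    (27 * v ^ 5 * derivative s ^ 2 +
      u * (3 * derivative v * u * t - 3 * derivative u * v * t - 2 * derivative t * u * v) ^ 2).natDegree
      ≤ 7 * n := by
  have du : (derivative u).natDegree ≤ n := (natDegree_derivative_le u).trans (by omega)
  have dv : (derivative v).natDegree ≤ n := (natDegree_derivative_le v).trans (by omega)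
  have dt : (derivative t).natDegree ≤ n := (natDegree_derivative_le t).trans (by omega)
  have ds : (derivative s).natDegree ≤ n := (natDegree_derivative_le s).trans (by omega)
  have ha : (3 * derivative v * u * t - 3 * derivative u * v * t -
      2 * derivative t * u * v).natDegree ≤ 3 * n :=
    (natDegree_sub_le _ _).trans (max_le ((natDegree_sub_le _ _).trans
      (max_le (b7_m3 dv hu ht) (b7_m3 du hv ht))) (b7_m3 dt hu hv))
  have h1 : (27 * v ^ 5 * derivative s ^ 2).natDegree ≤ 7 * n := by
    have h := natDegree_mul_le_of_le (natDegree_mul_le_of_le (natDegree_ofNat (R := k) 27).le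
      (natDegree_pow_le_of_le 5 hv)) (natDegree_pow_le_of_le 2 ds)
    exact h.trans (by omega)
  have h2 : (u * (3 * derivative v * u * t - 3 * derivative u * v * t -
      2 * derivative t * u * v) ^ 2).natDegree ≤ 7 * n := by
    have h := natDegree_mul_le_of_le hu (natDegree_pow_le_of_le 2 ha)
    omega
  exact (natDegree_add_le _ _).trans (max_le h1 h2)

theorem b7_nd {k : Type} [Field k] {n : ℕ} {P q : k[X]} (hP : n < P.natDegree) (hq : q.natDegree ≤ n)
    (hq0 : q ≠ 0) : ¬ P ∣ q := fun h => by
  have := natDegree_le_of_dvd h hq0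
  omega

theorem b7 : B7 := by
  intro h7a h7b k _ _ _ h6 n u v s t hu hu0 hv hv0 hvs huv ht ht0 hs hs0
  have hvn : v ≠ 0 := by
    rintro rfl
    simp at hv0
  have h2 : (2 : k) ≠ 0 := by
    intro h
    apply h6
    have : (6 : k) = 2 * 3 := by norm_num
    rw [this, h, zero_mul]
  have h2' : (2 : k[X]) ≠ 0 := by
    have e : (2 : k[X]) = C 2 := by rw [map_ofNat]
    rw [e, Ne, C_eq_zero]
    exact h2
  have hd2 : (2 : k[X]).natDegree ≤ n := by
    rw [natDegree_ofNat (R := k) 2]; omega
  have ds : (derivative s).natDegree ≤ n := (natDegree_derivative_le s).trans (by omega)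
  set a : k[X] := 3 * derivative v * u * t - 3 * derivative u * v * t - 2 * derivative t * u * v
    with ha
  set R : k[X] := 27 * v ^ 5 * derivative s ^ 2 + u * a ^ 2 with hR
  have hR0 : R ≠ 0 := h7b k h6 u v (derivative s) a huv hvs hv0 hs0
  have hRd : R.natDegree ≤ 7 * n := b7_deg hu hv ht hs
  set F : Finset k := univ.filter fun c : k => ∃ P : k[X], Irreducible P ∧ n < P.natDegree ∧
    P ^ 2 ∣ fD u v (s + C c) t with hF
  have key : ∀ c ∈ F, ∃ P : k[X], P.Monic ∧ Irreducible P ∧ n < P.natDegree ∧
      P ∣ a * (s + C c) + 2 * derivative s * u * v * t ∧ P ∣ R := by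
    intro c hc
    rw [hF, mem_filter] at hc
    obtain ⟨-, P, h1, h3, h4⟩ := hc
    obtain ⟨h5, h6'⟩ := h7a k h6 n u v (s + C c) t P hu hu0 hv hvn ht ht0 h1 h3 h4
    have e : derivative (s + C c) = derivative s := by simp
    rw [e] at h5 h6'
    have hass : Associated P (normalize P) := associated_normalize P
    refine ⟨normalize P, monic_normalize h1.ne_zero, hass.irreducible h1, ?_,
      hass.dvd_iff_dvd_left.1 h5, hass.dvd_iff_dvd_left.1 h6'⟩
    rw [← natDegree_eq_of_degree_eq (degree_eq_degree_of_associated hass)]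
    exact h3
  choose! P hP1 hP2 hP3 hP4 hP5 using key
  have hinj : Set.InjOn P F := by
    intro c hc c' hc' he
    by_contra hne
    have g1 := hP4 c hc
    have g2 := hP4 c' hc'
    rw [← he] at g2
    have g3 : P c ∣ a * C (c - c') := by
      have := dvd_sub g1 g2
      have e : a * (s + C c) + 2 * derivative s * u * v * t -
          (a * (s + C c') + 2 * derivative s * u * v * t) = a * C (c - c') := by
        rw [C_sub]; ring
      rwa [e] at this
    have hu' : IsUnit (C (c - c') : k[X]) := isUnit_C.2 (isUnit_iff_ne_zero.2 (sub_ne_zero.2 hne))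
    have g4 : P c ∣ a := hu'.dvd_mul_right.1 g3
    have g5 : P c ∣ 2 * derivative s * u * v * t := (dvd_add_right (g4.mul_right _)).1 g1
    have hp := (hP2 c hc).prime
    have hn := hP3 c hc
    rcases hp.dvd_or_dvd g5 with h | h
    · rcases hp.dvd_or_dvd h with h | h
      · rcases hp.dvd_or_dvd h with h | h
        · rcases hp.dvd_or_dvd h with h | h
          · exact b7_nd hn hd2 h2' h
          · exact b7_nd hn ds hs0 h
        · exact b7_nd hn hu hu0 h
      · exact b7_nd hn hv hvn h
    · exact b7_nd hn ht ht0 h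
  have hsum := deg_sum_le (T := F.image P) (fun Q hQ => by
    rw [mem_image] at hQ
    obtain ⟨c, hc, rfl⟩ := hQ
    exact ⟨hP1 c hc, hP2 c hc⟩) (fun _ => 1) hR0 (fun Q hQ => by
    rw [mem_image] at hQ
    obtain ⟨c, hc, rfl⟩ := hQ
    rw [pow_one]
    exact hP5 c hc)
  have hlow : (n + 1) * (F.image P).card ≤ ∑ Q ∈ F.image P, Q.natDegree * 1 := by
    rw [mul_comm, ← smul_eq_mul, ← sum_const]
    refine sum_le_sum fun Q hQ => ?_
    rw [mem_image] at hQ
    obtain ⟨c, hc, rfl⟩ := hQ
    have := hP3 c hc
    omega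
  rw [card_image_of_injOn hinj] at hlow
  have h8 : (n + 1) * F.card ≤ 7 * n := hlow.trans (hsum.trans hRd)
  by_contra hcon
  push Not at hcon
  have : (n + 1) * 8 ≤ (n + 1) * F.card := Nat.mul_le_mul_left _ hcon
  omega

end Pool.Agent.NH34.CT
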