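import Pool.Agent.NH34.CT.Stm

/-! CT-B7a, CT-B7b: large square factors, algebra. -/

set_option autoImplicit false

open Polynomial Finset

namespace Pool.Agent.NH34.CT

open Pool.Agent.TH180.RT Pool.Agent.NH4.SB

lemma b7ab_const {k : Type} [Field k] (h6 : (6 : k) ≠ 0) :
    IsUnit (4 : k[X]) ∧ IsUnit (27 : k[X]) := by
  have h2 : (2 : k) ≠ 0 := fun h => h6 (by linear_combination 3 * h)
  have h3 : (3 : k) ≠ 0 := fun h => h6 (by linear_combination 2 * h)
  have h4 : (4 : k) ≠ 0 := by
    have : (4 : k) = 2 * 2 := by norm_num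
    rw [this]
    exact mul_ne_zero h2 h2
  have h27 : (27 : k) ≠ 0 := by
    have : (27 : k) = 3 * 3 * 3 := by norm_num
    rw [this]
    exact mul_ne_zero (mul_ne_zero h3 h3) h3
  constructor
  · have : (4 : k[X]) = C 4 := (map_ofNat C 4).symm
    rw [this, isUnit_C]
    exact h4.isUnit
  · have : (27 : k[X]) = C 27 := (map_ofNat C 27).symm
    rw [this, isUnit_C]
    exact h27.isUnit

lemma b7ab_not_dvd {k : Type} [Field k] {n : ℕ} {P u : k[X]} (hP : n < P.natDegree)
    (hu : u.natDegree ≤ n) (h0 : u ≠ 0) : ¬ P ∣ u := fun h => by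
  have := natDegree_le_of_dvd h h0
  omega

lemma b7ab_der {k : Type} [Field k] {P D : k[X]} (h : P ^ 2 ∣ D) : P ∣ derivative D := by
  obtain ⟨Q, rfl⟩ := h
  rw [derivative_mul, derivative_sq]
  refine dvd_add ?_ ?_
  · exact ⟨C 2 * derivative P * Q, by ring⟩
  · exact ⟨P * derivative Q, by ring⟩

theorem b7a : B7a := by
  intro k _ h6 n u v s t P hu hu0 hv hv0 ht ht0 hP hn hdvd
  obtain ⟨h4, h27⟩ := b7ab_const h6
  have hPr : Prime P := hP.prime
  have hPu := b7ab_not_dvd hn hu hu0
  have hPv := b7ab_not_dvd hn hv hv0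
  have hPt := b7ab_not_dvd hn ht ht0
  have hP4 : ¬ P ∣ 4 := fun h => hP.not_isUnit (isUnit_of_dvd_unit h h4)
  have hP27 : ¬ P ∣ 27 := fun h => hP.not_isUnit (isUnit_of_dvd_unit h h27)
  have hD : P ∣ fD u v s t := (dvd_pow_self P two_ne_zero).trans hdvd
  have hD' : P ∣ derivative (fD u v s t) := b7ab_der hdvd
  have hPs : ¬ P ∣ s := by
    intro h
    have h1 : P ∣ 4 * u ^ 3 * t ^ 2 := by
      have h2 : P ∣ 27 * s ^ 2 * v ^ 3 := by
        refine Dvd.dvd.mul_right (Dvd.dvd.mul_left (h.trans (dvd_pow_self s two_ne_zero)) _) _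
      have h3 : 4 * u ^ 3 * t ^ 2 = fD u v s t - 27 * s ^ 2 * v ^ 3 := by
        unfold fD
        ring
      rw [h3]
      exact dvd_sub hD h2
    rcases hPr.dvd_or_dvd h1 with h2 | h2
    · rcases hPr.dvd_or_dvd h2 with h3 | h3
      · exact hP4 h3
      · exact hPu (hPr.dvd_of_dvd_pow h3)
    · exact hPt (hPr.dvd_of_dvd_pow h2)
  have hW : P ∣ (3 * derivative v * u * t - 3 * derivative u * v * t - 2 * derivative t * u * v) * s +
      2 * derivative s * u * v * t := by
    have hder : derivative (fD u v s t) =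
        4 * (3 * u ^ 2 * derivative u * t ^ 2 + u ^ 3 * (2 * t * derivative t)) +
        27 * (2 * s * derivative s * v ^ 3 + s ^ 2 * (3 * v ^ 2 * derivative v)) := by
      have e4 : (4 : k[X]) = C 4 := (map_ofNat C 4).symm
      have e27 : (27 : k[X]) = C 27 := (map_ofNat C 27).symm
      have e2 : (C 2 : k[X]) = 2 := map_ofNat C 2
      have e3 : (C ((3 : ℕ) : k) : k[X]) = 3 := by
        rw [Nat.cast_ofNat]
        exact map_ofNat C 3
      unfold fD
      rw [derivative_add, derivative_mul, derivative_mul, derivative_mul, derivative_mul, e4, e27,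
        derivative_C, derivative_C, derivative_sq, derivative_sq, derivative_pow, derivative_pow, e2, e3,
        ← e4, ← e27]
      ring
    have h1 : derivative (fD u v s t) * (s * v * u * t) = (27 * s ^ 2 * v ^ 3) *
        ((3 * derivative v * u * t - 3 * derivative u * v * t - 2 * derivative t * u * v) * s +
          2 * derivative s * u * v * t) +
        fD u v s t * ((3 * derivative u * t + 2 * u * derivative t) * s * v) := by
      rw [hder]
      unfold fD
      ring
    have h2 : P ∣ (27 * s ^ 2 * v ^ 3) *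
        ((3 * derivative v * u * t - 3 * derivative u * v * t - 2 * derivative t * u * v) * s +
          2 * derivative s * u * v * t) := by
      rw [eq_sub_of_add_eq h1.symm]
      exact dvd_sub (hD'.mul_right _) (hD.mul_right _)
    rcases hPr.dvd_or_dvd h2 with h3 | h3
    · exfalso
      rcases hPr.dvd_or_dvd h3 with h4 | h4
      · rcases hPr.dvd_or_dvd h4 with h5 | h5
        · exact hP27 h5
        · exact hPs (hPr.dvd_of_dvd_pow h5)
      · exact hPv (hPr.dvd_of_dvd_pow h4)
    · exact h3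
  refine ⟨hW, ?_⟩
  generalize ha : 3 * derivative v * u * t - 3 * derivative u * v * t - 2 * derivative t * u * v = a at *
  have h1 : (4 * u ^ 2 * t ^ 2) * (27 * v ^ 5 * derivative s ^ 2 + u * a ^ 2) =
      fD u v s t * a ^ 2 - (a * s + 2 * derivative s * u * v * t) *
        (27 * v ^ 3 * (a * s - 2 * derivative s * u * v * t)) := by
    unfold fD
    ring
  have h2 : P ∣ (4 * u ^ 2 * t ^ 2) * (27 * v ^ 5 * derivative s ^ 2 + u * a ^ 2) := by
    rw [h1]
    exact dvd_sub (hD.mul_right _) (hW.mul_right _)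
  rcases hPr.dvd_or_dvd h2 with h3 | h3
  · exfalso
    rcases hPr.dvd_or_dvd h3 with h4 | h4
    · rcases hPr.dvd_or_dvd h4 with h5 | h5
      · exact hP4 h5
      · exact hPu (hPr.dvd_of_dvd_pow h5)
    · exact hPt (hPr.dvd_of_dvd_pow h4)
  · exact h3

theorem b7b : B7b := by
  intro k _ h6 u v d e huv hv hv0 hd0 h0
  obtain ⟨-, h27⟩ := b7ab_const h6
  have hvne : v ≠ 0 := fun h => by simp [h] at hv0
  have hvu : ¬ IsUnit v := fun h => by
    have := natDegree_eq_zero_of_isUnit h
    omega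
  obtain ⟨P, hP, hPv⟩ := WfDvdMonoid.exists_irreducible_factor hvu hvne
  have hPr : Prime P := hP.prime
  have hPu : ¬ P ∣ u := fun h => hP.not_isUnit (huv.isUnit_of_dvd' h hPv)
  have hune : u ≠ 0 := fun h => hPu (h ▸ dvd_zero P)
  have hP27 : ¬ P ∣ 27 := fun h => hP.not_isUnit (isUnit_of_dvd_unit h h27)
  have hene : e ≠ 0 := by
    rintro rfl
    have : 27 * v ^ 5 * d ^ 2 = 0 := by linear_combination h0
    have h1 : (27 : k[X]) * v ^ 5 * d ^ 2 ≠ 0 :=
      mul_ne_zero (mul_ne_zero h27.ne_zero (pow_ne_zero _ hvne)) (pow_ne_zero _ hd0)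
    exact h1 this
  have hmul : ∀ a b : k[X], a ≠ 0 → b ≠ 0 →
      multiplicity P (a * b) = multiplicity P a + multiplicity P b := fun a b ha hb =>
    multiplicity_mul hPr (FiniteMultiplicity.of_not_isUnit hP.not_isUnit (mul_ne_zero ha hb))
  have hpow : ∀ (a : k[X]) (j : ℕ), a ≠ 0 → multiplicity P (a ^ j) = j * multiplicity P a := by
    intro a j ha
    induction j with
    | zero =>
      rw [pow_zero, Nat.zero_mul]
      exact multiplicity_eq_zero.2 fun h => hP.not_isUnit (isUnit_of_dvd_one h)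
    | succ j ih =>
      rw [pow_succ, hmul _ _ (pow_ne_zero _ ha) ha, ih]
      ring
  have hv1 : multiplicity P v = 1 := by
    obtain ⟨w, rfl⟩ := hPv
    have hw : w ≠ 0 := fun h => hvne (by rw [h, mul_zero])
    have hPw : ¬ P ∣ w := fun h => hP.not_isUnit (hv P (mul_dvd_mul_left P h))
    rw [hmul P w hP.ne_zero hw, multiplicity_eq_zero.2 hPw, add_zero]
    exact multiplicity_self
  have h1 : 27 * v ^ 5 * d ^ 2 = (-u) * e ^ 2 := by linear_combination h0
  have h2 := congrArg (multiplicity P) h1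
  rw [hmul _ _ (mul_ne_zero h27.ne_zero (pow_ne_zero _ hvne)) (pow_ne_zero _ hd0),
    hmul _ _ h27.ne_zero (pow_ne_zero _ hvne), hpow _ _ hvne, hpow _ _ hd0,
    hmul _ _ (neg_ne_zero.2 hune) (pow_ne_zero _ hene), hpow _ _ hene, hv1,
    multiplicity_eq_zero.2 hP27, multiplicity_eq_zero.2 (fun h => hPu ((dvd_neg).1 h))] at h2
  omega

end Pool.Agent.NH34.CT
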