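import Pool.Agent.NH34.CT.Stm

/-!
Project CT, part B8: the number of `s` with a large square factor (helper54).
-/

set_option autoImplicit false
set_option linter.all false
set_option maxHeartbeats 1000000

open Polynomial Finset

namespace Pool.Agent.NH34.CT

open Pool.Agent.TH180.RT Pool.Agent.NH4.SB

variable {k : Type} [Field k] [Fintype k] [DecidableEq k]

theorem b8_mem {i n : ℕ} (hi : i ≤ n) (c : k) : (C c * X ^ i : k[X]) ∈ degreeLT k (n + 1) := by
  apply mem_of_natDegree
  exact (natDegree_C_mul_X_pow_le c i).trans hi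

open Classical in
theorem b8_card {i n : ℕ} (hi : i ≤ n) :
    (univ.filter fun s : degreeLT k (n + 1) => s.1.coeff i = 0).card ≤ Nat.card k ^ n := by
  have hq : 0 < Nat.card k := Nat.card_pos
  refine Nat.le_of_mul_le_mul_right ?_ hq
  have h1 : (univ : Finset (degreeLT k (n + 1))).card = Nat.card k ^ n * Nat.card k := by
    rw [card_univ, card_LT, Nat.card_eq_fintype_card, pow_succ]
  have h2 : (univ : Finset k).card = Nat.card k := by
    rw [card_univ, Nat.card_eq_fintype_card]
  rw [← h1]
  calc (univ.filter fun s : degreeLT k (n + 1) => s.1.coeff i = 0).card * Nat.card k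
      = ((univ.filter fun s : degreeLT k (n + 1) => s.1.coeff i = 0) ×ˢ
          (univ : Finset k)).card := by rw [card_product, h2]
    _ ≤ _ := ?_
  refine card_le_card_of_injOn
    (fun p => p.1 + (⟨C p.2 * X ^ i, b8_mem hi p.2⟩ : degreeLT k (n + 1)))
    (fun _ _ => mem_coe.2 (mem_univ _)) ?_
  rintro ⟨s, c⟩ hs ⟨s', c'⟩ hs' h
  rw [mem_coe, mem_product, mem_filter] at hs hs'
  have h3 : s.1 + C c * X ^ i = s'.1 + C c' * X ^ i := congrArg Subtype.val h
  have h4 : c = c' := by
    have h5 := congrArg (fun p : k[X] => p.coeff i) h3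
    simp only [coeff_add, coeff_C_mul_X_pow, if_true] at h5
    rw [hs.1.2, hs'.1.2, zero_add, zero_add] at h5
    exact h5
  subst h4
  have h6 : s.1 = s'.1 := add_right_cancel h3
  exact Prod.ext (Subtype.ext h6) rfl

theorem b8 : B8 := by
  classical
  intro h7a h7b h7 k _ _ _ h6 n u v t hu hu0 hv hv0 hvs huv ht ht0
  have hq0 : (0 : ℝ) < Nat.card k := q_pos
  have hn : 1 ≤ n := by omega
  set T := univ.filter fun s : degreeLT k (n + 1) => ∃ P : k[X], Irreducible P ∧
    n < P.natDegree ∧ P ^ 2 ∣ fD u v s.1 t with hT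
  -- derivative zero
  have hA : (T.filter fun s => derivative s.1 = 0).card ≤ Nat.card k ^ n := by
    refine le_trans (card_le_card ?_) (b8_card (k := k) (i := 1) (n := n) hn)
    intro s hs
    rw [mem_filter] at hs
    rw [mem_filter]
    refine ⟨mem_univ _, ?_⟩
    have h := congrArg (fun p : k[X] => p.coeff 0) hs.2
    simpa [coeff_derivative] using h
  -- derivative not zero
  have hB : (T.filter fun s => ¬ derivative s.1 = 0).card ≤ 7 * Nat.card k ^ n := by
    have hmem : ∀ s : degreeLT k (n + 1), s.1 - C (s.1.coeff 0) ∈ degreeLT k (n + 1) := by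
      intro s
      have h := b8_mem (k := k) (i := 0) (n := n) (Nat.zero_le n) (s.1.coeff 0)
      rw [pow_zero, mul_one] at h
      exact Submodule.sub_mem _ s.2 h
    have h1 := card_le_mul_card_image
      (f := fun s : degreeLT k (n + 1) => (⟨s.1 - C (s.1.coeff 0), hmem s⟩ : degreeLT k (n + 1)))
      (T.filter fun s => ¬ derivative s.1 = 0) 7 (by
        intro s0 hs0
        rw [mem_image] at hs0
        obtain ⟨s1, hs1, hs10⟩ := hs0
        rw [mem_filter] at hs1
        have hval : s0.1 = s1.1 - C (s1.1.coeff 0) := by rw [← hs10]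
        have hder : derivative s0.1 ≠ 0 := by
          rw [hval, derivative_sub, derivative_C, sub_zero]
          exact hs1.2
        refine le_trans ?_ (h7 h7a h7b k h6 n u v s0.1 t hu hu0 hv hv0 hvs huv ht ht0
          (natDegree_of_mem s0.2) hder)
        refine card_le_card_of_injOn (fun s => s.1.coeff 0) ?_ ?_
        · intro s hs
          rw [mem_coe, mem_filter, mem_filter, hT, mem_filter] at hs
          obtain ⟨⟨⟨-, P, hP1, hP2, hP3⟩, -⟩, hs2⟩ := hs
          rw [mem_coe, mem_filter]
          refine ⟨mem_univ _, P, hP1, hP2, ?_⟩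
          have hval2 : s0.1 = s.1 - C (s.1.coeff 0) := by rw [← hs2]
          rw [hval2, sub_add_cancel]
          exact hP3
        · intro s hs s' hs' h
          rw [mem_coe, mem_filter] at hs hs'
          have e1 : s0.1 = s.1 - C (s.1.coeff 0) := by rw [← hs.2]
          have e2 : s0.1 = s'.1 - C (s'.1.coeff 0) := by rw [← hs'.2]
          have h' : s.1.coeff 0 = s'.1.coeff 0 := h
          rw [e1, h'] at e2
          exact Subtype.ext (sub_left_injective e2))
    refine h1.trans (Nat.mul_le_mul_left _ ?_)
    refine le_trans (card_le_card ?_) (b8_card (k := k) (i := 0) (n := n) (Nat.zero_le n))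
    intro s0 hs0
    rw [mem_image] at hs0
    obtain ⟨s1, hs1, hs10⟩ := hs0
    rw [mem_filter]
    refine ⟨mem_univ _, ?_⟩
    rw [← hs10]
    simp
  have hC := card_filter_add_card_filter_not (s := T) (fun s => derivative s.1 = 0)
  have hD : T.card ≤ 8 * Nat.card k ^ n := by omega
  have hE : (T.card : ℝ) ≤ 8 * (Nat.card k : ℝ) ^ n := by exact_mod_cast hD
  refine hE.trans (le_of_eq ?_)
  rw [pow_succ]
  field_simp

end Pool.Agent.NH34.CT
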