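import Pool.Agent.NH34.CT.Stm

/-!
# CT-B9: the number of good quadruples
-/

set_option autoImplicit false

open Polynomial Finset

namespace Pool.Agent.NH34.CT

open Pool.Agent.TH180.RT Pool.Agent.NH4.SB

theorem b9_cnt {Ω α β : Type} [Fintype Ω] [Fintype α] [Fintype β] (e : Ω → α × β)
    (he : Function.Injective e) (P : Ω → Prop) (p : α → β → Prop) [DecidablePred P]
    [∀ a, DecidablePred (p a)] (hP : ∀ ω, P ω → p (e ω).1 (e ω).2) (c C : ℝ)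
    (h : ∀ a, ((univ.filter fun b => p a b).card : ℝ) ≤ c) (hC : (Fintype.card α : ℝ) * c ≤ C) :
    ((univ.filter P).card : ℝ) ≤ C := by
  have h1 : (univ.filter P).card ≤ (univ.filter fun x : α × β => p x.1 x.2).card := by
    refine Finset.card_le_card_of_injOn e ?_ he.injOn
    intro ω hω
    rw [Finset.mem_coe, mem_filter] at hω ⊢
    exact ⟨mem_univ _, hP ω hω.2⟩
  have h2 : (univ.filter fun x : α × β => p x.1 x.2).card =
      ∑ a, (univ.filter fun b => p a b).card := by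
    rw [Finset.card_filter, Fintype.sum_prod_type]
    refine Finset.sum_congr rfl fun a _ => ?_
    rw [Finset.card_filter]
  have h3 : ((∑ a, (univ.filter fun b => p a b).card : ℕ) : ℝ) ≤ Fintype.card α * c := by
    push_cast
    refine (Finset.sum_le_sum fun a _ => h a).trans ?_
    rw [Finset.sum_const, nsmul_eq_mul, Finset.card_univ]
  rw [h2] at h1
  have h4 : ((univ.filter P).card : ℝ) ≤ ((∑ a, (univ.filter fun b => p a b).card : ℕ) : ℝ) := by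
    exact_mod_cast h1
  linarith

/-- the number of the elements with the property `P` -/
noncomputable def b9c {Ω : Type} [Fintype Ω] (P : Ω → Prop) : ℝ :=
  ((@Finset.filter Ω P (fun a => Classical.propDecidable (P a)) univ).card : ℝ)

theorem b9c_eq {Ω : Type} [Fintype Ω] (P : Ω → Prop) [DecidablePred P] :
    b9c P = ((univ.filter P).card : ℝ) := by
  unfold b9c
  congr 2
  ext x
  simp only [mem_filter]

theorem b9_or {Ω : Type} [Fintype Ω] {P₁ P₂ : Ω → Prop} {c₁ c₂ : ℝ}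
    (h1 : b9c P₁ ≤ c₁) (h2 : b9c P₂ ≤ c₂) : b9c (fun ω => P₁ ω ∨ P₂ ω) ≤ c₁ + c₂ := by
  classical
  rw [b9c_eq] at h1 h2 ⊢
  rw [Finset.filter_or]
  have h3 : ((univ.filter P₁ ∪ univ.filter P₂).card : ℝ) ≤
      (univ.filter P₁).card + (univ.filter P₂).card := by
    exact_mod_cast Finset.card_union_le _ _
  linarith

theorem b9_mono {Ω : Type} [Fintype Ω] {P₁ P₂ : Ω → Prop} (h : ∀ ω, P₁ ω → P₂ ω) :
    b9c P₁ ≤ b9c P₂ := by
  classical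
  rw [b9c_eq, b9c_eq]
  refine Nat.cast_le.2 (Finset.card_le_card ?_)
  intro ω hω
  rw [mem_filter] at hω ⊢
  exact ⟨mem_univ _, h ω hω.2⟩

theorem b9_compl {Ω : Type} [Fintype Ω] (P : Ω → Prop) :
    b9c P + b9c (fun ω => ¬ P ω) = (Fintype.card Ω : ℝ) := by
  classical
  rw [b9c_eq, b9c_eq, ← Finset.card_univ]
  exact_mod_cast Finset.card_filter_add_card_filter_not (s := (univ : Finset Ω)) P

section gen

variable {A M : Type} [Fintype A] [Fintype M]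

theorem b9_am (P : (A × M) × (A × M) → Prop) (R : A → M → Prop)
    (hP : ∀ ω, P ω → R ω.1.1 ω.1.2) (c C : ℝ) (h : b9c (fun b : A × M => R b.1 b.2) ≤ c)
    (hC : (Fintype.card A : ℝ) * Fintype.card M * c ≤ C) : b9c P ≤ C := by
  classical
  rw [b9c_eq] at h ⊢
  refine b9_cnt (fun ω : (A × M) × (A × M) => (ω.2, ω.1)) (fun a b h => ?_) P
    (fun _ b => R b.1 b.2) hP c C (fun _ => h) ?_
  · simp only [Prod.mk.injEq] at h
    exact Prod.ext h.2 h.1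
  · rwa [Fintype.card_prod, Nat.cast_mul]

theorem b9_am2 (P : (A × M) × (A × M) → Prop) (R : A → M → Prop)
    (hP : ∀ ω, P ω → R ω.2.1 ω.2.2) (c C : ℝ) (h : b9c (fun b : A × M => R b.1 b.2) ≤ c)
    (hC : (Fintype.card A : ℝ) * Fintype.card M * c ≤ C) : b9c P ≤ C := by
  classical
  rw [b9c_eq] at h ⊢
  refine b9_cnt (fun ω : (A × M) × (A × M) => (ω.1, ω.2)) (fun a b h => ?_) P
    (fun _ b => R b.1 b.2) hP c C (fun _ => h) ?_
  · simp only [Prod.mk.injEq] at h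
    exact Prod.ext h.1 h.2
  · rwa [Fintype.card_prod, Nat.cast_mul]

theorem b9_mm (P : (A × M) × (A × M) → Prop) (R : M → M → Prop)
    (hP : ∀ ω, P ω → R ω.1.2 ω.2.2) (c C : ℝ) (h : b9c (fun b : M × M => R b.1 b.2) ≤ c)
    (hC : (Fintype.card A : ℝ) * Fintype.card A * c ≤ C) : b9c P ≤ C := by
  classical
  rw [b9c_eq] at h ⊢
  refine b9_cnt (fun ω : (A × M) × (A × M) => ((ω.1.1, ω.2.1), (ω.1.2, ω.2.2)))
    (fun a b h => ?_) P (fun _ b => R b.1 b.2) hP c C (fun _ => h) ?_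
  · simp only [Prod.mk.injEq] at h
    exact Prod.ext (Prod.ext h.1.1 h.2.1) (Prod.ext h.1.2 h.2.2)
  · rwa [Fintype.card_prod, Nat.cast_mul]

theorem b9_aa (P : (A × M) × (A × M) → Prop) (R : A → A → Prop)
    (hP : ∀ ω, P ω → R ω.1.1 ω.2.1) (c C : ℝ) (h : b9c (fun b : A × A => R b.1 b.2) ≤ c)
    (hC : (Fintype.card M : ℝ) * Fintype.card M * c ≤ C) : b9c P ≤ C := by
  classical
  rw [b9c_eq] at h ⊢
  refine b9_cnt (fun ω : (A × M) × (A × M) => ((ω.1.2, ω.2.2), (ω.1.1, ω.2.1)))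
    (fun a b h => ?_) P (fun _ b => R b.1 b.2) hP c C (fun _ => h) ?_
  · simp only [Prod.mk.injEq] at h
    exact Prod.ext (Prod.ext h.2.1 h.1.1) (Prod.ext h.2.2 h.1.2)
  · rwa [Fintype.card_prod, Nat.cast_mul]

theorem b9_m1 (P : (A × M) × (A × M) → Prop) (R : M → Prop)
    (hP : ∀ ω, P ω → R ω.1.2) (c C : ℝ) (h : b9c R ≤ c)
    (hC : (Fintype.card A : ℝ) * (Fintype.card A * Fintype.card M) * c ≤ C) : b9c P ≤ C := by
  classical
  rw [b9c_eq] at h ⊢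
  refine b9_cnt (fun ω : (A × M) × (A × M) => ((ω.1.1, ω.2), ω.1.2))
    (fun a b h => ?_) P (fun _ b => R b) hP c C (fun _ => h) ?_
  · simp only [Prod.mk.injEq] at h
    exact Prod.ext (Prod.ext h.1.1 h.2) h.1.2
  · rwa [Fintype.card_prod, Fintype.card_prod, Nat.cast_mul, Nat.cast_mul]

theorem b9_m2 (P : (A × M) × (A × M) → Prop) (R : M → Prop)
    (hP : ∀ ω, P ω → R ω.2.2) (c C : ℝ) (h : b9c R ≤ c)
    (hC : (Fintype.card A : ℝ) * (Fintype.card A * Fintype.card M) * c ≤ C) : b9c P ≤ C := by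
  classical
  rw [b9c_eq] at h ⊢
  refine b9_cnt (fun ω : (A × M) × (A × M) => ((ω.2.1, ω.1), ω.2.2))
    (fun a b h => ?_) P (fun _ b => R b) hP c C (fun _ => h) ?_
  · simp only [Prod.mk.injEq] at h
    exact Prod.ext h.1.2 (Prod.ext h.1.1 h.2)
  · rwa [Fintype.card_prod, Fintype.card_prod, Nat.cast_mul, Nat.cast_mul]

theorem b9_s (P : (A × M) × (A × M) → Prop) (R : A → M → M → A → Prop)
    (hP : ∀ ω, P ω → R ω.1.1 ω.1.2 ω.2.2 ω.2.1) (c C : ℝ)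
    (h : ∀ u v t, b9c (fun s : A => R u v t s) ≤ c)
    (hC : (Fintype.card A : ℝ) * Fintype.card M * Fintype.card M * c ≤ C) : b9c P ≤ C := by
  classical
  rw [b9c_eq]
  refine b9_cnt (fun ω : (A × M) × (A × M) => ((ω.1, ω.2.2), ω.2.1))
    (fun a b h => ?_) P (fun a s => R a.1.1 a.1.2 a.2 s) hP c C (fun a => ?_) ?_
  · simp only [Prod.mk.injEq] at h
    exact Prod.ext h.1.1 (Prod.ext h.2 h.1.2)
  · have := h a.1.1 a.1.2 a.2
    rwa [b9c_eq] at this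
  · rwa [Fintype.card_prod, Fintype.card_prod, Nat.cast_mul, Nat.cast_mul]

end gen

theorem b9_mo {k : Type} [Field k] {n : ℕ} (v : degreeLT k n) :
    (mo v).Monic ∧ (mo v).natDegree = n :=
  by
  have h := mem_degreeLT.1 v.2
  refine ⟨monic_X_pow_add h, ?_⟩
  unfold mo
  rw [natDegree_add_eq_left_of_degree_lt (by rwa [degree_X_pow]), natDegree_X_pow]

theorem b9_deg {k : Type} [Field k] {n : ℕ} (u : degreeLT k (n + 1)) : u.1.natDegree ≤ n := by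
  rcases eq_or_ne u.1 0 with h | h
  · rw [h, natDegree_zero]
    exact Nat.zero_le _
  · have h1 := (natDegree_lt_iff_degree_lt h).2 (mem_degreeLT.1 u.2)
    omega

section preds

variable {k : Type} [Field k] (n : ℕ)

def b9P1 (ω : Bx k n) : Prop := ¬ IsCoprime ω.1.1.1 (mo ω.1.2)
def b9P2 (ω : Bx k n) : Prop := ¬ IsCoprime ω.2.1.1 (mo ω.2.2)
def b9P3 (ω : Bx k n) : Prop := ¬ IsCoprime (mo ω.1.2) (mo ω.2.2)
def b9P4 (ω : Bx k n) : Prop := ¬ Squarefree (mo ω.1.2)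
def b9P5 (ω : Bx k n) : Prop := ¬ Squarefree (mo ω.2.2)
def b9P6 (ω : Bx k n) : Prop := 4 * ω.1.1.1.coeff n ^ 3 + 27 * ω.2.1.1.coeff n ^ 2 = 0
def b9P7 (ω : Bx k n) : Prop := ¬ IsCoprime ω.1.1.1 ω.2.1.1
def b9P8 (ω : Bx k n) : Prop := IsCoprime ω.1.1.1 (mo ω.1.2) ∧ IsCoprime (mo ω.1.2) (mo ω.2.2) ∧
    (IsCoprime ω.1.1.1 ω.2.1.1 ∧ IsCoprime ω.2.1.1 (mo ω.2.2) ∧
      ∃ P : k[X], Irreducible P ∧ P.natDegree ≤ n ∧ P ^ 2 ∣ fD ω.1.1.1 (mo ω.1.2) ω.2.1.1 (mo ω.2.2))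
def b9P9 (ω : Bx k n) : Prop := IsCoprime ω.1.1.1 (mo ω.1.2) ∧ Squarefree (mo ω.1.2) ∧
    ∃ P : k[X], Irreducible P ∧ n < P.natDegree ∧ P ^ 2 ∣ fD ω.1.1.1 (mo ω.1.2) ω.2.1.1 (mo ω.2.2)

end preds

section counts

variable {k : Type} [Field k] [Fintype k] [DecidableEq k]

theorem b9_cA (n : ℕ) : (Fintype.card (degreeLT k n) : ℝ) = (Nat.card k : ℝ) ^ n := by
  rw [card_LT, Nat.cast_pow, Nat.card_eq_fintype_card]

theorem b9_c1 (h1 : B1) {n : ℕ} (hn : 0 < n) : b9c (b9P1 (k := k) n) ≤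
    2 / (Nat.card k : ℝ) * (Nat.card k : ℝ) ^ (4 * n + 2) := by
  classical
  refine b9_am (b9P1 n) (fun u v => ¬ IsCoprime u.1 (mo v)) (fun ω h => h)
    (2 / (Nat.card k : ℝ) * (Nat.card k : ℝ) ^ (2 * n + 1)) _ ?_ ?_
  · rw [b9c_eq]
    convert h1 k n hn
  · rw [b9_cA, b9_cA]
    exact le_of_eq (by ring)

theorem b9_c2 (h1 : B1) {n : ℕ} (hn : 0 < n) : b9c (b9P2 (k := k) n) ≤
    2 / (Nat.card k : ℝ) * (Nat.card k : ℝ) ^ (4 * n + 2) := by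
  classical
  refine b9_am2 (b9P2 n) (fun u v => ¬ IsCoprime u.1 (mo v)) (fun ω h => h)
    (2 / (Nat.card k : ℝ) * (Nat.card k : ℝ) ^ (2 * n + 1)) _ ?_ ?_
  · rw [b9c_eq]
    convert h1 k n hn
  · rw [b9_cA, b9_cA]
    exact le_of_eq (by ring)

theorem b9_c3 (h2 : B2) {n : ℕ} (hn : 0 < n) : b9c (b9P3 (k := k) n) ≤
    2 / (Nat.card k : ℝ) * (Nat.card k : ℝ) ^ (4 * n + 2) := by
  classical
  refine b9_mm (b9P3 n) (fun v t => ¬ IsCoprime (mo v) (mo t)) (fun ω h => h)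
    (2 / (Nat.card k : ℝ) * (Nat.card k : ℝ) ^ (2 * n)) _ ?_ ?_
  · rw [b9c_eq]
    convert h2 k n hn
  · rw [b9_cA]
    exact le_of_eq (by ring)

theorem b9_c4 (h3 : B3) {n : ℕ} (hn : 0 < n) : b9c (b9P4 (k := k) n) ≤
    2 / (Nat.card k : ℝ) * (Nat.card k : ℝ) ^ (4 * n + 2) := by
  classical
  refine b9_m1 (b9P4 n) (fun v => ¬ Squarefree (mo v)) (fun ω h => h)
    (2 / (Nat.card k : ℝ) * (Nat.card k : ℝ) ^ n) _ ?_ ?_
  · rw [b9c_eq]
    convert h3 k n hn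
  · rw [b9_cA, b9_cA]
    exact le_of_eq (by ring)

theorem b9_c5 (h3 : B3) {n : ℕ} (hn : 0 < n) : b9c (b9P5 (k := k) n) ≤
    2 / (Nat.card k : ℝ) * (Nat.card k : ℝ) ^ (4 * n + 2) := by
  classical
  refine b9_m2 (b9P5 n) (fun v => ¬ Squarefree (mo v)) (fun ω h => h)
    (2 / (Nat.card k : ℝ) * (Nat.card k : ℝ) ^ n) _ ?_ ?_
  · rw [b9c_eq]
    convert h3 k n hn
  · rw [b9_cA, b9_cA]
    exact le_of_eq (by ring)

theorem b9_c6 (h4 : B4) (h60 : (6 : k) ≠ 0) {n : ℕ} : b9c (b9P6 (k := k) n) ≤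
    2 / (Nat.card k : ℝ) * (Nat.card k : ℝ) ^ (4 * n + 2) := by
  classical
  refine b9_aa (b9P6 n) (fun u s => 4 * u.1.coeff n ^ 3 + 27 * s.1.coeff n ^ 2 = 0) (fun ω h => h)
    (2 / (Nat.card k : ℝ) * (Nat.card k : ℝ) ^ (2 * n + 2)) _ ?_ ?_
  · rw [b9c_eq]
    convert h4 k h60 n
  · rw [b9_cA]
    exact le_of_eq (by ring)

theorem b9_c7 (h6 : B6) {n : ℕ} : b9c (b9P7 (k := k) n) ≤
    2 / (Nat.card k : ℝ) * (Nat.card k : ℝ) ^ (4 * n + 2) := by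
  classical
  refine b9_aa (b9P7 n) (fun u s => ¬ IsCoprime u.1 s.1) (fun ω h => h)
    (2 / (Nat.card k : ℝ) * (Nat.card k : ℝ) ^ (2 * n + 2)) _ ?_ ?_
  · rw [b9c_eq]
    convert h6 k n
  · rw [b9_cA]
    exact le_of_eq (by ring)

theorem b9_zero {Ω : Type} [Fintype Ω] {P : Ω → Prop} (h : ∀ ω, ¬ P ω) {c : ℝ} (hc : 0 ≤ c) :
    b9c P ≤ c := by
  classical
  rw [b9c_eq, Finset.filter_false_of_mem (fun ω _ => h ω), Finset.card_empty, Nat.cast_zero]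
  exact hc

theorem b9_c8 (h5a : B5a) (h5 : B5) (h60 : (6 : k) ≠ 0) {n : ℕ} : b9c (b9P8 (k := k) n) ≤
    8 / (Nat.card k : ℝ) * (Nat.card k : ℝ) ^ (4 * n + 2) := by
  classical
  refine b9_s (b9P8 n) (fun u v t s => IsCoprime u.1 (mo v) ∧ IsCoprime (mo v) (mo t) ∧
      (IsCoprime u.1 s.1 ∧ IsCoprime s.1 (mo t) ∧
        ∃ P : k[X], Irreducible P ∧ P.natDegree ≤ n ∧ P ^ 2 ∣ fD u.1 (mo v) s.1 (mo t)))
    (fun ω h => h) (8 / (Nat.card k : ℝ) * (Nat.card k : ℝ) ^ (n + 1)) _ (fun u v t => ?_) ?_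
  · by_cases hab : IsCoprime u.1 (mo v) ∧ IsCoprime (mo v) (mo t)
    · have h := h5 h5a k h60 n u.1 (mo v) (mo t) hab.1 hab.2
      refine (b9_mono (P₂ := fun s : degreeLT k (n + 1) => IsCoprime u.1 s.1 ∧
        IsCoprime s.1 (mo t) ∧ ∃ P : k[X], Irreducible P ∧ P.natDegree ≤ n ∧
          P ^ 2 ∣ fD u.1 (mo v) s.1 (mo t)) fun s hs => hs.2.2).trans ?_
      rw [b9c_eq]
      convert h
    · exact b9_zero (fun s hs => hab ⟨hs.1, hs.2.1⟩) (by positivity)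
  · rw [b9_cA, b9_cA]
    exact le_of_eq (by ring)

theorem b9_c9 (h7a : B7a) (h7b : B7b) (h7 : B7) (h8 : B8) (h60 : (6 : k) ≠ 0) {n : ℕ}
    (hn : 0 < n) : b9c (b9P9 (k := k) n) ≤
    8 / (Nat.card k : ℝ) * (Nat.card k : ℝ) ^ (4 * n + 2) := by
  classical
  refine b9_s (b9P9 n) (fun u v t s => IsCoprime u.1 (mo v) ∧ Squarefree (mo v) ∧
        ∃ P : k[X], Irreducible P ∧ n < P.natDegree ∧ P ^ 2 ∣ fD u.1 (mo v) s.1 (mo t))
    (fun ω h => h) (8 / (Nat.card k : ℝ) * (Nat.card k : ℝ) ^ (n + 1)) _ (fun u v t => ?_) ?_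
  · by_cases hab : IsCoprime u.1 (mo v) ∧ Squarefree (mo v)
    · have hv := b9_mo v
      have ht := b9_mo t
      have hu0 : u.1 ≠ 0 := by
        intro h0
        rw [h0, isCoprime_zero_left] at hab
        have := natDegree_eq_zero_of_isUnit hab.1
        omega
      have h := h8 h7a h7b h7 k h60 n u.1 (mo v) (mo t) (b9_deg _) hu0
        hv.2.le (by rw [hv.2]; exact hn) hab.2 hab.1 ht.2.le ht.1.ne_zero
      refine (b9_mono (P₂ := fun s : degreeLT k (n + 1) => ∃ P : k[X], Irreducible P ∧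
        n < P.natDegree ∧ P ^ 2 ∣ fD u.1 (mo v) s.1 (mo t)) fun s hs => hs.2.2).trans ?_
      rw [b9c_eq]
      convert h
    · exact b9_zero (fun s hs => hab ⟨hs.1, hs.2.1⟩) (by positivity)
  · rw [b9_cA, b9_cA]
    exact le_of_eq (by ring)

end counts

theorem b9_gd (h4' : B4') {k : Type} [Field k] {n : ℕ} (hn : 0 < n) (ω : Bx k n)
    (hω : ¬ Gd n ω.1.1.1 (mo ω.1.2) ω.2.1.1 (mo ω.2.2)) :
    b9P1 n ω ∨ b9P2 n ω ∨ b9P3 n ω ∨ b9P4 n ω ∨ b9P5 n ω ∨ b9P6 n ω ∨ b9P7 n ω ∨ b9P8 n ω ∨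
      b9P9 n ω := by
  by_contra hcon
  simp only [not_or] at hcon
  obtain ⟨g1, g2, g3, g4, g5, g6, g7, g8, g9⟩ := hcon
  have g1 : IsCoprime ω.1.1.1 (mo ω.1.2) := not_not.1 g1
  have g2 : IsCoprime ω.2.1.1 (mo ω.2.2) := not_not.1 g2
  have g3 : IsCoprime (mo ω.1.2) (mo ω.2.2) := not_not.1 g3
  have g4 : Squarefree (mo ω.1.2) := not_not.1 g4
  have g5 : Squarefree (mo ω.2.2) := not_not.1 g5
  have g7 : IsCoprime ω.1.1.1 ω.2.1.1 := not_not.1 g7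
  have hdeg := h4' k n ω.1.1 ω.2.1 ω.1.2 ω.2.2 g6
  apply hω
  refine ⟨g1, g2, g3, g4, g5, ?_, hdeg⟩
  have hD0 : fD ω.1.1.1 (mo ω.1.2) ω.2.1.1 (mo ω.2.2) ≠ 0 := by
    intro h0
    rw [h0, natDegree_zero] at hdeg
    omega
  by_contra hsq
  rw [squarefree_iff_irreducible_sq_not_dvd_of_ne_zero hD0] at hsq
  push Not at hsq
  obtain ⟨P, hP, hPd⟩ := hsq
  rw [← pow_two] at hPd
  rcases le_or_gt P.natDegree n with hle | hlt
  · exact g8 ⟨g1, g3, g7, g2, P, hP, hle, hPd⟩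
  · exact g9 ⟨g1, g4, P, hP, hlt, hPd⟩

theorem b9 : B9 := by
  intro h1 h2 h3 h4 h4' h5a h5 h6 h7a h7b h7 h8 k _ _ _ h60 n hn
  classical
  have hbad := b9_or (b9_c1 (k := k) h1 hn) (b9_or (b9_c2 (k := k) h1 hn) (b9_or
    (b9_c3 (k := k) h2 hn) (b9_or (b9_c4 (k := k) h3 hn) (b9_or (b9_c5 (k := k) h3 hn) (b9_or
    (b9_c6 (k := k) h4 h60) (b9_or (b9_c7 (k := k) h6) (b9_or (b9_c8 (k := k) h5a h5 h60)
    (b9_c9 (k := k) h7a h7b h7 h8 h60 hn))))))))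
  have hcB : (Fintype.card (Bx k n) : ℝ) = (Nat.card k : ℝ) ^ (4 * n + 2) := by
    rw [Fintype.card_prod, Fintype.card_prod, Nat.cast_mul, Nat.cast_mul, b9_cA, b9_cA]
    ring
  have hcomp := (b9_mono (fun (ω : Bx k n)
    (h : ¬ Gd n ω.1.1.1 (mo ω.1.2) ω.2.1.1 (mo ω.2.2)) => b9_gd h4' hn ω h)).trans hbad
  have htot := b9_compl (fun ω : Bx k n => Gd n ω.1.1.1 (mo ω.1.2) ω.2.1.1 (mo ω.2.2))
  have hfin : ∀ Q T : ℝ, (2 / Q * T + (2 / Q * T + (2 / Q * T + (2 / Q * T + (2 / Q * T + (2 / Q * T +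
      (2 / Q * T + (8 / Q * T + 8 / Q * T)))))))) = 30 / Q * T := fun Q T => by ring
  rw [hfin] at hcomp
  rw [hcB] at htot
  have hgoal : (1 - 30 / (Nat.card k : ℝ)) * (Nat.card k : ℝ) ^ (4 * n + 2) ≤
      b9c (fun ω : Bx k n => Gd n ω.1.1.1 (mo ω.1.2) ω.2.1.1 (mo ω.2.2)) := by
    linarith
  rw [b9c_eq] at hgoal
  convert hgoal

end Pool.Agent.NH34.CT
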