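import Pool.Agent.NH34.CT.Stm

/-!
# CT-F1 (helper17): the twist flips the parity of the order
-/

set_option autoImplicit false

open Polynomial Finset

namespace Pool.Agent.NH34.CT

open Pool.Agent.TH180.RT Pool.Agent.NH4.SB

theorem f1_char {k : Type} [Field k] (h6 : (6 : k) ≠ 0) : ringChar k ≠ 2 := by
  intro h
  apply h6
  have h2 : ((2 : ℕ) : k) = 0 := (ringChar.spec k 2).2 (by rw [h])
  have h3 : (6 : k) = ((2 : ℕ) : k) * 3 := by
    push_cast
    norm_num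
  rw [h3, h2, zero_mul]

theorem f1_real {k : Type} [Field k] [Fintype k] (d : ℕ) (A B : k[X]) {N : ℕ} (β : Fin N → ℂ)
    (h : Spec d A B β) (m : ℕ) (hm : 0 < m) : (∑ i, β i ^ m).im = 0 := by
  have h1 := h.2.2 m hm
  have h2 : ((Nat.card k : ℂ) ^ m) = (((Nat.card k : ℝ) ^ m : ℝ) : ℂ) := by push_cast; rfl
  rw [h2] at h1
  have h3 := congrArg Complex.im h1
  rw [Complex.neg_im, Complex.im_ofReal_mul, Complex.intCast_im] at h3
  have h4 : ((Nat.card k : ℝ) ^ m) ≠ 0 := by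
    apply pow_ne_zero
    rw [Nat.card_eq_fintype_card]
    exact_mod_cast Fintype.card_ne_zero
  have h5 : (Nat.card k : ℝ) ^ m * (∑ i, β i ^ m).im = 0 := by linarith
  exact (mul_eq_zero.1 h5).resolve_left h4

open Classical in
theorem f1 : F1 := by
  unfold F1
  intro hW1 hW2 hW3 hW4 hW5 hW6 hW7 hW8 hW9 k _ _ _ h6 n ε hε
  obtain ⟨c, hc⟩ := FiniteField.exists_nonsquare (F := k) (f1_char h6)
  have hc0 : c ≠ 0 := by
    rintro rfl
    exact hc ⟨0, by simp⟩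
  have hC0 : (RatFunc.C c : RatFunc k) ≠ 0 := by
    rw [Ne, map_eq_zero]
    exact hc0
  refine Finset.card_le_card_of_injOn
    (fun x => (RatFunc.C c ^ 2 * x.1, RatFunc.C c ^ 3 * x.2)) ?_ ?_
  · intro x hx
    rw [mem_coe, mem_filter] at hx ⊢
    obtain ⟨hxS, d, A, B, hM, hodd, N, β, hsp, hε'⟩ := hx
    refine ⟨?_, d, C c ^ 2 * A, C c ^ 3 * B, hW7 k h6 c hc0 x.1 x.2 d A B hM, ?_, N,
      fun i => -β i, ⟨?_, ?_, ?_⟩, ?_⟩
    · unfold Sn at hxS ⊢
      rw [mem_filter, mem_product, mem_Ht, mem_Ht] at hxS ⊢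
      have e2 : (RatFunc.C c ^ 2 : RatFunc k) = RatFunc.C (c ^ 2) := (map_pow _ _ _).symm
      have e3 : (RatFunc.C c ^ 3 : RatFunc k) = RatFunc.C (c ^ 3) := (map_pow _ _ _).symm
      refine ⟨⟨?_, ?_⟩, ?_⟩
      · show hgt (RatFunc.C c ^ 2 * x.1) ≤ n
        rw [e2, hW9 k (c ^ 2) (pow_ne_zero _ hc0)]
        exact hxS.1.1
      · show hgt (RatFunc.C c ^ 3 * x.2) ≤ n
        rw [e3, hW9 k (c ^ 3) (pow_ne_zero _ hc0)]
        exact hxS.1.2
      · have e : 4 * (RatFunc.C c ^ 2 * x.1) ^ 3 + 27 * (RatFunc.C c ^ 3 * x.2) ^ 2 =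
            RatFunc.C c ^ 6 * (4 * x.1 ^ 3 + 27 * x.2 ^ 2) := by ring
        show 4 * (RatFunc.C c ^ 2 * x.1) ^ 3 + 27 * (RatFunc.C c ^ 3 * x.2) ^ 2 ≠ 0
        rw [e]
        exact mul_ne_zero (pow_ne_zero _ hC0) hxS.2
    · rw [hW6 k h6 c hc0]
      exact hodd
    · rw [hW6 k h6 c hc0]
      exact hsp.1
    · intro i
      rw [norm_neg]
      exact hsp.2.1 i
    · intro m hm
      rw [hW5 hW1 hW2 hW3 hW4 k h6 c hc0 hc d A B m hm]
      have h1 := hsp.2.2 m hm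
      have h2 : ∑ i, (-β i) ^ m = (-1) ^ m * ∑ i, β i ^ m := by
        rw [Finset.mul_sum]
        refine Finset.sum_congr rfl fun i _ => ?_
        rw [neg_pow]
      rw [h2]
      push_cast
      rw [h1]
      ring
    · have h1 := hW8 N β hsp.2.1 (f1_real d A B β hsp)
      have h2 : (univ.filter fun i => -β i = 1) = univ.filter fun i => β i = -1 := by
        refine Finset.filter_congr fun i _ => ?_
        exact neg_eq_iff_eq_neg
      have h3 := hsp.1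
      rw [h2]
      rw [Nat.odd_iff] at hodd
      omega
  · intro x _ y _ hxy
    simp only [Prod.mk.injEq] at hxy
    exact Prod.ext (mul_left_cancel₀ (pow_ne_zero 2 hC0) hxy.1)
      (mul_left_cancel₀ (pow_ne_zero 3 hC0) hxy.2)

end Pool.Agent.NH34.CT
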