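import Pool.Agent.NH34.CT.Stm

/-!
# Project CT (helper34), part G1: the equation is minimal (helper30)
-/

set_option autoImplicit false
set_option linter.all false

open Polynomial Finset

namespace Pool.Agent.NH34.CT

open Pool.Agent.TH180.RT Pool.Agent.NH4.SB

section

variable {k : Type} [Field k]

theorem g1_not_dvd {a b P : k[X]} (h : IsCoprime a b) (hP : Irreducible P) (ha : P ∣ a) :
    ¬ P ∣ b := fun hb => hP.not_isUnit (h.isUnit_of_dvd' ha hb)

theorem g1_sq {v P : k[X]} (hv : Squarefree v) (hP : Irreducible P) (h : P ∣ v) (m : ℕ) :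
    ¬ P ^ (m + 1) ∣ v ^ m := by
  intro hd
  obtain ⟨w, rfl⟩ := h
  rw [mul_pow, pow_succ, mul_dvd_mul_iff_left (pow_ne_zero m hP.ne_zero)] at hd
  have hw : P ∣ w := hP.prime.dvd_of_dvd_pow hd
  exact hP.not_isUnit (hv P (mul_dvd_mul_left P hw))

/-- a power of `P` which divides `x * a * b`, with `x`, `b` prime to `P`, divides `a` -/
theorem g1_mid {x a b P : k[X]} (hP : Irreducible P) (m : ℕ) (hx : ¬ P ∣ x) (hb : ¬ P ∣ b)
    (h : P ^ m ∣ x * a * b) : P ^ m ∣ a := by
  have h1 : IsCoprime (P ^ m) x := ((hP.coprime_iff_not_dvd).2 hx).pow_left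
  have h2 : IsCoprime (P ^ m) b := ((hP.coprime_iff_not_dvd).2 hb).pow_left
  exact h1.dvd_of_dvd_mul_left (h2.dvd_of_dvd_mul_right h)

theorem g1_fst {x a b P : k[X]} (hP : Irreducible P) (m : ℕ) (ha : ¬ P ∣ a) (hb : ¬ P ∣ b)
    (h : P ^ m ∣ x * a * b) : P ^ m ∣ x := by
  have h1 : IsCoprime (P ^ m) a := ((hP.coprime_iff_not_dvd).2 ha).pow_left
  have h2 : IsCoprime (P ^ m) b := ((hP.coprime_iff_not_dvd).2 hb).pow_left
  exact h1.dvd_of_dvd_mul_right (h2.dvd_of_dvd_mul_right h)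

theorem g1_pow {a P : k[X]} (hP : Irreducible P) (m : ℕ) (ha : ¬ P ∣ a) : ¬ P ∣ a ^ m :=
  fun h => ha (hP.prime.dvd_of_dvd_pow h)

theorem g1_deg {n : ℕ} {u v s t : k[X]} (hn : 0 < n) (hu : u.natDegree + 1 ≤ n)
    (hv : v.natDegree ≤ n) (hs : s.natDegree + 1 ≤ n) (ht : t.natDegree ≤ n) :
    (fD u v s t).natDegree ≤ 5 * n - 1 := by
  unfold fD
  have e4 : (4 : k[X]) = C 4 := by rw [map_ofNat]
  have e27 : (27 : k[X]) = C 27 := by rw [map_ofNat]
  refine natDegree_add_le_of_degree_le ?_ ?_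
  · refine natDegree_mul_le.trans ?_
    refine (Nat.add_le_add_right natDegree_mul_le _).trans ?_
    rw [natDegree_pow, natDegree_pow, e4, natDegree_C]
    omega
  · refine natDegree_mul_le.trans ?_
    refine (Nat.add_le_add_right natDegree_mul_le _).trans ?_
    rw [natDegree_pow, natDegree_pow, e27, natDegree_C]
    omega

end

theorem g1 : G1 := by
  intro k _ h6 n u v s t hn hu hs hvm hv htm ht hG
  obtain ⟨huv, hst, hvt, hsv, hst2, hsD, hD⟩ := hG
  have hv0 : v ≠ 0 := hvm.ne_zero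
  have ht0 : t ≠ 0 := htm.ne_zero
  have hD0 : fD u v s t ≠ 0 := fun h => by
    rw [h, natDegree_zero] at hD
    omega
  have hva := alg_ne hv0
  have hta := alg_ne ht0
  refine ⟨⟨?_, ?_, ?_, ?_, ?_⟩, algebraMap k[X] (RatFunc k) v * algebraMap k[X] (RatFunc k) t,
    mul_ne_zero hva hta, ?_, ?_⟩
  · unfold fA
    refine natDegree_mul_le.trans ((Nat.add_le_add_right natDegree_mul_le _).trans ?_)
    rw [natDegree_pow, natDegree_pow]
    omega
  · unfold fB
    refine natDegree_mul_le.trans ((Nat.add_le_add_right natDegree_mul_le _).trans ?_)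
    rw [natDegree_pow, natDegree_pow]
    omega
  · rintro - ⟨ha, hb⟩
    have hu1 : u.natDegree + 1 ≤ n := by
      rcases eq_or_ne u 0 with h | h
      · rw [h, natDegree_zero]
        omega
      · unfold fA at ha
        rw [natDegree_mul (mul_ne_zero h (pow_ne_zero _ hv0)) (pow_ne_zero _ ht0),
          natDegree_mul h (pow_ne_zero _ hv0), natDegree_pow, natDegree_pow] at ha
        omega
    have hs1 : s.natDegree + 1 ≤ n := by
      rcases eq_or_ne s 0 with h | h
      · rw [h, natDegree_zero]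
        omega
      · unfold fB at hb
        rw [natDegree_mul (mul_ne_zero h (pow_ne_zero _ ht0)) (pow_ne_zero _ hv0),
          natDegree_mul h (pow_ne_zero _ ht0), natDegree_pow, natDegree_pow] at hb
        omega
    have := g1_deg hn hu1 hv.le hs1 ht.le
    omega
  · rw [disc_eq]
    exact mul_ne_zero (mul_ne_zero (pow_ne_zero _ hv0) (pow_ne_zero _ ht0)) hD0
  · rintro P hP ⟨hA, hB⟩
    unfold fA at hA
    unfold fB at hB
    by_cases hPv : P ∣ v
    · have hPu : ¬ P ∣ u := g1_not_dvd huv.symm hP hPv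
      have hPt : ¬ P ∣ t := g1_not_dvd hvt hP hPv
      exact g1_sq hsv hP hPv 3 (g1_mid hP 4 hPu (g1_pow hP 4 hPt) hA)
    · by_cases hPt : P ∣ t
      · have hPs : ¬ P ∣ s := g1_not_dvd hst.symm hP hPt
        exact g1_sq hst2 hP hPt 5 (g1_mid hP 6 hPs (g1_pow hP 6 hPv) hB)
      · have h1 : P ∣ u := (dvd_pow_self P (by norm_num)).trans
          (g1_fst hP 4 (g1_pow hP 3 hPv) (g1_pow hP 4 hPt) hA)
        have h2 : P ∣ s := (dvd_pow_self P (by norm_num)).trans
          (g1_fst hP 6 (g1_pow hP 5 hPt) (g1_pow hP 6 hPv) hB)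
        refine hP.not_isUnit (hsD P ?_)
        obtain ⟨a, rfl⟩ := h1
        obtain ⟨b, rfl⟩ := h2
        refine ⟨4 * P * a ^ 3 * t ^ 2 + 27 * b ^ 2 * v ^ 3, ?_⟩
        unfold fD
        ring
  · unfold fA
    rw [map_mul, map_mul, map_pow, map_pow]
    field_simp
  · unfold fB
    rw [map_mul, map_mul, map_pow, map_pow]
    field_simp

end Pool.Agent.NH34.CT
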