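import Pool.Agent.NH34.CT.Stm

set_option autoImplicit false
set_option linter.all false

open Polynomial Finset

namespace Pool.Agent.NH34.CT

open Pool.Agent.TH180.RT Pool.Agent.NH4.SB

open Classical

section g2sec

variable {k : Type} [Field k]

theorem g2_unit {m : ℕ} (hm : (m : k) ≠ 0) : IsUnit (C (m : k) : k[X]) :=
  isUnit_C.2 (isUnit_iff_ne_zero.2 hm)

theorem g2_two (h6 : (6 : k) ≠ 0) : (2 : k) ≠ 0 := by
  intro h
  apply h6
  have : (6 : k) = 2 * 3 := by norm_num
  rw [this, h, zero_mul]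

theorem g2_three (h6 : (6 : k) ≠ 0) : (3 : k) ≠ 0 := by
  intro h
  apply h6
  have : (6 : k) = 2 * 3 := by norm_num
  rw [this, h, mul_zero]

theorem g2_dvd4 (h6 : (6 : k) ≠ 0) {P X : k[X]} (h : P ∣ 4 * X) : P ∣ X := by
  have h4 : (4 : k) ≠ 0 := by
    have : (4 : k) = 2 * 2 := by norm_num
    rw [this]
    exact mul_ne_zero (g2_two h6) (g2_two h6)
  have e4 : (4 : k[X]) = C 4 := by rw [map_ofNat]
  rw [e4] at h
  exact (IsUnit.dvd_mul_left (isUnit_C.2 (isUnit_iff_ne_zero.2 h4))).1 h

theorem g2_dvd27 (h6 : (6 : k) ≠ 0) {P X : k[X]} (h : P ∣ 27 * X) : P ∣ X := by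
  have h27 : (27 : k) ≠ 0 := by
    have : (27 : k) = 3 * 3 * 3 := by norm_num
    rw [this]
    exact mul_ne_zero (mul_ne_zero (g2_three h6) (g2_three h6)) (g2_three h6)
  have e27 : (27 : k[X]) = C 27 := by rw [map_ofNat]
  rw [e27] at h
  exact (IsUnit.dvd_mul_left (isUnit_C.2 (isUnit_iff_ne_zero.2 h27))).1 h

/-- the primes that divide a squarefree polynomial -/
theorem g2_sum {D : k[X]} (hD : D ≠ 0) (hs : Squarefree D) {S : Finset k[X]}
    (hS : ∀ P, P.Monic → Irreducible P → P ∣ D → P ∈ S)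
    (hS' : ∀ P ∈ S, P.Monic ∧ Irreducible P) :
    ∑ P ∈ S, P.natDegree * (if P ∣ D then 1 else 0) = D.natDegree := by
  classical
  have e1 : (S.filter fun P => P ∣ D) = (UniqueFactorizationMonoid.normalizedFactors D).toFinset := by
    ext P
    rw [Finset.mem_filter, Multiset.mem_toFinset,
      UniqueFactorizationMonoid.mem_normalizedFactors_iff' hD]
    constructor
    · rintro ⟨h1, h2⟩
      exact ⟨(hS' P h1).2, (hS' P h1).1.normalize_eq_self, h2⟩
    · rintro ⟨h1, h2, h3⟩
      refine ⟨hS P ?_ h1 h3, h3⟩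
      rw [← h2]
      exact Polynomial.monic_normalize h1.ne_zero
  have e2 : ∑ P ∈ S, P.natDegree * (if P ∣ D then 1 else 0) =
      ∑ P ∈ S.filter (fun P => P ∣ D), P.natDegree := by
    rw [Finset.sum_filter]
    refine Finset.sum_congr rfl fun P _ => ?_
    split_ifs <;> simp
  rw [e2, e1]
  have hnd : (UniqueFactorizationMonoid.normalizedFactors D).Nodup :=
    (UniqueFactorizationMonoid.squarefree_iff_nodup_normalizedFactors hD).1 hs
  have h3 : ∑ P ∈ (UniqueFactorizationMonoid.normalizedFactors D).toFinset, P.natDegree =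
      ((UniqueFactorizationMonoid.normalizedFactors D).map natDegree).sum := by
    rw [Finset.sum, Multiset.toFinset_val, Multiset.dedup_eq_self.2 hnd]
  rw [h3]
  have h4 : (UniqueFactorizationMonoid.normalizedFactors D).prod.natDegree =
      ((UniqueFactorizationMonoid.normalizedFactors D).map natDegree).sum := by
    refine Polynomial.natDegree_multiset_prod _ ?_
    intro h0
    exact (UniqueFactorizationMonoid.irreducible_of_normalized_factor _ h0).ne_zero rfl
  rw [← h4]
  exact Polynomial.natDegree_eq_of_degree_eq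
    (Polynomial.degree_eq_degree_of_associated
      (UniqueFactorizationMonoid.prod_normalizedFactors hD))

theorem g2_copr {P a b : k[X]} (hP : Irreducible P) (h : IsCoprime a b) (ha : P ∣ a) (hb : P ∣ b) :
    False :=
  hP.not_isUnit (h.isUnit_of_dvd' ha hb)

theorem g2_coeff {n m l : ℕ} {u v t : k[X]} (hu : u.natDegree ≤ n) (hvm : v.Monic)
    (hvd : v.natDegree = n) (htm : t.Monic) (htd : t.natDegree = n) :
    (u * v ^ m * t ^ l).coeff (n + m * n + l * n) = u.coeff n := by
  have h1 : (v ^ m).natDegree ≤ m * n := by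
    rw [hvm.natDegree_pow, hvd]
  have h2 : (t ^ l).natDegree ≤ l * n := by
    rw [htm.natDegree_pow, htd]
  have h3 : (u * v ^ m).natDegree ≤ n + m * n :=
    natDegree_mul_le.trans (Nat.add_le_add hu h1)
  rw [coeff_mul_add_eq_of_natDegree_le h3 h2, coeff_mul_add_eq_of_natDegree_le hu h1]
  have h4 : (v ^ m).coeff (m * n) = 1 := by
    have := (hvm.pow m).coeff_natDegree
    rwa [hvm.natDegree_pow, hvd] at this
  have h5 : (t ^ l).coeff (l * n) = 1 := by
    have := (htm.pow l).coeff_natDegree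
    rwa [htm.natDegree_pow, htd] at this
  rw [h4, h5, mul_one, mul_one]

theorem g2_coeffD {n : ℕ} {u v s t : k[X]} (hu : u.natDegree ≤ n) (hs : s.natDegree ≤ n)
    (hvm : v.Monic) (hvd : v.natDegree = n) (htm : t.Monic) (htd : t.natDegree = n) :
    (fD u v s t).coeff (5 * n) = 4 * u.coeff n ^ 3 + 27 * s.coeff n ^ 2 := by
  unfold fD
  have e4 : (4 : k[X]) = C 4 := by rw [map_ofNat]
  have e27 : (27 : k[X]) = C 27 := by rw [map_ofNat]
  have h5 : (t ^ 2).coeff (2 * n) = 1 := by
    have := (htm.pow 2).coeff_natDegree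
    rwa [htm.natDegree_pow, htd] at this
  have h6 : (v ^ 3).coeff (3 * n) = 1 := by
    have := (hvm.pow 3).coeff_natDegree
    rwa [hvm.natDegree_pow, hvd] at this
  have h7 : (u ^ 3 * t ^ 2).coeff (5 * n) = u.coeff n ^ 3 := by
    have : 5 * n = 3 * n + 2 * n := by ring
    rw [this, coeff_mul_add_eq_of_natDegree_le (natDegree_pow_le_of_le 3 hu) (by
      rw [htm.natDegree_pow, htd]), h5, mul_one, coeff_pow_of_natDegree_le hu]
  have h8 : (s ^ 2 * v ^ 3).coeff (5 * n) = s.coeff n ^ 2 := by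
    have : 5 * n = 2 * n + 3 * n := by ring
    rw [this, coeff_mul_add_eq_of_natDegree_le (natDegree_pow_le_of_le 2 hs) (by
      rw [hvm.natDegree_pow, hvd]), h6, mul_one, coeff_pow_of_natDegree_le hs]
  rw [e4, e27, mul_assoc, mul_assoc, coeff_add, coeff_C_mul, coeff_C_mul, h7, h8]

end g2sec

theorem g2 : G2 := by
  unfold G2
  intro k _ h6 n u v s t hn hu hs hvm hvd htm htd hG
  obtain ⟨huv, hst, hvt, hvs, hts, hDs, hDd⟩ := hG
  have hD0 : fD u v s t ≠ 0 := by
    intro h
    rw [h, natDegree_zero] at hDd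
    omega
  have hv0 : v ≠ 0 := hvm.ne_zero
  have ht0 : t ≠ 0 := htm.ne_zero
  -- the exponent at infinity
  have hI : cI ((fA u v s t).coeff (4 * (2 * n))) ((fB u v s t).coeff (6 * (2 * n))) = 0 := by
    have hA : (fA u v s t).coeff (4 * (2 * n)) = u.coeff n := by
      have := g2_coeff (m := 3) (l := 4) hu hvm hvd htm htd
      unfold fA
      rw [← this]
      congr 1
      ring
    have hB : (fB u v s t).coeff (6 * (2 * n)) = s.coeff n := by
      have := g2_coeff (m := 5) (l := 6) hs htm htd hvm hvd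
      unfold fB
      rw [← this]
      congr 1
      ring
    rw [hA, hB]
    unfold cI
    rw [if_neg]
    rw [← g2_coeffD hu hs hvm hvd htm htd, ← hDd]
    exact mt Polynomial.leadingCoeff_eq_zero.1 hD0
  -- the primes of the discriminant
  have hDv : ∀ P : k[X], Irreducible P → P ∣ fD u v s t → ¬ P ∣ v := by
    intro P hP hPD hPv
    have h1 : P ∣ 4 * (u ^ 3 * t ^ 2) := by
      have h2 : P ∣ 27 * s ^ 2 * v ^ 3 :=
        Dvd.dvd.mul_left (dvd_pow hPv (by norm_num)) _
      have h3 := dvd_sub hPD h2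
      have h4 : fD u v s t - 27 * s ^ 2 * v ^ 3 = 4 * (u ^ 3 * t ^ 2) := by
        unfold fD; ring
      rwa [h4] at h3
    rcases hP.prime.dvd_or_dvd (g2_dvd4 h6 h1) with h | h
    · exact g2_copr hP huv (hP.prime.dvd_of_dvd_pow h) hPv
    · exact g2_copr hP hvt hPv (hP.prime.dvd_of_dvd_pow h)
  have hDt : ∀ P : k[X], Irreducible P → P ∣ fD u v s t → ¬ P ∣ t := by
    intro P hP hPD hPt
    have h1 : P ∣ 27 * (s ^ 2 * v ^ 3) := by
      have h2 : P ∣ 4 * u ^ 3 * t ^ 2 :=
        Dvd.dvd.mul_left (dvd_pow hPt (by norm_num)) _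
      have h3 := dvd_sub hPD h2
      have h4 : fD u v s t - 4 * u ^ 3 * t ^ 2 = 27 * (s ^ 2 * v ^ 3) := by
        unfold fD; ring
      rwa [h4] at h3
    rcases hP.prime.dvd_or_dvd (g2_dvd27 h6 h1) with h | h
    · exact g2_copr hP hst (hP.prime.dvd_of_dvd_pow h) hPt
    · exact g2_copr hP hvt (hP.prime.dvd_of_dvd_pow h) hPt
  have hDA : ∀ P : k[X], Irreducible P → P ∣ fD u v s t → ¬ P ∣ fA u v s t := by
    intro P hP hPD hPA
    unfold fA at hPA
    rcases hP.prime.dvd_or_dvd hPA with h | h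
    · rcases hP.prime.dvd_or_dvd h with h | h
      · -- `P ∣ u`
        have h1 : P ∣ 27 * (s ^ 2 * v ^ 3) := by
          have h2 : P ∣ 4 * u ^ 3 * t ^ 2 :=
            Dvd.dvd.mul_right (Dvd.dvd.mul_left (dvd_pow h (by norm_num)) _) _
          have h3 := dvd_sub hPD h2
          have h4 : fD u v s t - 4 * u ^ 3 * t ^ 2 = 27 * (s ^ 2 * v ^ 3) := by
            unfold fD; ring
          rwa [h4] at h3
        rcases hP.prime.dvd_or_dvd (g2_dvd27 h6 h1) with h5 | h5
        · have hs1 : P ∣ s := hP.prime.dvd_of_dvd_pow h5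
          have h7 : P * P ∣ fD u v s t := by
            obtain ⟨a, ha⟩ := h
            obtain ⟨b, hb⟩ := hs1
            refine ⟨4 * P * a ^ 3 * t ^ 2 + 27 * b ^ 2 * v ^ 3, ?_⟩
            unfold fD
            rw [ha, hb]
            ring
          exact hP.not_isUnit (hDs P h7)
        · exact hDv P hP hPD (hP.prime.dvd_of_dvd_pow h5)
      · exact hDv P hP hPD (hP.prime.dvd_of_dvd_pow h)
    · exact hDt P hP hPD (hP.prime.dvd_of_dvd_pow h)
  -- the finite set of primes
  have hE0 : v * t * fD u v s t ≠ 0 := mul_ne_zero (mul_ne_zero hv0 ht0) hD0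
  set S : Finset k[X] :=
    (UniqueFactorizationMonoid.normalizedFactors (v * t * fD u v s t)).toFinset with hSdef
  have hS : ∀ P : k[X], P ∈ S ↔ P.Monic ∧ Irreducible P ∧ P ∣ v * t * fD u v s t := by
    intro P
    rw [hSdef, Multiset.mem_toFinset, UniqueFactorizationMonoid.mem_normalizedFactors_iff' hE0]
    constructor
    · rintro ⟨h1, h2, h3⟩
      refine ⟨?_, h1, h3⟩
      rw [← h2]
      exact Polynomial.monic_normalize h1.ne_zero
    · rintro ⟨h1, h2, h3⟩
      exact ⟨h2, h1.normalize_eq_self, h3⟩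
  -- the exponents
  have hc : ∀ P : k[X], Irreducible P → cP (fA u v s t) (fB u v s t) P =
      2 * (if P ∣ v * t then 1 else 0) + (if P ∣ fD u v s t then 1 else 0) := by
    intro P hP
    unfold cP
    rw [disc_eq]
    by_cases h1 : P ∣ fD u v s t
    · have h2 : ¬ P ∣ v * t := by
        intro h
        rcases hP.prime.dvd_or_dvd h with h | h
        · exact hDv P hP h1 h
        · exact hDt P hP h1 h
      rw [if_pos (Dvd.dvd.mul_left h1 _), if_neg (hDA P hP h1), if_neg h2, if_pos h1]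
    · by_cases h2 : P ∣ v * t
      · have h3 : P ∣ v ^ 9 * t ^ 10 * fD u v s t := by
          rcases hP.prime.dvd_or_dvd h2 with h | h
          · exact Dvd.dvd.mul_right (Dvd.dvd.mul_right (dvd_pow h (by norm_num)) _) _
          · exact Dvd.dvd.mul_right (Dvd.dvd.mul_left (dvd_pow h (by norm_num)) _) _
        have h4 : P ∣ fA u v s t := by
          unfold fA
          rcases hP.prime.dvd_or_dvd h2 with h | h
          · exact Dvd.dvd.mul_right (Dvd.dvd.mul_left (dvd_pow h (by norm_num)) _) _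
          · exact Dvd.dvd.mul_left (dvd_pow h (by norm_num)) _
        rw [if_pos h3, if_pos h4, if_pos h2, if_neg h1]
      · have h3 : ¬ P ∣ v ^ 9 * t ^ 10 * fD u v s t := by
          intro h
          rcases hP.prime.dvd_or_dvd h with h | h
          · rcases hP.prime.dvd_or_dvd h with h | h
            · exact h2 (Dvd.dvd.mul_right (hP.prime.dvd_of_dvd_pow h) _)
            · exact h2 (Dvd.dvd.mul_left (hP.prime.dvd_of_dvd_pow h) _)
          · exact h1 h
        rw [if_neg h3, if_neg h2, if_neg h1]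
  -- the sum
  have hsum : (∑ᶠ P : k[X], if P.Monic ∧ Irreducible P then
      P.natDegree * cP (fA u v s t) (fB u v s t) P else 0) =
      ∑ P ∈ S, if P.Monic ∧ Irreducible P then
        P.natDegree * cP (fA u v s t) (fB u v s t) P else 0 := by
    refine finsum_eq_sum_of_support_subset _ ?_
    intro P hP
    rw [Function.mem_support] at hP
    have h1 : P.Monic ∧ Irreducible P := by
      by_contra h
      exact hP (if_neg h)
    rw [if_pos h1, hc P h1.2] at hP
    refine Finset.mem_coe.2 ((hS P).2 ⟨h1.1, h1.2, ?_⟩)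
    by_contra h2
    apply hP
    have h3 : ¬ P ∣ v * t := fun h => h2 (Dvd.dvd.mul_right h _)
    have h4 : ¬ P ∣ fD u v s t := fun h => h2 (Dvd.dvd.mul_left h _)
    rw [if_neg h3, if_neg h4, mul_zero, add_zero, mul_zero]
  refine ⟨∑ P ∈ S, P.natDegree * (if P ∣ v * t then 1 else 0), ?_⟩
  unfold cdeg
  rw [hI, zero_add, hsum]
  have h7 : (∑ P ∈ S, if P.Monic ∧ Irreducible P then
        P.natDegree * cP (fA u v s t) (fB u v s t) P else 0) =
      ∑ P ∈ S, (2 * (P.natDegree * (if P ∣ v * t then 1 else 0)) +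
        P.natDegree * (if P ∣ fD u v s t then 1 else 0)) := by
    refine Finset.sum_congr rfl fun P hP => ?_
    obtain ⟨h1, h2, h3⟩ := (hS P).1 hP
    rw [if_pos ⟨h1, h2⟩, hc P h2]
    ring
  rw [h7, Finset.sum_add_distrib, ← Finset.mul_sum]
  congr 1
  rw [g2_sum hD0 hDs ?_ ?_, hDd]
  · intro P h1 h2 h3
    exact (hS P).2 ⟨h1, h2, Dvd.dvd.mul_left h3 _⟩
  · intro P hP
    exact ⟨((hS P).1 hP).1, ((hS P).1 hP).2.1⟩

end Pool.Agent.NH34.CT
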