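import Pool.Agent.NH34.CT.Stm

/-!
The pairs with odd conductor: the good quadruples inject.
-/

set_option autoImplicit false
set_option linter.all false

open Polynomial Finset

namespace Pool.Agent.NH34.CT

open Pool.Agent.TH180.RT Pool.Agent.NH4.SB

theorem g3_mo {k : Type} [Field k] {n : ℕ} (v : degreeLT k n) :
    (mo v).Monic ∧ (mo v).natDegree = n := by
  have hv : (v.1).degree < (n : WithBot ℕ) := mem_degreeLT.1 v.2
  have h1 : (mo v).Monic := monic_X_pow_add hv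
  refine ⟨h1, ?_⟩
  unfold mo
  rw [natDegree_add_eq_left_of_degree_lt, natDegree_X_pow]
  rw [degree_X_pow]
  exact hv

theorem g3_mo_inj {k : Type} [Field k] {n : ℕ} {v w : degreeLT k n} (h : mo v = mo w) :
    v = w := by
  apply Subtype.ext
  exact add_left_cancel h

theorem g3_frac {k : Type} [Field k] {u v u' v' : k[X]} (h1 : IsCoprime u v)
    (h2 : IsCoprime u' v') (hv : v.Monic) (hv' : v'.Monic)
    (h : algebraMap k[X] (RatFunc k) u / algebraMap k[X] (RatFunc k) v =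
      algebraMap k[X] (RatFunc k) u' / algebraMap k[X] (RatFunc k) v') : u = u' ∧ v = v' := by
  have h3 : u * v' = u' * v := by
    apply RatFunc.algebraMap_injective k
    rw [map_mul, map_mul]
    rwa [div_eq_div_iff (alg_ne hv.ne_zero) (alg_ne hv'.ne_zero)] at h
  have h4 : v ∣ v' := by
    apply h1.symm.dvd_of_dvd_mul_left
    rw [h3]
    exact dvd_mul_left _ _
  have h5 : v' ∣ v := by
    apply h2.symm.dvd_of_dvd_mul_left
    rw [← h3]
    exact dvd_mul_left _ _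
  have h6 : v = v' := eq_of_monic_of_associated hv hv' (associated_of_dvd_dvd h4 h5)
  refine ⟨?_, h6⟩
  rw [h6] at h3
  exact mul_right_cancel₀ hv'.ne_zero h3

theorem g3_disc {k : Type} [Field k] {u v s t : k[X]} (hv : v ≠ 0) (ht : t ≠ 0) :
    algebraMap k[X] (RatFunc k) (fD u v s t) =
      algebraMap k[X] (RatFunc k) v ^ 3 * algebraMap k[X] (RatFunc k) t ^ 2 *
      (4 * (algebraMap k[X] (RatFunc k) u / algebraMap k[X] (RatFunc k) v) ^ 3 +
        27 * (algebraMap k[X] (RatFunc k) s / algebraMap k[X] (RatFunc k) t) ^ 2) := by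
  have hv' := alg_ne hv
  have ht' := alg_ne ht
  unfold fD
  simp only [map_add, map_mul, map_pow, map_ofNat]
  field_simp

theorem g3 : G3 := by
  classical
  intro hG1 hG2 k _ _ _ h6 n hn
  have hn0 : 0 < n := hn.pos
  refine card_le_card_of_injOn (fun ω : Bx k n =>
    (algebraMap k[X] (RatFunc k) ω.1.1.1 / algebraMap k[X] (RatFunc k) (mo ω.1.2),
      algebraMap k[X] (RatFunc k) ω.2.1.1 / algebraMap k[X] (RatFunc k) (mo ω.2.2))) ?_ ?_
  · intro ω hω
    rw [mem_coe, mem_filter] at hω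
    obtain ⟨-, hg⟩ := hω
    have hu : ω.1.1.1.natDegree ≤ n := natDegree_of_mem ω.1.1.2
    have hs : ω.2.1.1.natDegree ≤ n := natDegree_of_mem ω.2.1.2
    obtain ⟨mv, dv⟩ := g3_mo ω.1.2
    obtain ⟨mt, dt⟩ := g3_mo ω.2.2
    obtain ⟨c, hc⟩ := hG2 k h6 n _ _ _ _ hn0 hu hs mv dv mt dt hg
    rw [mem_coe, mem_filter]
    refine ⟨?_, 2 * n, _, _, hG1 k h6 n _ _ _ _ hn0 hu hs mv dv mt dt hg, ?_⟩
    · unfold Sn
      rw [mem_filter, mem_product, mem_Ht, mem_Ht]
      refine ⟨⟨hgt_le mv.ne_zero hu dv.le, hgt_le mt.ne_zero hs dt.le⟩, ?_⟩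
      intro h0
      have h1 := g3_disc (u := ω.1.1.1) (s := ω.2.1.1) mv.ne_zero mt.ne_zero
      have h2 : fD ω.1.1.1 (mo ω.1.2) ω.2.1.1 (mo ω.2.2) = 0 := by
        apply RatFunc.algebraMap_injective k
        rw [h1, map_zero]
        have h3 : (4 * (algebraMap k[X] (RatFunc k) ω.1.1.1 /
            algebraMap k[X] (RatFunc k) (mo ω.1.2)) ^ 3 +
            27 * (algebraMap k[X] (RatFunc k) ω.2.1.1 /
            algebraMap k[X] (RatFunc k) (mo ω.2.2)) ^ 2) = 0 := h0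
        rw [h3, mul_zero]
      have h4 : (fD ω.1.1.1 (mo ω.1.2) ω.2.1.1 (mo ω.2.2)).natDegree = 5 * n :=
        hg.2.2.2.2.2.2
      rw [h2, natDegree_zero] at h4
      omega
    · rw [hc]
      obtain ⟨m, rfl⟩ := hn
      exact ⟨c + 5 * m + 2, by ring⟩
  · intro ω hω ω' hω' h
    rw [mem_coe, mem_filter] at hω hω'
    obtain ⟨-, hg⟩ := hω
    obtain ⟨-, hg'⟩ := hω'
    have e1 := congrArg Prod.fst h
    have e2 := congrArg Prod.snd h
    obtain ⟨a1, a2⟩ := g3_frac hg.1 hg'.1 (g3_mo _).1 (g3_mo _).1 e1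
    obtain ⟨b1, b2⟩ := g3_frac hg.2.1 hg'.2.1 (g3_mo _).1 (g3_mo _).1 e2
    obtain ⟨⟨u, v⟩, ⟨s, t⟩⟩ := ω
    obtain ⟨⟨u', v'⟩, ⟨s', t'⟩⟩ := ω'
    have c1 : u = u' := Subtype.ext a1
    have c2 : s = s' := Subtype.ext b1
    have c3 : v = v' := g3_mo_inj a2
    have c4 : t = t' := g3_mo_inj b2
    rw [c1, c2, c3, c4]

end Pool.Agent.NH34.CT
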