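import Pool.Agent.NH4.SB.Pairs

/-!
Statements of the parts of project CT (parity of the analytic rank in the family `S_B` over `k(t)`).
-/

set_option autoImplicit false
set_option linter.all false

open Polynomial Finset

namespace Pool.Agent.NH34.CT

open Pool.Agent.TH180.RT Pool.Agent.NH4.SB

section defs

variable {k : Type} [Field k]

/-- the monic polynomial `X ^ n + v` -/
noncomputable def mo {n : ℕ} (v : degreeLT k n) : k[X] := X ^ n + v.1

/-- the quadruples: `u`, `s` of degree `≤ n`, `v`, `t` monic of degree `n` -/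
abbrev Bx (k : Type) [Field k] (n : ℕ) : Type :=
  (degreeLT k (n + 1) × degreeLT k n) × (degreeLT k (n + 1) × degreeLT k n)

/-- the good quadruples -/
def Gd (n : ℕ) (u v s t : k[X]) : Prop :=
  IsCoprime u v ∧ IsCoprime s t ∧ IsCoprime v t ∧ Squarefree v ∧ Squarefree t ∧
    Squarefree (fD u v s t) ∧ (fD u v s t).natDegree = 5 * n

/-- the spectrum -/
def Spec (d : ℕ) (A B : k[X]) {N : ℕ} (β : Fin N → ℂ) : Prop :=
  N + 4 = cdeg d A B ∧ (∀ i, ‖β i‖ = 1) ∧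
    ∀ m : ℕ, 0 < m → (psum d A B m : ℂ) = -((Nat.card k : ℂ) ^ m * ∑ i, β i ^ m)

/-- minimal equations of `(a, b)` -/
def MinEq (a b : RatFunc k) (d : ℕ) (A B : k[X]) : Prop :=
  IsMin d A B ∧ ∃ w : RatFunc k, w ≠ 0 ∧ algebraMap k[X] (RatFunc k) A = w ^ 4 * a ∧
    algebraMap k[X] (RatFunc k) B = w ^ 6 * b

end defs

open Classical

section twist

/-- the character of a nonsquare constant -/
def W1 : Prop := ∀ (k : Type) [Field k] [Fintype k] [DecidableEq k], (6 : k) ≠ 0 →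
  ∀ c : k, c ≠ 0 → ¬ IsSquare c → ∀ P : k[X], P.Monic → Irreducible P →
    chi (C c) P = (-1) ^ P.natDegree

/-- the sign rule for power sums -/
def W2 : Prop := ∀ (a c : ℤ) (j : ℕ), fp (-a) c j = (-1) ^ j * fp a c j

/-- the twist at a prime -/
def W3 : Prop := W1 → W2 → ∀ (k : Type) [Field k] [Fintype k] [DecidableEq k], (6 : k) ≠ 0 →
  ∀ c : k, c ≠ 0 → ¬ IsSquare c → ∀ P : k[X], P.Monic → Irreducible P → ∀ (A B : k[X]) (j : ℕ),
    locP (C c ^ 2 * A) (C c ^ 3 * B) P j = (-1) ^ (P.natDegree * j) * locP A B P j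

/-- the twist at infinity -/
def W4 : Prop := W2 → ∀ (k : Type) [Field k] [Fintype k] [DecidableEq k], (6 : k) ≠ 0 →
  ∀ c : k, c ≠ 0 → ¬ IsSquare c → ∀ (a b : k) (j : ℕ),
    locI (c ^ 2 * a) (c ^ 3 * b) j = (-1) ^ j * locI a b j

/-- the twist of the power sums -/
def W5 : Prop := W1 → W2 → W3 → W4 → ∀ (k : Type) [Field k] [Fintype k] [DecidableEq k], (6 : k) ≠ 0 →
  ∀ c : k, c ≠ 0 → ¬ IsSquare c → ∀ (d : ℕ) (A B : k[X]) (m : ℕ), 0 < m →
    psum d (C c ^ 2 * A) (C c ^ 3 * B) m = (-1) ^ m * psum d A B m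

/-- the twist of the conductor -/
def W6 : Prop := ∀ (k : Type) [Field k], (6 : k) ≠ 0 →
  ∀ c : k, c ≠ 0 → ∀ (d : ℕ) (A B : k[X]), cdeg d (C c ^ 2 * A) (C c ^ 3 * B) = cdeg d A B

/-- the twist of minimal equations -/
def W7 : Prop := ∀ (k : Type) [Field k], (6 : k) ≠ 0 →
  ∀ c : k, c ≠ 0 → ∀ (a b : RatFunc k) (d : ℕ) (A B : k[X]), MinEq a b d A B →
    MinEq (RatFunc.C c ^ 2 * a) (RatFunc.C c ^ 3 * b) d (C c ^ 2 * A) (C c ^ 3 * B)

/-- parity -/
def W8 : Prop := ∀ (N : ℕ) (β : Fin N → ℂ), (∀ i, ‖β i‖ = 1) →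
  (∀ m : ℕ, 0 < m → (∑ i, β i ^ m).im = 0) →
  ((univ.filter fun i => β i = 1).card + (univ.filter fun i => β i = -1).card) % 2 = N % 2

/-- heights of multiples by constants -/
def W9 : Prop := ∀ (k : Type) [Field k] (c : k), c ≠ 0 → ∀ x : RatFunc k,
  hgt (RatFunc.C c * x) = hgt x

end twist

section count

/-- common factors, degree `≤ n` and monic of degree `n` -/
def B1 : Prop := ∀ (k : Type) [Field k] [Fintype k] [DecidableEq k] (n : ℕ), 0 < n →
  ((univ.filter fun ω : degreeLT k (n + 1) × degreeLT k n => ¬ IsCoprime ω.1.1 (mo ω.2)).card : ℝ) ≤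
    2 / (Nat.card k : ℝ) * (Nat.card k : ℝ) ^ (2 * n + 1)

/-- common factors, monic of degree `n` -/
def B2 : Prop := ∀ (k : Type) [Field k] [Fintype k] [DecidableEq k] (n : ℕ), 0 < n →
  ((univ.filter fun ω : degreeLT k n × degreeLT k n => ¬ IsCoprime (mo ω.1) (mo ω.2)).card : ℝ) ≤
    2 / (Nat.card k : ℝ) * (Nat.card k : ℝ) ^ (2 * n)

/-- square factors -/
def B3 : Prop := ∀ (k : Type) [Field k] [Fintype k] [DecidableEq k] (n : ℕ), 0 < n →
  ((univ.filter fun v : degreeLT k n => ¬ Squarefree (mo v)).card : ℝ) ≤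
    2 / (Nat.card k : ℝ) * (Nat.card k : ℝ) ^ n

/-- the leading coefficient of the discriminant -/
def B4 : Prop := ∀ (k : Type) [Field k] [Fintype k] [DecidableEq k], (6 : k) ≠ 0 →
  ∀ n : ℕ,
  ((univ.filter fun ω : degreeLT k (n + 1) × degreeLT k (n + 1) =>
      4 * ω.1.1.coeff n ^ 3 + 27 * ω.2.1.coeff n ^ 2 = 0).card : ℝ) ≤
    2 / (Nat.card k : ℝ) * (Nat.card k : ℝ) ^ (2 * n + 2)

/-- the degree of the discriminant -/
def B4' : Prop := ∀ (k : Type) [Field k] (n : ℕ) (u s : degreeLT k (n + 1)) (v t : degreeLT k n),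
  4 * u.1.coeff n ^ 3 + 27 * s.1.coeff n ^ 2 ≠ 0 →
  (fD u.1 (mo v) s.1 (mo t)).natDegree = 5 * n

/-- the number of `s` with a small square factor, one prime -/
def B5a : Prop := ∀ (k : Type) [Field k] [Fintype k] [DecidableEq k], (6 : k) ≠ 0 →
  ∀ (n : ℕ) (u v t P : k[X]), IsCoprime u v → IsCoprime v t → P.Monic → Irreducible P →
  P.natDegree ≤ n →
  (univ.filter fun s : degreeLT k (n + 1) => IsCoprime u s.1 ∧ IsCoprime s.1 t ∧
    P ^ 2 ∣ fD u v s.1 t).card ≤ 2 * (Nat.card k ^ (n + 1 - 2 * P.natDegree) + 1)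

/-- the number of `s` with a small square factor -/
def B5 : Prop := B5a → ∀ (k : Type) [Field k] [Fintype k] [DecidableEq k], (6 : k) ≠ 0 →
  ∀ (n : ℕ) (u v t : k[X]), IsCoprime u v → IsCoprime v t →
  ((univ.filter fun s : degreeLT k (n + 1) => IsCoprime u s.1 ∧ IsCoprime s.1 t ∧
    ∃ P : k[X], Irreducible P ∧ P.natDegree ≤ n ∧ P ^ 2 ∣ fD u v s.1 t).card : ℝ) ≤
    8 / (Nat.card k : ℝ) * (Nat.card k : ℝ) ^ (n + 1)

/-- common factors, degree `≤ n` -/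
def B6 : Prop := ∀ (k : Type) [Field k] [Fintype k] [DecidableEq k] (n : ℕ),
  ((univ.filter fun ω : degreeLT k (n + 1) × degreeLT k (n + 1) =>
      ¬ IsCoprime ω.1.1 ω.2.1).card : ℝ) ≤
    2 / (Nat.card k : ℝ) * (Nat.card k : ℝ) ^ (2 * n + 2)

/-- large square factors divide one polynomial -/
def B7a : Prop := ∀ (k : Type) [Field k], (6 : k) ≠ 0 →
  ∀ (n : ℕ) (u v s t P : k[X]), u.natDegree ≤ n → u ≠ 0 → v.natDegree ≤ n → v ≠ 0 →
  t.natDegree ≤ n → t ≠ 0 → Irreducible P → n < P.natDegree → P ^ 2 ∣ fD u v s t →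
  P ∣ (3 * derivative v * u * t - 3 * derivative u * v * t - 2 * derivative t * u * v) * s +
      2 * derivative s * u * v * t ∧
  P ∣ 27 * v ^ 5 * derivative s ^ 2 +
      u * (3 * derivative v * u * t - 3 * derivative u * v * t - 2 * derivative t * u * v) ^ 2

/-- this polynomial is not zero -/
def B7b : Prop := ∀ (k : Type) [Field k], (6 : k) ≠ 0 →
  ∀ (u v d e : k[X]), IsCoprime u v → Squarefree v → 0 < v.natDegree → d ≠ 0 →
  27 * v ^ 5 * d ^ 2 + u * e ^ 2 ≠ 0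

/-- the number of constants with a large square factor -/
def B7 : Prop := B7a → B7b → ∀ (k : Type) [Field k] [Fintype k] [DecidableEq k], (6 : k) ≠ 0 →
  ∀ (n : ℕ) (u v s t : k[X]), u.natDegree ≤ n → u ≠ 0 → v.natDegree ≤ n → 0 < v.natDegree →
  Squarefree v → IsCoprime u v → t.natDegree ≤ n → t ≠ 0 → s.natDegree ≤ n → derivative s ≠ 0 →
  (univ.filter fun c : k => ∃ P : k[X], Irreducible P ∧ n < P.natDegree ∧
    P ^ 2 ∣ fD u v (s + C c) t).card ≤ 7

/-- the number of `s` with a large square factor -/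
def B8 : Prop := B7a → B7b → B7 → ∀ (k : Type) [Field k] [Fintype k] [DecidableEq k], (6 : k) ≠ 0 →
  ∀ (n : ℕ) (u v t : k[X]), u.natDegree ≤ n → u ≠ 0 → v.natDegree ≤ n → 0 < v.natDegree →
  Squarefree v → IsCoprime u v → t.natDegree ≤ n → t ≠ 0 →
  ((univ.filter fun s : degreeLT k (n + 1) => ∃ P : k[X], Irreducible P ∧ n < P.natDegree ∧
    P ^ 2 ∣ fD u v s.1 t).card : ℝ) ≤ 8 / (Nat.card k : ℝ) * (Nat.card k : ℝ) ^ (n + 1)

/-- the number of good quadruples -/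
def B9 : Prop := B1 → B2 → B3 → B4 → B4' → B5a → B5 → B6 → B7a → B7b → B7 → B8 →
  ∀ (k : Type) [Field k] [Fintype k] [DecidableEq k], (6 : k) ≠ 0 → ∀ n : ℕ, 0 < n →
  (1 - 30 / (Nat.card k : ℝ)) * (Nat.card k : ℝ) ^ (4 * n + 2) ≤
  ((univ.filter fun ω : Bx k n => Gd n ω.1.1.1 (mo ω.1.2) ω.2.1.1 (mo ω.2.2)).card : ℝ)

end count

section good

/-- the equation is minimal -/
def G1 : Prop := ∀ (k : Type) [Field k], (6 : k) ≠ 0 → ∀ (n : ℕ) (u v s t : k[X]), 0 < n →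
  u.natDegree ≤ n → s.natDegree ≤ n → v.Monic → v.natDegree = n → t.Monic → t.natDegree = n →
  Gd n u v s t →
  MinEq (algebraMap k[X] (RatFunc k) u / algebraMap k[X] (RatFunc k) v)
    (algebraMap k[X] (RatFunc k) s / algebraMap k[X] (RatFunc k) t) (2 * n) (fA u v s t) (fB u v s t)

/-- the conductor -/
def G2 : Prop := ∀ (k : Type) [Field k], (6 : k) ≠ 0 → ∀ (n : ℕ) (u v s t : k[X]), 0 < n →
  u.natDegree ≤ n → s.natDegree ≤ n → v.Monic → v.natDegree = n → t.Monic → t.natDegree = n →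
  Gd n u v s t →
  ∃ c : ℕ, cdeg (2 * n) (fA u v s t) (fB u v s t) = 2 * c + 5 * n

/-- the pairs with odd conductor -/
def G3 : Prop := G1 → G2 → ∀ (k : Type) [Field k] [Fintype k] [DecidableEq k], (6 : k) ≠ 0 →
  ∀ n : ℕ, Odd n →
  (univ.filter fun ω : Bx k n => Gd n ω.1.1.1 (mo ω.1.2) ω.2.1.1 (mo ω.2.2)).card ≤
  ((Sn k n).filter fun x => ∃ (d : ℕ) (A B : k[X]), MinEq x.1 x.2 d A B ∧ Odd (cdeg d A B)).card

/-- the twist flips the parity of the order -/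
def F1 : Prop := W1 → W2 → W3 → W4 → W5 → W6 → W7 → W8 → W9 →
  ∀ (k : Type) [Field k] [Fintype k] [DecidableEq k], (6 : k) ≠ 0 → ∀ n : ℕ, ∀ ε : ℕ, ε < 2 →
  ((Sn k n).filter fun x => ∃ (d : ℕ) (A B : k[X]), MinEq x.1 x.2 d A B ∧ Odd (cdeg d A B) ∧
    ∃ (N : ℕ) (β : Fin N → ℂ), Spec d A B β ∧ (univ.filter fun i => β i = 1).card % 2 = ε).card ≤
  ((Sn k n).filter fun x => ∃ (d : ℕ) (A B : k[X]), MinEq x.1 x.2 d A B ∧ Odd (cdeg d A B) ∧
    ∃ (N : ℕ) (β : Fin N → ℂ), Spec d A B β ∧ (univ.filter fun i => β i = 1).card % 2 = 1 - ε).card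

end good

end Pool.Agent.NH34.CT
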