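import Pool.Agent.NH34.CT.Stm

/-!
Project CT: uniqueness of the order of vanishing.
-/

set_option autoImplicit false
set_option linter.all false

open Polynomial Finset

namespace Pool.Agent.NH34.CT

open Pool.Agent.TH180.RT Pool.Agent.NH4.SB

open Classical

/-- minimal equations are unique up to constants -/
def U1 : Prop := ∀ (k : Type) [Field k] (a b : RatFunc k) (d d' : ℕ) (A B A' B' : k[X]),
  MinEq a b d A B → MinEq a b d' A' B' →
  d = d' ∧ ∃ c : k, c ≠ 0 ∧ A' = C c ^ 4 * A ∧ B' = C c ^ 6 * B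

/-- the power sums do not depend on the minimal equation -/
def U2 : Prop := ∀ (k : Type) [Field k] [Fintype k] [DecidableEq k], (6 : k) ≠ 0 →
  ∀ c : k, c ≠ 0 → ∀ (d : ℕ) (A B : k[X]) (m : ℕ), 0 < m →
    psum d (C c ^ 4 * A) (C c ^ 6 * B) m = psum d A B m

/-- the power sums determine the number of `β i = 1` -/
def U3 : Prop := ∀ (N N' : ℕ) (β : Fin N → ℂ) (β' : Fin N' → ℂ), (∀ i, ‖β i‖ = 1) →
  (∀ i, ‖β' i‖ = 1) → (∀ m : ℕ, 0 < m → ∑ i, β i ^ m = ∑ i, β' i ^ m) →
  (univ.filter fun i => β i = 1).card = (univ.filter fun i => β' i = 1).card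

end Pool.Agent.NH34.CT
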