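import Pool.Agent.NH34.CT.Stm2

/-!
Project CT, part U1: minimal equations are unique up to constants.
-/

set_option autoImplicit false

open Polynomial Finset

namespace Pool.Agent.NH34.CT

open Pool.Agent.TH180.RT Pool.Agent.NH4.SB

section

variable {k : Type} [Field k]

lemma u1_unit {g h A B A' B' : k[X]} (hco : IsCoprime g h) (hA : h ^ 4 * A' = g ^ 4 * A)
    (hB : h ^ 6 * B' = g ^ 6 * B) (hP : ∀ P : k[X], Irreducible P → ¬ (P ^ 4 ∣ A ∧ P ^ 6 ∣ B)) :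
    IsUnit h := by
  by_contra hu
  have h0 : h ≠ 0 := by
    rintro rfl
    have hg : IsUnit g := by
      obtain ⟨a, b, hab⟩ := hco
      rw [mul_zero, add_zero] at hab
      exact IsUnit.of_mul_eq_one a (by rw [mul_comm]; exact hab)
    have h1 : g ^ 4 * A = 0 := by rw [← hA]; ring
    have h2 : g ^ 6 * B = 0 := by rw [← hB]; ring
    have hA0 : A = 0 := (mul_eq_zero.1 h1).resolve_left (pow_ne_zero _ hg.ne_zero)
    have hB0 : B = 0 := (mul_eq_zero.1 h2).resolve_left (pow_ne_zero _ hg.ne_zero)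
    exact hP X irreducible_X ⟨hA0 ▸ dvd_zero _, hB0 ▸ dvd_zero _⟩
  obtain ⟨P, hPi, hPd⟩ := WfDvdMonoid.exists_irreducible_factor hu h0
  refine hP P hPi ⟨(pow_dvd_pow_of_dvd hPd 4).trans ?_, (pow_dvd_pow_of_dvd hPd 6).trans ?_⟩
  · exact (IsCoprime.pow hco.symm).dvd_of_dvd_mul_left (Dvd.intro _ hA)
  · exact (IsCoprime.pow hco.symm).dvd_of_dvd_mul_left (Dvd.intro _ hB)

lemma u1_rel {w w' a : RatFunc k} (hw : w ≠ 0) (g h A A' : k[X]) (hh : h ≠ 0) (n : ℕ)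
    (hz : algebraMap k[X] (RatFunc k) g / algebraMap k[X] (RatFunc k) h = w' / w)
    (hA : algebraMap k[X] (RatFunc k) A = w ^ n * a)
    (hA' : algebraMap k[X] (RatFunc k) A' = w' ^ n * a) : h ^ n * A' = g ^ n * A := by
  apply RatFunc.algebraMap_injective
  rw [map_mul, map_mul, map_pow, map_pow, hA, hA']
  have hh' : algebraMap k[X] (RatFunc k) h ≠ 0 := RatFunc.algebraMap_ne_zero hh
  rw [div_eq_div_iff hh' hw] at hz
  rw [← mul_assoc, ← mul_assoc, ← mul_pow, ← mul_pow, hz, mul_comm w']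

lemma u1_deg {d d' : ℕ} {A B A' B' : k[X]} (h1 : IsMin d A B) (h2 : IsMin d' A' B')
    (hA : A'.natDegree = A.natDegree) (hB : B'.natDegree = B.natDegree) : d' ≤ d := by
  obtain ⟨a1, a2, -, -⟩ := h1
  obtain ⟨-, -, b3, -⟩ := h2
  by_contra hlt
  push Not at hlt
  refine b3 (by omega) ⟨?_, ?_⟩
  · rw [hA]; omega
  · rw [hB]; omega

end

open Classical in
/-- **U1** -/
theorem u1 : U1 := by
  intro k _ a b d d' A B A' B' h1 h2
  obtain ⟨m1, w, hw, hA, hB⟩ := h1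
  obtain ⟨m2, w', hw', hA', hB'⟩ := h2
  set z : RatFunc k := w' / w with hz
  have hz0 : z ≠ 0 := div_ne_zero hw' hw
  have hzd := RatFunc.num_div_denom z
  have hh : z.denom ≠ 0 := RatFunc.denom_ne_zero z
  have hco := RatFunc.isCoprime_num_denom z
  have e4 : z.denom ^ 4 * A' = z.num ^ 4 * A := u1_rel hw _ _ A A' hh 4 hzd hA hA'
  have e6 : z.denom ^ 6 * B' = z.num ^ 6 * B := u1_rel hw _ _ B B' hh 6 hzd hB hB'
  have uh : IsUnit z.denom := u1_unit hco e4 e6 m1.2.2.2.2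
  have ug : IsUnit z.num := u1_unit hco.symm e4.symm e6.symm m2.2.2.2.2
  obtain ⟨g0, hg0, hg⟩ := Polynomial.isUnit_iff.1 ug
  obtain ⟨h0, hh0, hh'⟩ := Polynomial.isUnit_iff.1 uh
  have hgn : g0 ≠ 0 := hg0.ne_zero
  have hhn : h0 ≠ 0 := hh0.ne_zero
  have hc : g0 / h0 ≠ 0 := div_ne_zero hgn hhn
  have key : ∀ (n : ℕ) (F F' : k[X]), z.denom ^ n * F' = z.num ^ n * F →
      F' = C (g0 / h0) ^ n * F := by
    intro n F F' he
    rw [← hg, ← hh'] at he
    have h3 : (C h0 : k[X]) ^ n ≠ 0 := pow_ne_zero _ (C_ne_zero.2 hhn)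
    apply mul_left_cancel₀ h3
    rw [he, ← mul_assoc, ← mul_pow, ← C_mul, mul_div_cancel₀ _ hhn]
  have kA := key 4 A A' e4
  have kB := key 6 B B' e6
  have dg : ∀ (n : ℕ) (F : k[X]), (C (g0 / h0) ^ n * F).natDegree = F.natDegree := by
    intro n F
    rw [← C_pow, natDegree_C_mul (pow_ne_zero _ hc)]
  have dA : A'.natDegree = A.natDegree := by rw [kA, dg]
  have dB : B'.natDegree = B.natDegree := by rw [kB, dg]
  exact ⟨le_antisymm (u1_deg m2 m1 dA.symm dB.symm) (u1_deg m1 m2 dA dB), g0 / h0, hc, kA, kB⟩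

end Pool.Agent.NH34.CT
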