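import Pool.Agent.NH34.CT.Stm2
import Pool.Agent.NH4.SB.Det

/-!
Project CT: the power sums do not depend on the minimal equation.
-/

set_option autoImplicit false
set_option linter.all false

open Polynomial Finset

namespace Pool.Agent.NH34.CT

open Pool.Agent.TH180.RT Pool.Agent.NH4.SB

open Classical

theorem u2_tr {F : Type} [Field F] [Fintype F] [DecidableEq F] (h6 : (6 : F) ≠ 0) {c : F}
    (hc : c ≠ 0) (a b : F) : pts F (c ^ 4 * a) (c ^ 6 * b) = pts F a b := by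
  have h1 := tr_twist h6 (pow_ne_zero 2 hc) a b
  rw [quadraticChar_sq_one' hc, one_mul, ← pow_mul, ← pow_mul] at h1
  unfold tr at h1
  norm_num at h1
  exact h1

theorem u2_locI {k : Type} [Field k] [Fintype k] [DecidableEq k] (h6 : (6 : k) ≠ 0) {c : k}
    (hc : c ≠ 0) (a b : k) (j : ℕ) : locI (c ^ 4 * a) (c ^ 6 * b) j = locI a b j := by
  unfold locI
  rw [u2_tr h6 hc]
  have h1 : 4 * (c ^ 4 * a) ^ 3 + 27 * (c ^ 6 * b) ^ 2 = c ^ 12 * (4 * a ^ 3 + 27 * b ^ 2) := by ring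
  have h2 : (4 * (c ^ 4 * a) ^ 3 + 27 * (c ^ 6 * b) ^ 2 = 0) ↔ (4 * a ^ 3 + 27 * b ^ 2 = 0) := by
    rw [h1, mul_eq_zero]
    exact ⟨fun h => h.resolve_left (pow_ne_zero _ hc), Or.inr⟩
  by_cases h : 4 * a ^ 3 + 27 * b ^ 2 = 0
  · rw [if_pos (h2.2 h), if_pos h]
  · rw [if_neg (fun h' => h (h2.1 h')), if_neg h]

theorem u2_locP {k : Type} [Field k] [Fintype k] [DecidableEq k] (h6 : (6 : k) ≠ 0) {c : k}
    (hc : c ≠ 0) {P : k[X]} (hP : Irreducible P) (A B : k[X]) (j : ℕ) :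
    locP (C c ^ 4 * A) (C c ^ 6 * B) P j = locP A B P j := by
  have hu : IsUnit (C c) := Polynomial.isUnit_C.2 (isUnit_iff_ne_zero.2 hc)
  have hz : ¬ P ∣ C c := fun h => hP.not_isUnit (isUnit_of_dvd_unit h hu)
  have h1 := trP_scale h6 hP hz A B
  have h2 : 4 * (C c ^ 4 * A) ^ 3 + 27 * (C c ^ 6 * B) ^ 2 =
      (4 * A ^ 3 + 27 * B ^ 2) * C c ^ 12 := by ring
  have h3 : (P ∣ 4 * (C c ^ 4 * A) ^ 3 + 27 * (C c ^ 6 * B) ^ 2) ↔ (P ∣ 4 * A ^ 3 + 27 * B ^ 2) := by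
    rw [h2]
    exact (hu.pow 12).dvd_mul_right
  unfold locP
  unfold trP at h1
  rw [h1]
  by_cases h : P ∣ 4 * A ^ 3 + 27 * B ^ 2
  · rw [if_pos (h3.2 h), if_pos h]
  · rw [if_neg (fun h' => h (h3.1 h')), if_neg h]

theorem u2 : U2 := by
  unfold U2
  intro k _ _ _ h6 c hc d A B m hm
  unfold psum
  congr 1
  · rw [← C_pow, ← C_pow, coeff_C_mul, coeff_C_mul]
    exact u2_locI h6 hc _ _ m
  · refine finsum_congr fun P => ?_
    by_cases h : P.Monic ∧ Irreducible P ∧ P.natDegree ∣ m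
    · rw [if_pos h, if_pos h, u2_locP h6 hc h.2.1]
    · rw [if_neg h, if_neg h]

end Pool.Agent.NH34.CT
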