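import Pool.Agent.NH34.CT.Stm2

/-!
# CT-U3 (helper79): the power sums determine the multiplicity of `1`
-/

set_option autoImplicit false
set_option linter.all false

open Polynomial Finset

namespace Pool.Agent.NH34.CT

open Pool.Agent.TH180.RT Pool.Agent.NH4.SB

open Classical

theorem u3_lin {N N' : ℕ} {β : Fin N → ℂ} {β' : Fin N' → ℂ}
    (h : ∀ m : ℕ, 0 < m → ∑ i, β i ^ m = ∑ i, β' i ^ m) (p : ℂ[X]) (hp : p.coeff 0 = 0) :
    ∑ i, p.eval (β i) = ∑ i, p.eval (β' i) := by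
  simp only [eval_eq_sum_range]
  rw [Finset.sum_comm, Finset.sum_comm (s := univ) (t := range (p.natDegree + 1))]
  refine Finset.sum_congr rfl fun m _ => ?_
  rw [← Finset.mul_sum, ← Finset.mul_sum]
  rcases Nat.eq_zero_or_pos m with h0 | h0
  · rw [h0, hp, zero_mul, zero_mul]
  · rw [h m h0]

theorem u3_card {N : ℕ} (β : Fin N → ℂ) (p : ℂ[X]) (hp : ∀ i, β i ≠ 1 → p.eval (β i) = 0) :
    ∑ i, p.eval (β i) = ((univ.filter fun i => β i = 1).card : ℂ) * p.eval 1 := by
  rw [← nsmul_eq_mul, ← Finset.sum_const, Finset.sum_filter]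
  refine Finset.sum_congr rfl fun i _ => ?_
  split_ifs with h1
  · rw [h1]
  · exact hp i h1

theorem u3 : U3 := by
  intro N N' β β' _ _ h
  set Z : Finset ℂ := univ.image β ∪ univ.image β' with hZ
  set p : ℂ[X] := X * ∏ z ∈ Z.erase 1, (X - C z) with hpd
  have hp0 : p.coeff 0 = 0 := by rw [hpd, mul_coeff_zero, coeff_X_zero, zero_mul]
  have hp1 : p.eval 1 ≠ 0 := by
    rw [hpd, eval_mul, eval_X, one_mul, eval_prod, Finset.prod_ne_zero_iff]
    intro z hz
    rw [eval_sub, eval_X, eval_C, sub_ne_zero]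
    exact fun h1 => (Finset.mem_erase.1 hz).1 h1.symm
  have hpz : ∀ z ∈ Z, z ≠ 1 → p.eval z = 0 := by
    intro z hz hz1
    rw [hpd, eval_mul, eval_prod, Finset.prod_eq_zero (Finset.mem_erase.2 ⟨hz1, hz⟩), mul_zero]
    rw [eval_sub, eval_X, eval_C, sub_self]
  have h1 := u3_card β p fun i hi => hpz _ (Finset.mem_union_left _
    (Finset.mem_image_of_mem _ (Finset.mem_univ i))) hi
  have h2 := u3_card β' p fun i hi => hpz _ (Finset.mem_union_right _
    (Finset.mem_image_of_mem _ (Finset.mem_univ i))) hi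
  have h3 := u3_lin h p hp0
  rw [h1, h2] at h3
  exact_mod_cast mul_right_cancel₀ hp1 h3

end Pool.Agent.NH34.CT
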