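import Pool.Agent.NH34.CT.Stm

/-!
# The character of a nonsquare constant
-/

set_option autoImplicit false

open Polynomial Finset

namespace Pool.Agent.NH34.CT

open Pool.Agent.TH180.RT Pool.Agent.NH4.SB

theorem w1_pow {F : Type} [Field F] [Fintype F] (h2 : ringChar F ≠ 2) {c : F} (hc : c ≠ 0)
    (hn : ¬ IsSquare c) : c ^ (Fintype.card F / 2) = -1 := by
  rcases FiniteField.pow_dichotomy h2 hc with h | h
  · exact absurd ((FiniteField.isSquare_iff h2 hc).2 h) hn
  · exact h

theorem w1_half (q : ℕ) (hq : q % 2 = 1) (d : ℕ) :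
    ∃ S, q ^ d / 2 = (q / 2) * S ∧ S % 2 = d % 2 := by
  obtain ⟨m, rfl⟩ : ∃ m, q = 2 * m + 1 := ⟨q / 2, by omega⟩
  have e2 : (2 * m + 1) / 2 = m := by omega
  rw [e2]
  induction d with
  | zero => exact ⟨0, by simp, rfl⟩
  | succ d ih =>
    obtain ⟨S, h1, h2⟩ := ih
    have h5 : S * (2 * m + 1) = 2 * (S * m) + S := by ring
    refine ⟨S * (2 * m + 1) + 1, ?_, by omega⟩
    have h3 : (2 * m + 1) ^ d % 2 = 1 := by rw [Nat.pow_mod, hq, one_pow, Nat.one_mod]
    have h4 : (2 * m + 1) ^ d = 2 * (m * S) + 1 := by omega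
    rw [pow_succ, h4]
    have e3 : (2 * (m * S) + 1) * (2 * m + 1) = 2 * (m * (S * (2 * m + 1) + 1)) + 1 := by ring
    omega

theorem w1 : W1 := by
  intro k _ _ _ h6 c hc hn P hP hI
  classical
  unfold chi
  rw [dif_pos hI]
  have : Fact (Irreducible P) := ⟨hI⟩
  have := finAR hI.ne_zero
  let _ : Fintype (AdjoinRoot P) := Fintype.ofFinite _
  have hL : ringChar (AdjoinRoot P) ≠ 2 := rc (six_AR h6 hI)
  have hk : ringChar k ≠ 2 := rc h6
  have hq : Fintype.card k % 2 = 1 := FiniteField.odd_card_of_char_ne_two hk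
  obtain ⟨S, hS, hSd⟩ := w1_half (Fintype.card k) hq P.natDegree
  have hcard : Fintype.card (AdjoinRoot P) = Fintype.card k ^ P.natDegree := by
    rw [← Nat.card_eq_fintype_card, ← Nat.card_eq_fintype_card, cardAR hI.ne_zero]
  have hmk : AdjoinRoot.mk P (C c) = algebraMap k (AdjoinRoot P) c := rfl
  have h1 : ((quadraticChar (AdjoinRoot P) (AdjoinRoot.mk P (C c)) : ℤ) : AdjoinRoot P) =
      (-1) ^ P.natDegree := by
    rw [quadraticChar_eq_pow_of_char_ne_two' hL, hcard, hS, hmk, ← map_pow, pow_mul,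
      w1_pow hk hc hn, map_pow, map_neg, map_one]
    rw [neg_one_pow_eq_pow_mod_two, hSd, ← neg_one_pow_eq_pow_mod_two]
  have h0 : AdjoinRoot.mk P (C c) ≠ 0 := by
    rw [hmk]
    exact (_root_.map_ne_zero _).2 hc
  have h2 : (2 : AdjoinRoot P) ≠ 0 := Ring.two_ne_zero hL
  rcases quadraticChar_dichotomy h0 with h | h
  · have h3 := h1
    rw [h] at h3
    rcases neg_one_pow_eq_or ℤ P.natDegree with h5 | h5
    · exact h.trans h5.symm
    · exfalso
      have h6 : (-1 : AdjoinRoot P) ^ P.natDegree = -1 := by exact_mod_cast congrArg (Int.cast (R := AdjoinRoot P)) h5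
      rw [h6] at h3
      push_cast at h3
      apply h2
      linear_combination h3
  · have h3 := h1
    rw [h] at h3
    rcases neg_one_pow_eq_or ℤ P.natDegree with h5 | h5
    · exfalso
      have h6 : (-1 : AdjoinRoot P) ^ P.natDegree = 1 := by exact_mod_cast congrArg (Int.cast (R := AdjoinRoot P)) h5
      rw [h6] at h3
      push_cast at h3
      apply h2
      linear_combination -h3
    · exact h.trans h5.symm

end Pool.Agent.NH34.CT
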