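import Pool.Agent.NH34.CT.Stm

/-!
The sign rule for power sums and the twist at infinity.
-/

set_option autoImplicit false
set_option linter.all false

open Polynomial Finset

namespace Pool.Agent.NH34.CT

open Pool.Agent.TH180.RT Pool.Agent.NH4.SB

theorem w24_sign (a c : ℤ) : ∀ j : ℕ, fp (-a) c j = (-1) ^ j * fp a c j ∧
    fp (-a) c (j + 1) = (-1) ^ (j + 1) * fp a c (j + 1) := by
  intro j
  induction j with
  | zero =>
    refine ⟨?_, ?_⟩
    · rw [fp_zero, fp_zero]
      simp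
    · rw [zero_add, fp_one, fp_one]
      simp
  | succ n ih =>
    refine ⟨ih.2, ?_⟩
    have e1 : fp (-a) c (n + 1 + 1) = -a * fp (-a) c (n + 1) - c * fp (-a) c n := fp_rec (-a) c n
    have e2 : fp a c (n + 1 + 1) = a * fp a c (n + 1) - c * fp a c n := fp_rec a c n
    rw [e1, e2, ih.1, ih.2]
    ring

theorem w2 : W2 := by
  intro a c j
  exact (w24_sign a c j).1

theorem w4 : W4 := by
  intro h2 k _ _ _ h6 c hc hns a b j
  have ht : ((Nat.card k : ℤ) - pts k (c ^ 2 * a) (c ^ 3 * b)) =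
      -((Nat.card k : ℤ) - pts k a b) := by
    have h := tr_twist (F := k) h6 hc a b
    unfold tr at h
    rw [quadraticChar_neg_one_iff_not_isSquare.mpr hns] at h
    rw [Nat.card_eq_fintype_card, h]
    ring
  have hd : (4 * (c ^ 2 * a) ^ 3 + 27 * (c ^ 3 * b) ^ 2 = 0) ↔ (4 * a ^ 3 + 27 * b ^ 2 = 0) := by
    have e : 4 * (c ^ 2 * a) ^ 3 + 27 * (c ^ 3 * b) ^ 2 = c ^ 6 * (4 * a ^ 3 + 27 * b ^ 2) := by
      ring
    rw [e]
    constructor
    · intro h
      rcases mul_eq_zero.mp h with h' | h'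
      · exact absurd (pow_eq_zero_iff (by norm_num) |>.mp h') hc
      · exact h'
    · intro h
      rw [h, mul_zero]
  unfold locI
  rw [ht, h2]
  by_cases hz : 4 * a ^ 3 + 27 * b ^ 2 = 0
  · rw [if_pos hz, if_pos (hd.mpr hz)]
  · rw [if_neg hz, if_neg (fun h => hz (hd.mp h))]

end Pool.Agent.NH34.CT
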