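import Pool.Agent.NH34.CT.Stm

/-!
# Project CT: the twist at a prime (by helper80)
-/

set_option autoImplicit false
set_option linter.all false

open Polynomial Finset

namespace Pool.Agent.NH34.CT

open Pool.Agent.TH180.RT Pool.Agent.NH4.SB

open Classical

theorem w3_sign (h2 : W2) (a c : ℤ) (d j : ℕ) :
    fp ((-1) ^ d * a) c j = (-1) ^ (d * j) * fp a c j := by
  rw [pow_mul]
  rcases Nat.even_or_odd d with hd | hd
  · rw [hd.neg_one_pow, one_mul, one_pow, one_mul]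
  · rw [hd.neg_one_pow, neg_one_mul]
    exact h2 a c j

theorem w3_loc {k : Type} [Field k] (A B P : k[X]) (j : ℕ) : locP A B P j =
    fp (trP A B P)
      (if P ∣ 4 * A ^ 3 + 27 * B ^ 2 then 0 else (Nat.card k : ℤ) ^ P.natDegree) j := by
  unfold locP trP
  congr

theorem w3 : W3 := by
  intro h1 h2 k _ _ _ h6 c hc hsq P hPm hP A B j
  have hu : IsUnit (C c : k[X]) := isUnit_C.2 (isUnit_iff_ne_zero.2 hc)
  have hdvd : ¬ P ∣ C c := fun h => hP.not_isUnit (isUnit_of_dvd_unit h hu)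
  have ht : trP (C c ^ 2 * A) (C c ^ 3 * B) P = (-1) ^ P.natDegree * trP A B P := by
    rw [trP_twist h6 hP hdvd, h1 k h6 c hc hsq P hPm hP]
  have hd : (P ∣ 4 * (C c ^ 2 * A) ^ 3 + 27 * (C c ^ 3 * B) ^ 2) ↔
      P ∣ 4 * A ^ 3 + 27 * B ^ 2 := by
    have e : 4 * (C c ^ 2 * A) ^ 3 + 27 * (C c ^ 3 * B) ^ 2 =
        C c ^ 6 * (4 * A ^ 3 + 27 * B ^ 2) := by ring
    rw [e]
    exact (hu.pow 6).dvd_mul_left
  rw [w3_loc, w3_loc, ht, w3_sign h2]
  simp only [hd]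

end Pool.Agent.NH34.CT
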