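import Pool.Agent.NH34.CT.Stm

/-! Project CT (helper34), part W5: the twist of the power sums. -/

set_option autoImplicit false

open Polynomial Finset

namespace Pool.Agent.NH34.CT

open Pool.Agent.TH180.RT Pool.Agent.NH4.SB

open Classical in
theorem w5 : W5 := by
  intro h1 h2 h3 h4 k _ _ _ h6 c hc hns d A B m hm
  unfold psum
  have e1 : (C c ^ 2 * A).coeff (4 * d) = c ^ 2 * A.coeff (4 * d) := by
    rw [← C_pow, coeff_C_mul]
  have e2 : (C c ^ 3 * B).coeff (6 * d) = c ^ 3 * B.coeff (6 * d) := by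
    rw [← C_pow, coeff_C_mul]
  rw [e1, e2, h4 h2 k h6 c hc hns, mul_add]
  congr 1
  refine Eq.trans ?_ (smul_finsum ((-1 : ℤ) ^ m) _).symm
  refine finsum_congr fun P => ?_
  rw [smul_eq_mul]
  by_cases h : P.Monic ∧ Irreducible P ∧ P.natDegree ∣ m
  · rw [if_pos h, if_pos h, h3 h1 h2 k h6 c hc hns P h.1 h.2.1 A B, Nat.mul_div_cancel' h.2.2]
    ring
  · rw [if_neg h, if_neg h, mul_zero]

end Pool.Agent.NH34.CT
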