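import Pool.Agent.NH34.CT.Stm

/-! Parts W6 and W7 of project CT: the twist of the conductor and of minimal equations. -/

set_option autoImplicit false
set_option linter.all false

open Polynomial Finset

namespace Pool.Agent.NH34.CT

open Pool.Agent.TH180.RT Pool.Agent.NH4.SB

section w67

variable {k : Type} [Field k]

theorem w67_disc (c : k) (A B : k[X]) :
    4 * (C c ^ 2 * A) ^ 3 + 27 * (C c ^ 3 * B) ^ 2 = C c ^ 6 * (4 * A ^ 3 + 27 * B ^ 2) := by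
  ring

theorem w67_unit {c : k} (hc : c ≠ 0) (j : ℕ) : IsUnit ((C c : k[X]) ^ j) :=
  (isUnit_C.2 (isUnit_iff_ne_zero.2 hc)).pow j

theorem w67_dvd {c : k} (hc : c ≠ 0) (j : ℕ) (P A : k[X]) : P ∣ C c ^ j * A ↔ P ∣ A :=
  (w67_unit hc j).dvd_mul_left

open Classical in
theorem w67_cP {c : k} (hc : c ≠ 0) (A B P : k[X]) :
    cP (C c ^ 2 * A) (C c ^ 3 * B) P = cP A B P := by
  unfold cP
  rw [w67_disc]
  exact if_congr (w67_dvd hc 6 _ _) (if_congr (w67_dvd hc 2 _ _) rfl rfl) rfl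

theorem w67_coeff (c : k) (j : ℕ) (A : k[X]) (i : ℕ) :
    (C c ^ j * A).coeff i = c ^ j * A.coeff i := by
  rw [← C_pow, coeff_C_mul]

open Classical in
theorem w67_cI {c : k} (hc : c ≠ 0) (a b : k) : cI (c ^ 2 * a) (c ^ 3 * b) = cI a b := by
  have h1 : 4 * (c ^ 2 * a) ^ 3 + 27 * (c ^ 3 * b) ^ 2 = c ^ 6 * (4 * a ^ 3 + 27 * b ^ 2) := by
    ring
  have h2 : c ^ 6 * (4 * a ^ 3 + 27 * b ^ 2) = 0 ↔ 4 * a ^ 3 + 27 * b ^ 2 = 0 := by
    rw [mul_eq_zero, or_iff_right (pow_ne_zero 6 hc)]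
  have h3 : c ^ 2 * a = 0 ↔ a = 0 := by
    rw [mul_eq_zero, or_iff_right (pow_ne_zero 2 hc)]
  unfold cI
  rw [h1]
  exact if_congr h2 (if_congr h3 rfl rfl) rfl

theorem w67_deg {c : k} (hc : c ≠ 0) (j : ℕ) (A : k[X]) :
    (C c ^ j * A).natDegree = A.natDegree := by
  rw [← C_pow, natDegree_C_mul (pow_ne_zero _ hc)]

theorem w67_map (c : k) (j : ℕ) (A : k[X]) :
    algebraMap k[X] (RatFunc k) (C c ^ j * A) = RatFunc.C c ^ j * algebraMap k[X] (RatFunc k) A := by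
  rw [map_mul, map_pow, RatFunc.algebraMap_C]

end w67

theorem w6 : W6 := by
  intro k _ h6 c hc d A B
  unfold cdeg
  rw [w67_coeff, w67_coeff, w67_cI hc]
  simp only [w67_cP hc]

theorem w7 : W7 := by
  intro k _ h6 c hc a b d A B h
  obtain ⟨⟨h1, h2, h3, h4, h5⟩, w, hw, hA, hB⟩ := h
  refine ⟨⟨?_, ?_, ?_, ?_, ?_⟩, w, hw, ?_, ?_⟩
  · rw [w67_deg hc]; exact h1
  · rw [w67_deg hc]; exact h2
  · rw [w67_deg hc, w67_deg hc]; exact h3
  · rw [w67_disc]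
    exact mul_ne_zero (w67_unit hc 6).ne_zero h4
  · intro P hP
    rw [w67_dvd hc, w67_dvd hc]
    exact h5 P hP
  · rw [w67_map, hA]; ring
  · rw [w67_map, hB]; ring

end Pool.Agent.NH34.CT
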