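import Pool.Agent.NH34.CT.Stm

/-!
Project CT, part W8: parity of the number of the roots `1` and `-1` (helper41).
-/

set_option autoImplicit false
set_option linter.all false

open Polynomial Finset

namespace Pool.Agent.NH34.CT

open Pool.Agent.TH180.RT Pool.Agent.NH4.SB

open Classical in
theorem w8_sum (N : ℕ) (β : Fin N → ℂ)
    (him : ∀ m : ℕ, 0 < m → (∑ i, β i ^ m).im = 0) (g : ℂ → ℂ) :
    ∑ i, g (β i) = ∑ i, g (starRingEnd ℂ (β i)) := by
  have h1 : ∀ m : ℕ, ∑ i, β i ^ m = ∑ i, (starRingEnd ℂ (β i)) ^ m := by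
    intro m
    rcases Nat.eq_zero_or_pos m with rfl | hm
    · simp
    · have := Complex.conj_eq_iff_im.2 (him m hm)
      rw [map_sum] at this
      simp only [map_pow] at this
      exact this.symm
  have h2 : ∀ p : ℂ[X], ∑ i, p.eval (β i) = ∑ i, p.eval (starRingEnd ℂ (β i)) := by
    intro p
    have h : ∀ γ : Fin N → ℂ, ∑ i, p.eval (γ i) =
        ∑ m ∈ range (p.natDegree + 1), p.coeff m * ∑ i, γ i ^ m := by
      intro γ
      simp only [Polynomial.eval_eq_sum_range, Finset.mul_sum]
      rw [Finset.sum_comm]
    rw [h, h]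
    exact Finset.sum_congr rfl fun m _ => by rw [h1]
  obtain ⟨Z, hZ⟩ : ∃ Z : Finset ℂ, Z = univ.image β ∪ univ.image (fun i => starRingEnd ℂ (β i)) :=
    ⟨_, rfl⟩
  have h4 : ∀ z ∈ Z, (Lagrange.interpolate Z id g).eval z = g z := by
    intro z hz
    exact Lagrange.eval_interpolate_at_node g (Set.injOn_id _) hz
  have h5 := h2 (Lagrange.interpolate Z id g)
  rw [Finset.sum_congr rfl fun i _ => h4 (β i) (by
    rw [hZ]
    exact Finset.mem_union_left _ (Finset.mem_image_of_mem _ (Finset.mem_univ i))),
    Finset.sum_congr rfl fun i _ => h4 (starRingEnd ℂ (β i)) (by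
    rw [hZ]
    exact Finset.mem_union_right _ (Finset.mem_image_of_mem (fun i => starRingEnd ℂ (β i))
      (Finset.mem_univ i)))] at h5
  exact h5

open Classical in
theorem w8_cases (z : ℂ) (hz : ‖z‖ = 1) :
    (if z = 1 then 1 else 0) + (if z = -1 then 1 else 0) + (if 0 < z.im then 1 else 0) +
      (if z.im < 0 then 1 else 0) = 1 := by
  rcases lt_trichotomy z.im 0 with h | h | h
  · have h1 : z ≠ 1 := by
      rintro rfl
      simp at h
    have h2 : z ≠ -1 := by
      rintro rfl
      simp at h
    rw [if_neg h1, if_neg h2, if_neg (not_lt.2 h.le), if_pos h]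
  · have h0 : z.re ^ 2 = 1 := by
      have := Complex.sq_norm z
      rw [hz, Complex.normSq_apply, h] at this
      nlinarith
    have hp : (1 : ℂ) ≠ -1 := by norm_num
    rcases (show z.re = 1 ∨ z.re = -1 from by rcases mul_eq_zero.1 (show (z.re - 1) * (z.re + 1) = 0 by nlinarith) with q | q; exacts [Or.inl (by linarith), Or.inr (by linarith)]) with h1 | h1
    · have h2 : z = 1 := Complex.ext (by simpa using h1) (by simpa using h)
      rw [h2, if_pos rfl, if_neg hp]
      simp
    · have h2 : z = -1 := Complex.ext (by simpa using h1) (by simpa using h)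
      rw [h2, if_pos rfl, if_neg hp.symm]
      simp
  · have h1 : z ≠ 1 := by
      rintro rfl
      simp at h
    have h2 : z ≠ -1 := by
      rintro rfl
      simp at h
    rw [if_neg h1, if_neg h2, if_pos h, if_neg (not_lt.2 h.le)]

theorem w8 : W8 := by
  classical
  intro N β hβ him
  have h1 := w8_sum N β him (fun z => if 0 < z.im then 1 else 0)
  have h2 : (univ.filter fun i => 0 < (β i).im).card = (univ.filter fun i => (β i).im < 0).card := by
    rw [← Finset.natCast_card_filter, ← Finset.natCast_card_filter] at h1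
    have h3 := Nat.cast_injective h1
    rw [h3]
    congr 1
    ext i
    simp
  have h3 : ∑ i : Fin N, ((if β i = 1 then 1 else 0) + (if β i = -1 then 1 else 0) +
      (if 0 < (β i).im then 1 else 0) + (if (β i).im < 0 then 1 else 0)) = N := by
    rw [Finset.sum_congr rfl fun i _ => w8_cases (β i) (hβ i)]
    simp
  rw [Finset.sum_add_distrib, Finset.sum_add_distrib, Finset.sum_add_distrib,
    ← Finset.card_filter, ← Finset.card_filter, ← Finset.card_filter, ← Finset.card_filter] at h3
  have h4 : ((univ.filter fun i => β i = 1).card + (univ.filter fun i => β i = -1).card) % 2 =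
      N % 2 := by omega
  convert h4
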