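import Pool.Agent.NH34.CT.Stm

/-!
Project CT, part W9: heights of multiples by constants.
-/

set_option autoImplicit false
set_option linter.all false

open Polynomial Finset

namespace Pool.Agent.NH34.CT

open Pool.Agent.TH180.RT Pool.Agent.NH4.SB

theorem w9_le {k : Type} [Field k] (c : k) (x : RatFunc k) : hgt (RatFunc.C c * x) ≤ hgt x := by
  have h1 : RatFunc.C c * x =
      algebraMap k[X] (RatFunc k) (C c * x.num) / algebraMap k[X] (RatFunc k) x.denom := by
    rw [map_mul, mul_div_assoc, RatFunc.num_div_denom, RatFunc.algebraMap_C]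
  have h2 : (C c * x.num).natDegree ≤ hgt x :=
    (natDegree_C_mul_le c x.num).trans (le_max_left _ _)
  have h3 : x.denom.natDegree ≤ hgt x := le_max_right _ _
  rw [h1]
  exact hgt_le x.denom_ne_zero h2 h3

theorem w9 : W9 := by
  intro k _ c hc x
  apply le_antisymm (w9_le c x)
  have h := w9_le c⁻¹ (RatFunc.C c * x)
  rwa [← mul_assoc, ← map_mul, inv_mul_cancel₀ hc, map_one, one_mul] at h

end Pool.Agent.NH34.CT
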